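import Pool.Agent.Lib.MP_ac5134_an.AE.Core

/-!
The measure of the heights at which there are many differences.
-/

namespace Pool.Agent.MPac5134.AE

open Finset MeasureTheory
open scoped Pointwise ENNReal

variable {σ κ : Type*} [Fintype σ] [DecidableEq σ] [Fintype κ] [DecidableEq κ]


/-- few commensurable heights are bad -/
theorem few_bad {G : Finset (σ → ℤ)} {om yy : (σ → ℤ) →+ (κ → ℤ)}
    {c q : ℝ} {m M : ℕ} (hm : 1 ≤ m) {X : ℝ} (hX0 : 0 ≤ X)
    (hX : ∀ (s0 : ℝ) (a : Fin m → ℕ), Function.Injective a → (∀ i, a i ≤ M) →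
      ∏ i, ((KK G om yy c (s0 + a i / q)).card : ℝ) ≤ X ^ m) (s0 : ℝ) :
    ((range (M + 1)).filter fun a : ℕ => X < (KK G om yy c (s0 + a / q)).card).card ≤ m - 1 := by
  classical
  by_contra hcon
  push Not at hcon
  have h1 : m ≤ ((range (M + 1)).filter fun a : ℕ =>
    X < (KK G om yy c (s0 + a / q)).card).card := by omega
  obtain ⟨S, hS, hSc⟩ := exists_subset_card_eq h1
  set a : Fin m → ℕ := fun i => S.orderEmbOfFin hSc i with ha
  have hmem : ∀ i, a i ∈ S := fun i => orderEmbOfFin_mem S hSc i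
  have hinj : Function.Injective a := fun i j hij => (S.orderEmbOfFin hSc).injective hij
  have haM : ∀ i, a i ≤ M := by
    intro i
    have h2 := (mem_filter.1 (hS (hmem i))).1
    rw [mem_range] at h2
    omega
  have h4 := hX s0 a hinj haM
  have h3 : X ^ m < ∏ i, ((KK G om yy c (s0 + a i / q)).card : ℝ) := by
    have h4 : X ^ m = ∏ _i : Fin m, X := by rw [prod_const, card_univ, Fintype.card_fin]
    rw [h4]
    have h5 : ∀ i, X < ((KK G om yy c (s0 + a i / q)).card : ℝ) := fun i =>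
      (mem_filter.1 (hS (hmem i))).2
    rcases hX0.eq_or_lt with h0 | h0
    · rw [← h0, prod_const, card_univ, Fintype.card_fin, zero_pow (by omega)]
      apply prod_pos
      intro i _
      have := h5 i
      rw [← h0] at this
      exact this
    · apply prod_lt_prod_of_nonempty (fun _ _ => h0) (fun i _ => h5 i)
      exact ⟨⟨0, by omega⟩, mem_univ _⟩
  linarith

theorem measurable_card (G : Finset (σ → ℤ)) (om yy : (σ → ℤ) →+ (κ → ℤ)) (c : ℝ) :
    Measurable fun s : ℝ => ((KK G om yy c s).card : ℝ) := by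
  classical
  have h1 : (fun s : ℝ => ((KK G om yy c s).card : ℝ)) = fun s : ℝ => ∑ g ∈ DD G 1,
      if ∀ k, |((yy g k : ℤ) : ℝ) - 2 * s * ((om g k : ℤ) : ℝ)| ≤ c then (1 : ℝ) else 0 := by
    funext s
    unfold KK
    rw [card_filter]
    push_cast
    rfl
  rw [h1]
  apply Finset.measurable_sum
  intro g _
  apply Measurable.ite _ measurable_const measurable_const
  have h2 : {s : ℝ | ∀ k, |((yy g k : ℤ) : ℝ) - 2 * s * ((om g k : ℤ) : ℝ)| ≤ c} =
      ⋂ k, {s : ℝ | |((yy g k : ℤ) : ℝ) - 2 * s * ((om g k : ℤ) : ℝ)| ≤ c} := by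
    ext s
    simp
  rw [h2]
  apply MeasurableSet.iInter
  intro k
  have h3 : Continuous fun s : ℝ => |((yy g k : ℤ) : ℝ) - 2 * s * ((om g k : ℤ) : ℝ)| := by
    fun_prop
  exact (isClosed_le h3 continuous_const).measurableSet

/-- the bad heights in an interval -/
theorem volume_bad_le {G : Finset (σ → ℤ)} {om yy : (σ → ℤ) →+ (κ → ℤ)}
    {c : ℝ} {q S : ℕ} (hq : 1 ≤ q) (hS : 1 ≤ S) {m M : ℕ} (hm : 1 ≤ m)
    (hM : 2 * S * q ≤ M) {X : ℝ} (hX0 : 0 ≤ X)
    (hX : ∀ (s0 : ℝ) (a : Fin m → ℕ), Function.Injective a → (∀ i, a i ≤ M) →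
      ∏ i, ((KK G om yy c (s0 + a i / (q : ℝ))).card : ℝ) ≤ X ^ m) :
    volume {s : ℝ | s ∈ Set.Icc (-(S : ℝ)) S ∧ X < (KK G om yy c s).card} ≤
      ENNReal.ofReal (m / q) := by
  classical
  have hq0 : (0 : ℝ) < q := by exact_mod_cast hq
  have hS0 : (0 : ℝ) < S := by exact_mod_cast hS
  have hM1 : 1 ≤ M := by
    have h1 : 1 ≤ 2 * S * q := Nat.mul_pos (by omega) (by omega)
    omega
  set 𝓑 : Set ℝ := {s : ℝ | X < (KK G om yy c s).card} with h𝓑
  have h𝓑m : MeasurableSet 𝓑 := measurableSet_lt measurable_const (measurable_card G om yy c)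
  set U : ℕ → Set ℝ := fun a => {u : ℝ | u ∈ Set.Ico (0 : ℝ) (1 / q) ∧ u + (-(S : ℝ) + a / q) ∈ 𝓑}
    with hU
  have hUm : ∀ a, MeasurableSet (U a) := by
    intro a
    have h1 : MeasurableSet ((fun u : ℝ => u + (-(S : ℝ) + a / q)) ⁻¹' 𝓑) :=
      (measurable_id.add_const _) h𝓑m
    exact measurableSet_Ico.inter h1
  have hcov : {s : ℝ | s ∈ Set.Icc (-(S : ℝ)) S ∧ X < (KK G om yy c s).card} ⊆
      ⋃ a ∈ range (M + 1), (fun s : ℝ => s + -(-(S : ℝ) + a / q)) ⁻¹' U a := by
    intro s hs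
    obtain ⟨⟨hs1, hs2⟩, hs3⟩ := hs
    set a : ℕ := ⌊(s + S) * q⌋₊ with ha
    have h0 : 0 ≤ (s + S) * q := mul_nonneg (by linarith) hq0.le
    have h1 : (a : ℝ) ≤ (s + S) * q := Nat.floor_le h0
    have h2 : (s + S) * q < a + 1 := Nat.lt_floor_add_one _
    rw [Set.mem_iUnion₂]
    refine ⟨a, ?_, ?_⟩
    · rw [mem_range]
      have h3 : (a : ℝ) ≤ M := by
        have h4 : (s + S) * q ≤ 2 * S * q := by nlinarith
        have h5 : ((2 * S * q : ℕ) : ℝ) ≤ M := by exact_mod_cast hM
        push_cast at h5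
        linarith
      have h4 : a ≤ M := by exact_mod_cast h3
      omega
    · rw [Set.mem_preimage, hU]
      refine ⟨⟨?_, ?_⟩, ?_⟩
      · have h3 : (a : ℝ) / q ≤ s + S := by rw [div_le_iff₀ hq0]; exact h1
        linarith
      · have h3 : s + S < (a + 1) / q := by rw [lt_div_iff₀ hq0]; exact h2
        rw [add_div] at h3
        linarith
      · have e : s + -(-(S : ℝ) + a / q) + (-(S : ℝ) + a / q) = s := by ring
        rw [e]
        exact hs3
  have h1 : volume {s : ℝ | s ∈ Set.Icc (-(S : ℝ)) S ∧ X < (KK G om yy c s).card} ≤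
      ∑ a ∈ range (M + 1), volume (U a) := by
    refine (measure_mono hcov).trans ((measure_biUnion_finset_le _ _).trans ?_)
    apply sum_le_sum
    intro a _
    rw [measure_preimage_add_right]
  refine h1.trans ?_
  have h2 : ∑ a ∈ range (M + 1), volume (U a) =
      ∫⁻ u, ∑ a ∈ range (M + 1), (U a).indicator (fun _ => (1 : ℝ≥0∞)) u := by
    rw [lintegral_finsetSum _ fun a _ => measurable_const.indicator (hUm a)]
    apply sum_congr rfl
    intro a _
    rw [lintegral_indicator_const (hUm a), one_mul]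
  rw [h2]
  have h3 : ∀ u : ℝ, ∑ a ∈ range (M + 1), (U a).indicator (fun _ => (1 : ℝ≥0∞)) u ≤
      (Set.Ico (0 : ℝ) (1 / q)).indicator (fun _ => (m : ℝ≥0∞)) u := by
    intro u
    by_cases hu : u ∈ Set.Ico (0 : ℝ) (1 / q)
    · rw [Set.indicator_of_mem hu]
      have h4 := few_bad (om := om) (yy := yy) hm hX0 hX (-(S : ℝ) + u)
      have h5 : ∑ a ∈ range (M + 1), (U a).indicator (fun _ => (1 : ℝ≥0∞)) u ≤
          (((range (M + 1)).filter fun a : ℕ =>
            X < (KK G om yy c (-(S : ℝ) + u + a / q)).card).card : ℝ≥0∞) := by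
        rw [card_filter]
        push_cast
        apply sum_le_sum
        intro a _
        rw [Set.indicator_apply]
        split_ifs with h6 h7
        · exact le_rfl
        · exfalso
          apply h7
          have h8 : X < (KK G om yy c (u + (-(S : ℝ) + a / q))).card := h6.2
          have e : u + (-(S : ℝ) + a / q) = -(S : ℝ) + u + a / q := by ring
          rw [e] at h8
          exact h8
        · exact zero_le_one
        · exact le_rfl
      refine h5.trans ?_
      exact_mod_cast h4.trans (Nat.sub_le m 1)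
    · rw [Set.indicator_of_notMem hu]
      apply le_of_eq
      apply sum_eq_zero
      intro a _
      rw [Set.indicator_of_notMem]
      intro h
      exact hu h.1
  refine (lintegral_mono h3).trans ?_
  rw [lintegral_indicator_const measurableSet_Ico, Real.volume_Ico, sub_zero]
  rw [← ENNReal.ofReal_natCast m, ← ENNReal.ofReal_mul (Nat.cast_nonneg m)]
  apply ENNReal.ofReal_le_ofReal
  rw [mul_one_div]

end Pool.Agent.MPac5134.AE
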