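import Pool.Agent.Lib.MP_ac5134_an.AE.Core

/-!
Sums of dilates: for a set `G` of small doubling and integers `lam i < 2 ^ t`, the sums
`∑ lam i • w i` with `w i ∈ 2 G - 2 G` are covered by few translates of `G - G`.
-/

namespace Pool.Agent.MPac5134.AE

open Finset
open scoped Pointwise

theorem dil_cover {V : Type*} [AddCommGroup V] [DecidableEq V] {G : Finset V} (hG : G.Nonempty)
    {L : ℝ} (hL : ((G + G).card : ℝ) ≤ L * G.card) (m t : ℕ) (lam : Fin m → ℕ)
    (hlam : ∀ i, lam i < 2 ^ t) :
    ∃ X : Finset V, (X.card : ℝ) ≤ L ^ ((4 * m + 9) * t) ∧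
      ∀ w : Fin m → V, (∀ i, w i ∈ DD G 2) → ∑ i, lam i • w i ∈ X + DD G 1 := by
  classical
  have hpos : (0 : ℝ) < G.card := by exact_mod_cast hG.card_pos
  have hL1 : 1 ≤ L := by
    have h1 : (G.card : ℝ) ≤ (G + G).card := by exact_mod_cast card_le_card_add_left hG
    by_contra hcon
    push Not at hcon
    nlinarith
  -- the covering of `(2 m + 2) G - (2 m + 2) G`
  obtain ⟨Y, hY1, hY2⟩ : ∃ Y : Finset V, (Y.card : ℝ) ≤ L ^ (4 * m + 5) ∧
      DD G (2 * m + 2) ⊆ Y + DD G 1 := by
    have h1 := card_DD_le hG hL (2 * m + 3) (2 * m + 2)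
    have h2 : DD G (2 * m + 2) + G = (2 * m + 3) • G - (2 * m + 2) • G := by
      unfold DD
      rw [sub_eq_add_neg, add_right_comm, ← sub_eq_add_neg, ← succ_nsmul]
    have h3 : ((DD G (2 * m + 2) + G).card : ℝ) ≤ L ^ (4 * m + 5) * G.card := by
      rw [h2]
      have e : 2 * m + 3 + (2 * m + 2) = 4 * m + 5 := by ring
      rw [e] at h1
      exact h1
    obtain ⟨F, -, hF1, hF2⟩ := ruzsa_covering_add hG h3
    refine ⟨F, hF1, ?_⟩
    unfold DD at hF2 ⊢
    rw [one_nsmul]
    exact hF2
  induction t generalizing lam with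
  | zero =>
    refine ⟨{0}, by simp, ?_⟩
    intro w _
    have h1 : ∑ i, lam i • w i = 0 := by
      apply sum_eq_zero
      intro i _
      have h2 := hlam i
      rw [pow_zero] at h2
      have h3 : lam i = 0 := by omega
      rw [h3, zero_smul]
    rw [h1, mem_add]
    refine ⟨0, mem_singleton_self _, 0, ?_, add_zero _⟩
    exact DD_mono hG (Nat.zero_le 1) DD_zero
  | succ t ih =>
    obtain ⟨X, hX1, hX2⟩ := ih (fun i => lam i / 2) (fun i => by
      have h2 := hlam i
      rw [pow_succ] at h2
      show lam i / 2 < 2 ^ t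
      omega)
    refine ⟨X.image (fun x => 2 • x) + Y, ?_, ?_⟩
    · have h1 : ((X.image (fun x => 2 • x) + Y).card : ℝ) ≤ X.card * Y.card := by
        have h2 : (X.image (fun x => 2 • x) + Y).card ≤ X.card * Y.card :=
          card_add_le.trans (Nat.mul_le_mul_right _ card_image_le)
        exact_mod_cast h2
      refine h1.trans ?_
      calc (X.card : ℝ) * Y.card ≤ L ^ ((4 * m + 9) * t) * L ^ (4 * m + 5) := by gcongr
        _ = L ^ ((4 * m + 9) * t + (4 * m + 5)) := (pow_add _ _ _).symm
        _ ≤ _ := by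
          apply pow_le_pow_right₀ hL1
          rw [Nat.mul_succ]
          omega
    · intro w hw
      have h1 := hX2 w hw
      rw [mem_add] at h1
      obtain ⟨x, hx, g, hg, hxg⟩ := h1
      have h2 : ∑ i, lam i • w i = 2 • x + (2 • g + ∑ i, (lam i % 2) • w i) := by
        have e : ∀ i, lam i • w i = 2 • ((lam i / 2) • w i) + (lam i % 2) • w i := by
          intro i
          rw [smul_smul, ← add_smul]
          congr 1
          omega
        rw [sum_congr rfl fun i _ => e i, sum_add_distrib, ← smul_sum]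
        rw [← hxg, smul_add]
        abel
      have h3 : 2 • g + ∑ i, (lam i % 2) • w i ∈ DD G (2 * m + 2) := by
        have h4 : 2 • g ∈ DD G (2 * 1) := DD_nsmul hg 2
        have h5 : ∑ i, (lam i % 2) • w i ∈ DD G (∑ i : Fin m, (lam i % 2) * 2) := by
          apply DD_sum
          intro i _
          exact DD_nsmul (hw i) _
        have h6 := DD_add h4 h5
        apply DD_mono hG _ h6
        have h7 : ∑ i : Fin m, (lam i % 2) * 2 ≤ ∑ _i : Fin m, 2 := by
          apply sum_le_sum
          intro i _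
          omega
        rw [sum_const, card_univ, Fintype.card_fin, smul_eq_mul] at h7
        omega
      have h8 := hY2 h3
      rw [mem_add] at h8
      obtain ⟨y, hy, g', hg', hyg⟩ := h8
      rw [h2, ← hyg, ← add_assoc, mem_add]
      exact ⟨2 • x + y, add_mem_add (mem_image_of_mem _ hx) hy, g', hg', rfl⟩

end Pool.Agent.MPac5134.AE
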