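import Pool.Agent.Lib.MP_ac5134_an.AE.Bad
import Pool.Agent.Lib.MP_ac5134_an.AE.Dil

/-!
The measure of the bad heights of a set of labels in terms of its doubling constant.
-/

namespace Pool.Agent.MPac5134.AE

open Finset MeasureTheory
open scoped Pointwise ENNReal

variable {σ κ : Type*} [Fintype σ] [DecidableEq σ] [Fintype κ] [DecidableEq κ]

/-- a doubling constant is at least one -/
theorem one_le_doubling {V : Type*} [AddCommGroup V] [DecidableEq V] {G : Finset V}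
    (hG : G.Nonempty) {L : ℝ} (hL : ((G + G).card : ℝ) ≤ L * G.card) : 1 ≤ L := by
  have hpos : (0 : ℝ) < G.card := by exact_mod_cast hG.card_pos
  have h1 : (G.card : ℝ) ≤ (G + G).card := by exact_mod_cast card_le_card_add_left hG
  by_contra hcon
  push Not at hcon
  nlinarith

/-- the product at commensurable heights, with explicit exponents -/
theorem prod_le_explicit {G : Finset (σ → ℤ)} (hG : G.Nonempty) {L : ℝ}
    (hL : ((G + G).card : ℝ) ≤ L * G.card) {om yy : (σ → ℤ) →+ (κ → ℤ)} {K : ℕ}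
    (hK : ∀ z, (G.filter fun g => om g = z).card ≤ K)
    {c s0 q : ℝ} (hq : 0 < q) {m M : ℕ} (hm : 1 ≤ m) {a : Fin m → ℕ}
    (ha : Function.Injective a) (haM : ∀ i, a i ≤ M) {B : ℕ}
    (hB : q * (m * 2 ^ M * c) ≤ B) :
    ∏ i, ((KK G om yy c (s0 + a i / q)).card : ℝ) ≤
      ((2 * B + 1) ^ Fintype.card κ * (K * L ^ ((4 * m + 9) * (M + 1) + 3))) ^ (m - 1) *
        (L ^ (2 * m) * G.card) := by
  classical
  have hL1 : 1 ≤ L := one_le_doubling hG hL
  have hch : ∀ l i, (a i).choose l < 2 ^ (M + 1) := by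
    intro l i
    calc (a i).choose l ≤ 2 ^ (a i) := Nat.choose_le_two_pow _ _
      _ ≤ 2 ^ M := Nat.pow_le_pow_right (by norm_num) (haM i)
      _ < 2 ^ (M + 1) := Nat.pow_lt_pow_right (by norm_num) (by omega)
  choose X hX hXm using fun l : ℕ => dil_cover hG hL m (M + 1) (fun i => (a i).choose l) (hch l)
  set R : ℝ := (2 * B + 1) ^ Fintype.card κ * (K * L ^ ((4 * m + 9) * (M + 1) + 3)) with hR
  have hR0 : 0 ≤ R := by positivity
  have hF : ∀ l, ((((X l + DD G 1).filter fun f => ∀ k, |om f k| ≤ (B : ℤ)).card : ℕ) : ℝ) ≤ R := by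
    intro l
    apply fibre_le hG _ om hK B
    have h1 : ((X l + DD G 1 + G).card : ℝ) ≤ (X l).card * (2 • G - 1 • G).card := by
      have h2 : X l + DD G 1 + G = X l + (2 • G - 1 • G) := by
        rw [add_assoc]
        congr 1
        unfold DD
        rw [sub_eq_add_neg, add_right_comm, ← sub_eq_add_neg, two_nsmul, one_nsmul]
      rw [h2]
      exact_mod_cast card_add_le
    have h3 := card_DD_le hG hL 2 1
    calc ((X l + DD G 1 + G).card : ℝ) ≤ (X l).card * (2 • G - 1 • G).card := h1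
      _ ≤ L ^ ((4 * m + 9) * (M + 1)) * (L ^ 3 * G.card) := by
          apply mul_le_mul (hX l) h3 (Nat.cast_nonneg _) (by positivity)
      _ = _ := by rw [pow_add]; ring
  set Φ : ℕ := ⌊R⌋₊ with hΦ
  have h1 := prod_le (G := G) (om := om) (yy := yy) (s0 := s0) hq hm ha haM (Φ := Φ) hB
    (Δ := fun l => X l + DD G 1) (fun l _ w hw => hXm l w hw) (fun l _ => by
      rw [hΦ]
      exact Nat.le_floor (hF l))
  have h2 := card_DD_le hG hL m m
  have h3 : ((∏ i, (KK G om yy c (s0 + a i / q)).card : ℕ) : ℝ) ≤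
      ((Φ ^ (m - 1) * (DD G m).card : ℕ) : ℝ) := by exact_mod_cast h1
  push_cast at h3
  refine h3.trans ?_
  apply mul_le_mul
  · exact pow_le_pow_left₀ (Nat.cast_nonneg _) (Nat.floor_le hR0) _
  · rw [two_mul]
    exact h2
  · exact Nat.cast_nonneg _
  · positivity

theorem volume_bad_explicit (K : ℕ) {S : ℕ} (hS : 1 ≤ S) (c0 : ℝ) {A0 ε : ℝ}
    (hA : 1 ≤ A0) (e : ℕ) {m : ℕ} (hm : 1 ≤ m)
    (hmε : (e : ℝ) ≤ ε * m) {q : ℕ} (hq : 1 ≤ q) :
    ∃ C : ℝ, 1 ≤ C ∧ ∀ (om yy : (σ → ℤ) →+ (κ → ℤ)), Fintype.card κ = e →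
      ∀ N : ℝ, 1 ≤ N → ∀ G : Finset (σ → ℤ), G.Nonempty →
      (∀ z, (G.filter fun g => om g = z).card ≤ K) → (G.card : ℝ) ≤ A0 * N ^ e →
      ∀ L : ℝ, ((G + G).card : ℝ) ≤ L * G.card →
      volume {s : ℝ | s ∈ Set.Icc (-(S : ℝ)) S ∧
        C * N ^ ε * L ^ ((4 * m + 9) * (2 * S * q + 1) + 5) < (KK G om yy c0 s).card} ≤
        ENNReal.ofReal (m / q) := by
  classical
  have hq0 : (0:ℝ) < q := by exact_mod_cast hq
  obtain ⟨M, hM⟩ : ∃ M : ℕ, M = 2 * S * q := ⟨_, rfl⟩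
  obtain ⟨B, hB⟩ : ∃ B : ℕ, B = ⌈(q : ℝ) * (m * (2 : ℝ) ^ M * c0)⌉₊ := ⟨_, rfl⟩
  obtain ⟨p, hp⟩ : ∃ p : ℕ, p = (4 * m + 9) * (M + 1) + 3 := ⟨_, rfl⟩
  set C1 : ℝ := ((2 * B + 1 : ℝ) ^ e * K) ^ (m - 1) * A0 with hC1
  have hC10 : 0 ≤ C1 := by positivity
  refine ⟨C1 + 1, by linarith, ?_⟩
  intro om yy hκ N hN G hG hK hGc L hL
  have hN0 : 0 < N := by linarith
  have hL1 : 1 ≤ L := one_le_doubling hG hL
  have hL0 : 0 < L := by linarith
  rw [← hM]
  have e5 : (4 * m + 9) * (M + 1) + 5 = p + 2 := by rw [hp]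
  rw [e5]
  apply volume_bad_le hq hS hm hM.ge
  · positivity
  · intro s0 a ha haM
    have h1 := prod_le_explicit hG hL (om := om) (yy := yy) hK (c := c0) (s0 := s0) hq0 hm ha haM
      (B := B) (by rw [hB]; exact Nat.le_ceil _)
    rw [hκ, ← hp] at h1
    refine h1.trans ?_
    calc ((2 * (B:ℝ) + 1) ^ e * (K * L ^ p)) ^ (m - 1) * (L ^ (2 * m) * G.card) ≤
          ((2 * (B:ℝ) + 1) ^ e * (K * L ^ p)) ^ (m - 1) * (L ^ (2 * m) * (A0 * N ^ e)) := by
          gcongr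
      _ = C1 * (L ^ (p * (m - 1)) * L ^ (2 * m)) * N ^ e := by
          rw [hC1, ← mul_assoc ((2 * (B:ℝ) + 1) ^ e), mul_pow, ← pow_mul]
          ring
      _ ≤ C1 * (L ^ (p * m) * L ^ (2 * m)) * N ^ e := by
          gcongr
          omega
      _ = C1 * (L ^ (p + 2)) ^ m * N ^ e := by
          rw [← pow_add, ← pow_mul]
          congr 3
          ring
      _ ≤ (C1 + 1) ^ m * (L ^ (p + 2)) ^ m * (N ^ ε) ^ m := by
          have h4 : N ^ e ≤ (N ^ ε) ^ m := by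
            rw [← Real.rpow_natCast (N ^ ε) m, ← Real.rpow_mul hN0.le, ← Real.rpow_natCast N e]
            exact Real.rpow_le_rpow_of_exponent_le hN hmε
          have h5 : C1 ≤ (C1 + 1) ^ m := by
            calc C1 ≤ (C1 + 1) ^ 1 := by rw [pow_one]; linarith
              _ ≤ (C1 + 1) ^ m := pow_le_pow_right₀ (by linarith) hm
          gcongr
      _ = ((C1 + 1) * N ^ ε * L ^ (p + 2)) ^ m := by
          rw [mul_pow, mul_pow]
          ring

end Pool.Agent.MPac5134.AE
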