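import Mathlib

/-!
Sets of integer vectors with small doubling: for commensurable heights `s`, the sets of the differences
`(ω, y)` with `|y - 2 s ω| ≤ c` are independent, so they cannot be all large.
-/

namespace Pool.Agent.MPac5134.AE

open Finset
open scoped Pointwise

section Group

variable {V : Type*} [AddCommGroup V] [DecidableEq V]

/-- the set `n G - n G` -/
def DD (G : Finset V) (n : ℕ) : Finset V := n • G - n • G

theorem mem_DD {G : Finset V} {n : ℕ} {v : V} :
    v ∈ DD G n ↔ ∃ x ∈ n • G, ∃ y ∈ n • G, x - y = v := by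
  unfold DD
  exact mem_sub

theorem DD_zero {G : Finset V} : (0 : V) ∈ DD G 0 := by
  rw [mem_DD]
  exact ⟨0, by simp, 0, by simp, by simp⟩

theorem DD_add {G : Finset V} {n m : ℕ} {a b : V} (ha : a ∈ DD G n) (hb : b ∈ DD G m) :
    a + b ∈ DD G (n + m) := by
  rw [mem_DD] at *
  obtain ⟨x, hx, y, hy, rfl⟩ := ha
  obtain ⟨x', hx', y', hy', rfl⟩ := hb
  refine ⟨x + x', ?_, y + y', ?_, by abel⟩
  · rw [add_nsmul]; exact add_mem_add hx hx'
  · rw [add_nsmul]; exact add_mem_add hy hy'

theorem DD_neg {G : Finset V} {n : ℕ} {a : V} (ha : a ∈ DD G n) : -a ∈ DD G n := by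
  rw [mem_DD] at *
  obtain ⟨x, hx, y, hy, rfl⟩ := ha
  exact ⟨y, hy, x, hx, by abel⟩

theorem DD_sub {G : Finset V} {n m : ℕ} {a b : V} (ha : a ∈ DD G n) (hb : b ∈ DD G m) :
    a - b ∈ DD G (n + m) := by
  rw [sub_eq_add_neg]
  exact DD_add ha (DD_neg hb)

theorem DD_mono {G : Finset V} (hG : G.Nonempty) {n m : ℕ} (hnm : n ≤ m) : DD G n ⊆ DD G m := by
  intro v hv
  obtain ⟨k, rfl⟩ := Nat.exists_eq_add_of_le hnm
  have h0 : (0 : V) ∈ DD G k := by
    obtain ⟨g, hg⟩ := hG.nsmul (n := k)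
    rw [mem_DD]
    exact ⟨g, hg, g, hg, by simp⟩
  have := DD_add hv h0
  rwa [add_zero] at this

theorem DD_nsmul {G : Finset V} {n : ℕ} {a : V} (ha : a ∈ DD G n) (k : ℕ) :
    k • a ∈ DD G (k * n) := by
  induction k with
  | zero => simpa using DD_zero (G := G)
  | succ k ih =>
    rw [succ_nsmul, Nat.succ_mul]
    exact DD_add ih ha

theorem DD_sum {G : Finset V} {ι : Type*} (s : Finset ι) (a : ι → V) (n : ι → ℕ)
    (h : ∀ i ∈ s, a i ∈ DD G (n i)) : ∑ i ∈ s, a i ∈ DD G (∑ i ∈ s, n i) := by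
  classical
  induction s using Finset.induction_on with
  | empty => simpa using DD_zero (G := G)
  | insert i s hi ih =>
    rw [sum_insert hi, sum_insert hi]
    exact DD_add (h i (mem_insert_self _ _)) (ih fun j hj => h j (mem_insert_of_mem hj))

theorem card_DD_le {G : Finset V} (hG : G.Nonempty) {L : ℝ}
    (hL : ((G + G).card : ℝ) ≤ L * G.card) (m n : ℕ) :
    ((m • G - n • G).card : ℝ) ≤ L ^ (m + n) * G.card := by
  have hpos : (0 : ℝ) < G.card := by exact_mod_cast hG.card_pos
  have h1 := pluennecke_ruzsa_inequality_nsmul_sub_nsmul_add hG G m n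
  have h2 : ((m • G - n • G).card : ℝ) ≤ ((G + G).card / G.card : ℝ) ^ (m + n) * G.card := by
    have := (NNRat.cast_le (K := ℝ)).2 h1
    push_cast at this
    exact this
  refine h2.trans ?_
  apply mul_le_mul_of_nonneg_right _ hpos.le
  apply pow_le_pow_left₀ (by positivity)
  rw [div_le_iff₀ hpos]
  exact hL

end Group

variable {σ κ : Type*} [Fintype σ] [DecidableEq σ] [Fintype κ] [DecidableEq κ]

/-- the number of the elements of `D` with bounded first part -/
theorem fibre_le {G D : Finset (σ → ℤ)} (hG : G.Nonempty) {R : ℝ}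
    (hD : ((D + G).card : ℝ) ≤ R * G.card) (om : (σ → ℤ) →+ (κ → ℤ)) {K : ℕ}
    (hK : ∀ z, (G.filter fun g => om g = z).card ≤ K) (B : ℕ) :
    ((D.filter fun f => ∀ k, |om f k| ≤ (B : ℤ)).card : ℝ) ≤
      (2 * B + 1) ^ Fintype.card κ * (K * R) := by
  classical
  have hpos : (0 : ℝ) < G.card := by exact_mod_cast hG.card_pos
  set F := D.filter fun f => ∀ k, |om f k| ≤ (B : ℤ) with hF
  have h1 : ∀ z : κ → ℤ, ((F.filter fun f => om f = z).card : ℝ) ≤ K * R := by
    intro z
    set Fz := F.filter fun f => om f = z with hFz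
    have h2 : (G ×ˢ Fz).card ≤ K * ((G ×ˢ Fz).image fun p => p.1 + p.2).card := by
      apply card_le_mul_card_image
      intro b _
      refine le_trans ?_ (hK (om b - z))
      apply card_le_card_of_injOn (fun p => p.1)
      · intro p hp
        rw [mem_coe, mem_filter, mem_product] at hp
        obtain ⟨⟨hp1, hp2⟩, hp3⟩ := hp
        rw [hFz, mem_filter] at hp2
        rw [mem_coe, mem_filter]
        refine ⟨hp1, ?_⟩
        rw [← hp3, map_add, hp2.2]
        abel
      · intro p hp p' hp' hpp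
        rw [mem_coe, mem_filter] at hp hp'
        have h3 : p.1 = p'.1 := hpp
        have h4 : p.1 + p.2 = p'.1 + p'.2 := hp.2.trans hp'.2.symm
        rw [h3] at h4
        exact Prod.ext h3 (add_left_cancel h4)
    have h3 : ((G ×ˢ Fz).image fun p => p.1 + p.2) ⊆ D + G := by
      intro b hb
      rw [mem_image] at hb
      obtain ⟨p, hp, rfl⟩ := hb
      rw [mem_product, hFz, mem_filter, hF, mem_filter] at hp
      rw [add_comm p.1]
      exact add_mem_add hp.2.1.1 hp.1
    have h5 : ((G.card * Fz.card : ℕ) : ℝ) ≤ K * (R * G.card) := by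
      have h6 : ((G.card * Fz.card : ℕ) : ℝ) ≤ ((K * (D + G).card : ℕ) : ℝ) := by
        rw [card_product] at h2
        exact_mod_cast h2.trans (Nat.mul_le_mul_left K (card_le_card h3))
      rw [Nat.cast_mul K] at h6
      refine h6.trans ?_
      exact mul_le_mul_of_nonneg_left hD (Nat.cast_nonneg K)
    push_cast at h5
    have h7 : (Fz.card : ℝ) * G.card ≤ (K * R) * G.card := by linarith
    exact le_of_mul_le_mul_right h7 hpos
  have hmaps : ∀ f ∈ F, om f ∈ Fintype.piFinset fun _ : κ => Icc (-(B : ℤ)) B := by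
    intro f hf
    rw [hF, mem_filter] at hf
    rw [Fintype.mem_piFinset]
    intro k
    rw [mem_Icc]
    exact abs_le.1 (hf.2 k)
  have h2 := card_eq_sum_card_fiberwise (f := om) hmaps
  rw [h2]
  push_cast
  calc _ ≤ ∑ _z ∈ Fintype.piFinset fun _ : κ => Icc (-(B : ℤ)) B, (K * R : ℝ) :=
        sum_le_sum fun z _ => h1 z
    _ = _ := by
      rw [sum_const, nsmul_eq_mul, Fintype.card_piFinset]
      simp only [Int.card_Icc, prod_const, card_univ]
      have e : ((B : ℤ) + 1 - -(B : ℤ)).toNat = 2 * B + 1 := by omega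
      rw [e]
      push_cast
      ring

/-- the differences with `|y - 2 s ω| ≤ c` -/
noncomputable def KK (G : Finset (σ → ℤ)) (om yy : (σ → ℤ) →+ (κ → ℤ)) (c s : ℝ) :
    Finset (σ → ℤ) :=
  open Classical in
  (DD G 1).filter fun g => ∀ k, |((yy g k : ℤ) : ℝ) - 2 * s * ((om g k : ℤ) : ℝ)| ≤ c

omit [DecidableEq σ] in
theorem mem_KK {G : Finset (σ → ℤ)} {om yy : (σ → ℤ) →+ (κ → ℤ)} {c s : ℝ} {g : σ → ℤ} :
    g ∈ KK G om yy c s ↔ g ∈ DD G 1 ∧
      ∀ k, |((yy g k : ℤ) : ℝ) - 2 * s * ((om g k : ℤ) : ℝ)| ≤ c := by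
  unfold KK
  exact mem_filter

/-- the binomial moments of a tuple -/
def mom {m : ℕ} (a : Fin m → ℕ) (l : ℕ) (z : Fin m → σ → ℤ) : σ → ℤ := ∑ i, (a i).choose l • z i

theorem mom_sub {m : ℕ} (a : Fin m → ℕ) (l : ℕ) (z z' : Fin m → σ → ℤ) :
    mom a l (z - z') = mom a l z - mom a l z' := by
  unfold mom
  rw [← sum_sub_distrib]
  apply sum_congr rfl
  intro i _
  rw [Pi.sub_apply, smul_sub]

theorem mul_choose_eq (a l : ℕ) :
    (a : ℤ) * a.choose l = (l + 1) * a.choose (l + 1) + l * a.choose l := by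
  rcases le_or_gt l a with h | h
  · have h1 := Nat.choose_succ_right_eq a l
    have h2 : ((a.choose (l + 1) : ℤ)) * (l + 1) = a.choose l * (a - l) := by
      have h3 : ((a.choose (l + 1) * (l + 1) : ℕ) : ℤ) = ((a.choose l * (a - l) : ℕ) : ℤ) := by
        rw [h1]
      push_cast [Nat.cast_sub h] at h3
      exact h3
    linarith
  · rw [Nat.choose_eq_zero_of_lt h, Nat.choose_eq_zero_of_lt (by omega)]
    simp

theorem mom_inj {m : ℕ} {a : Fin m → ℕ} (ha : Function.Injective a) {z : Fin m → σ → ℤ}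
    (h : ∀ l < m, mom a l z = 0) : z = 0 := by
  have h1 : ∀ u : σ, (fun i => z i u) = 0 := by
    intro u
    have h0 : ∀ l j : ℕ, l + j < m →
        ∑ i, (z i u) * ((a i : ℤ) ^ l * ((a i).choose j : ℤ)) = 0 := by
      intro l
      induction l with
      | zero =>
        intro j hj
        have h2 := congrFun (h j (by omega)) u
        unfold mom at h2
        rw [Finset.sum_apply, Pi.zero_apply] at h2
        rw [← h2]
        apply sum_congr rfl
        intro i _
        rw [Pi.smul_apply, nsmul_eq_mul]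
        ring
      | succ l ih =>
        intro j hj
        have h2 := ih (j + 1) (by omega)
        have h3 := ih j (by omega)
        have e : ∀ i, (z i u) * ((a i : ℤ) ^ (l + 1) * ((a i).choose j : ℤ)) =
            (j + 1) * ((z i u) * ((a i : ℤ) ^ l * ((a i).choose (j + 1) : ℤ))) +
            j * ((z i u) * ((a i : ℤ) ^ l * ((a i).choose j : ℤ))) := by
          intro i
          have h4 := mul_choose_eq (a i) j
          calc (z i u) * ((a i : ℤ) ^ (l + 1) * ((a i).choose j : ℤ)) =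
                (z i u) * (a i : ℤ) ^ l * ((a i : ℤ) * ((a i).choose j : ℤ)) := by ring
            _ = _ := by rw [h4]; ring
        rw [sum_congr rfl fun i _ => e i, sum_add_distrib, ← mul_sum, ← mul_sum, h2, h3]
        ring
    apply Matrix.eq_zero_of_forall_pow_sum_mul_pow_eq_zero (f := fun i => (a i : ℤ))
    · intro i j hij
      have hij' : (a i : ℤ) = a j := hij
      exact ha (by exact_mod_cast hij')
    · intro l
      have h2 := h0 l 0 (by have := l.isLt; omega)
      rw [← h2]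
      apply sum_congr rfl
      intro i _
      rw [Nat.choose_zero_right]
      push_cast
      ring
  funext i u
  exact congrFun (h1 u) i

/-- the step: the next moment has a bounded first part -/
theorem mom_bound {G : Finset (σ → ℤ)} {om yy : (σ → ℤ) →+ (κ → ℤ)} {c s0 q : ℝ} (hq : 0 < q)
    {m M : ℕ} {a : Fin m → ℕ} (haM : ∀ i, a i ≤ M) {z z' : Fin m → σ → ℤ}
    (hz : ∀ i, z i ∈ KK G om yy c (s0 + a i / q)) (hz' : ∀ i, z' i ∈ KK G om yy c (s0 + a i / q))
    {l : ℕ} (hl : mom a l z = mom a l z') (k : κ) :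
    |((om (mom a (l + 1) z - mom a (l + 1) z') k : ℤ) : ℝ)| ≤ q * (m * 2 ^ M * c) := by
  classical
  have h0 : mom a l (z - z') = 0 := by rw [mom_sub, hl, sub_self]
  rw [← mom_sub]
  set δ : Fin m → σ → ℤ := z - z' with hδ
  have e1 : ∀ (f : (σ → ℤ) →+ (κ → ℤ)) (n : ℕ),
      ((f (mom a n δ) k : ℤ) : ℝ) = ∑ i, ((a i).choose n : ℝ) * ((f (δ i) k : ℤ) : ℝ) := by
    intro f n
    unfold mom
    rw [map_sum, Finset.sum_apply]
    push_cast
    apply sum_congr rfl
    intro i _
    rw [map_nsmul, Pi.smul_apply, nsmul_eq_mul]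
    push_cast
    ring
  have hy := e1 yy l
  have ho := e1 om l
  rw [h0, map_zero, Pi.zero_apply, Int.cast_zero] at hy ho
  have ho1 := e1 om (l + 1)
  have hb : ∀ i, |((yy (δ i) k : ℤ) : ℝ) - 2 * (s0 + a i / q) * ((om (δ i) k : ℤ) : ℝ)| ≤
      2 * c := by
    intro i
    have h1 := hz i
    have h2 := hz' i
    unfold KK at h1 h2
    rw [mem_filter] at h1 h2
    have h3 := h1.2 k
    have h4 := h2.2 k
    rw [hδ, Pi.sub_apply, map_sub, map_sub, Pi.sub_apply, Pi.sub_apply]
    push_cast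
    rw [abs_le] at h3 h4 ⊢
    constructor <;> linarith [h3.1, h3.2, h4.1, h4.2]
  have hsum : ∑ i, ((a i).choose l : ℝ) * (((yy (δ i) k : ℤ) : ℝ) -
      2 * (s0 + a i / q) * ((om (δ i) k : ℤ) : ℝ)) =
      -(2 / q) * ((l + 1) * ((om (mom a (l + 1) δ) k : ℤ) : ℝ)) := by
    have e2 : ∀ i, ((a i).choose l : ℝ) * (((yy (δ i) k : ℤ) : ℝ) -
        2 * (s0 + a i / q) * ((om (δ i) k : ℤ) : ℝ)) =
        ((a i).choose l : ℝ) * ((yy (δ i) k : ℤ) : ℝ) -
        2 * s0 * (((a i).choose l : ℝ) * ((om (δ i) k : ℤ) : ℝ)) -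
        (2 / q) * ((l + 1) * (((a i).choose (l + 1) : ℝ) * ((om (δ i) k : ℤ) : ℝ)) +
          l * (((a i).choose l : ℝ) * ((om (δ i) k : ℤ) : ℝ))) := by
      intro i
      have h4 : (a i : ℝ) * ((a i).choose l : ℝ) =
          (l + 1) * ((a i).choose (l + 1) : ℝ) + l * ((a i).choose l : ℝ) := by
        exact_mod_cast mul_choose_eq (a i) l
      have h5 : ((a i).choose l : ℝ) * (2 * (s0 + a i / q) * ((om (δ i) k : ℤ) : ℝ)) =
          2 * s0 * (((a i).choose l : ℝ) * ((om (δ i) k : ℤ) : ℝ)) +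
          (2 / q) * (((a i : ℝ) * ((a i).choose l : ℝ)) * ((om (δ i) k : ℤ) : ℝ)) := by ring
      rw [mul_sub, h5, h4]
      ring
    rw [sum_congr rfl fun i _ => e2 i, sum_sub_distrib, sum_sub_distrib, ← mul_sum, ← mul_sum,
      sum_add_distrib, ← mul_sum, ← mul_sum, ← hy, ← ho, ← ho1]
    ring
  have habs : |-(2 / q) * ((l + 1) * ((om (mom a (l + 1) δ) k : ℤ) : ℝ))| ≤
      m * 2 ^ M * (2 * c) := by
    rw [← hsum]
    refine (abs_sum_le_sum_abs _ _).trans ?_
    calc _ ≤ ∑ _i : Fin m, (2 : ℝ) ^ M * (2 * c) := by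
          apply sum_le_sum
          intro i _
          rw [abs_mul, abs_of_nonneg (by positivity : (0:ℝ) ≤ ((a i).choose l : ℝ))]
          apply mul_le_mul _ (hb i) (abs_nonneg _) (by positivity)
          have h5 : (a i).choose l ≤ 2 ^ M :=
            (Nat.choose_le_two_pow _ _).trans (Nat.pow_le_pow_right (by norm_num) (haM i))
          exact_mod_cast h5
      _ = _ := by rw [sum_const, card_univ, Fintype.card_fin, nsmul_eq_mul]; ring
  rw [abs_mul, abs_neg, abs_of_pos (by positivity : 0 < 2 / q), abs_mul,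
    abs_of_pos (by positivity : (0:ℝ) < (l:ℝ) + 1)] at habs
  set V : ℝ := |((om (mom a (l + 1) δ) k : ℤ) : ℝ)| with hV
  have hV0 : 0 ≤ V := abs_nonneg _
  have h3 : 2 / q * V ≤ m * 2 ^ M * (2 * c) := by
    refine le_trans ?_ habs
    have h4 : V ≤ (l + 1) * V := by nlinarith [(Nat.cast_nonneg l : (0:ℝ) ≤ l)]
    exact mul_le_mul_of_nonneg_left h4 (by positivity)
  calc V = q / 2 * (2 / q * V) := by field_simp
    _ ≤ q / 2 * (m * 2 ^ M * (2 * c)) := by gcongr
    _ = _ := by ring

/-- The product of the numbers of differences at `m` commensurable heights. -/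
theorem prod_le {G : Finset (σ → ℤ)} {om yy : (σ → ℤ) →+ (κ → ℤ)}
    {c s0 q : ℝ} (hq : 0 < q) {m M : ℕ} (hm : 1 ≤ m) {a : Fin m → ℕ}
    (ha : Function.Injective a) (haM : ∀ i, a i ≤ M) {B Φ : ℕ}
    (hB : q * (m * 2 ^ M * c) ≤ B) {Δ : ℕ → Finset (σ → ℤ)}
    (hΔ : ∀ l < m, ∀ w : Fin m → σ → ℤ, (∀ i, w i ∈ DD G 2) → mom a l w ∈ Δ l)
    (hΦ : ∀ l < m, ((Δ l).filter fun f => ∀ k, |om f k| ≤ (B : ℤ)).card ≤ Φ) :
    ∏ i, (KK G om yy c (s0 + a i / q)).card ≤ Φ ^ (m - 1) * (DD G m).card := by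
  classical
  set X := Fintype.piFinset fun i => KK G om yy c (s0 + a i / q) with hX
  have hmem : ∀ z ∈ X, ∀ i, z i ∈ KK G om yy c (s0 + a i / q) := fun z hz i =>
    Fintype.mem_piFinset.1 hz i
  -- the next moment
  have hnext : ∀ z ∈ X, ∀ z' ∈ X, ∀ l, l + 1 < m → mom a l z = mom a l z' →
      mom a (l + 1) z - mom a (l + 1) z' ∈
        (Δ (l + 1)).filter fun f => ∀ k, |om f k| ≤ (B : ℤ) := by
    intro z hz z' hz' l hlm hl
    rw [mem_filter]
    constructor
    · rw [← mom_sub]
      apply hΔ _ hlm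
      intro i
      have h2 := hmem z hz i
      have h3 := hmem z' hz' i
      rw [mem_KK] at h2 h3
      have h4 : z i - z' i ∈ DD G (1 + 1) := DD_sub h2.1 h3.1
      rw [Pi.sub_apply]
      exact h4
    · intro k
      have h1 := (mom_bound hq haM (hmem z hz) (hmem z' hz') hl k).trans hB
      exact_mod_cast h1
  -- downward induction
  have key : ∀ n j : ℕ, 1 ≤ j → j + n = m → ∀ Z ⊆ X,
      (∀ z ∈ Z, ∀ z' ∈ Z, ∀ l < j, mom a l z = mom a l z') → Z.card ≤ Φ ^ n := by
    intro n
    induction n with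
    | zero =>
      intro j _ hj Z _ h
      rw [pow_zero, card_le_one]
      intro z hz z' hz'
      have h1 : z - z' = 0 := by
        apply mom_inj ha
        intro l hl
        rw [mom_sub, h z hz z' hz' l (by omega), sub_self]
      exact sub_eq_zero.1 h1
    | succ n ih =>
      intro j hj1 hj Z hZ h
      rcases Z.eq_empty_or_nonempty with rfl | ⟨z0, hz0⟩
      · simp
      have h1 : Z.card ≤ Φ ^ n * (Z.image (mom a j)).card := by
        apply card_le_mul_card_image
        intro v _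
        apply ih (j + 1) (by omega) (by omega) _ ((filter_subset _ _).trans hZ)
        intro z hz z' hz' l hl
        rw [mem_filter] at hz hz'
        rcases Nat.lt_succ_iff_lt_or_eq.1 hl with h2 | rfl
        · exact h z hz.1 z' hz'.1 l h2
        · rw [hz.2, hz'.2]
      have h2 : (Z.image (mom a j)).card ≤ Φ := by
        refine le_trans ?_ (hΦ j (by omega))
        apply card_le_card_of_injOn (fun v => v - mom a j z0)
        · intro v hv
          rw [mem_coe, mem_image] at hv
          obtain ⟨z, hz, rfl⟩ := hv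
          obtain ⟨l, rfl⟩ : ∃ l, j = l + 1 := ⟨j - 1, by omega⟩
          exact hnext z (hZ hz) z0 (hZ hz0) l (by omega) (h z hz z0 hz0 l (by omega))
        · intro v _ v' _ hv
          exact sub_left_injective hv
      calc Z.card ≤ Φ ^ n * (Z.image (mom a j)).card := h1
        _ ≤ Φ ^ n * Φ := Nat.mul_le_mul_left _ h2
        _ = _ := (pow_succ _ _).symm
  rw [← Fintype.card_piFinset, ← hX]
  have h1 : X.card ≤ Φ ^ (m - 1) * (X.image (mom a 0)).card := by
    apply card_le_mul_card_image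
    intro v _
    apply key (m - 1) 1 le_rfl (by omega) _ (filter_subset _ _)
    intro z hz z' hz' l hl
    rw [mem_filter] at hz hz'
    have : l = 0 := by omega
    subst this
    rw [hz.2, hz'.2]
  refine h1.trans (Nat.mul_le_mul_left _ (card_le_card ?_))
  intro v hv
  rw [mem_image] at hv
  obtain ⟨z, hz, rfl⟩ := hv
  unfold mom
  have h2 : ∑ i, (a i).choose 0 • z i ∈ DD G (∑ _i : Fin m, 1 * 1) := by
    apply DD_sum
    intro i _
    rw [Nat.choose_zero_right]
    apply DD_nsmul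
    have h3 := hmem z hz i
    rw [mem_KK] at h3
    exact h3.1
  simpa using h2

end Pool.Agent.MPac5134.AE
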