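import Pool.Agent.Lib.MP_ac5134_an.AE.Thm

/-!
The volume inequality for all families in terms of the additive energy, and its consequence for the
families which violate the volume form by a power of `N`.
-/

namespace Pool.Agent.MPac5134.AE

open Finset MeasureTheory
open scoped Pointwise ENNReal

variable {d : ℕ}

/-- the energy is at most the cube of the cardinality -/
theorem addEnergy_le_cube {V : Type*} [AddCommGroup V] [DecidableEq V] (G : Finset V) :
    (G.addEnergy G : ℝ) ≤ (G.card : ℝ) ^ 3 := by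
  have h1 : G.addEnergy G ≤ G.card ^ 3 := by
    unfold Finset.addEnergy
    have h2 : (((G ×ˢ G) ×ˢ G ×ˢ G).filter fun x : (V × V) × V × V =>
        x.1.1 + x.2.1 = x.1.2 + x.2.2).card ≤ ((G ×ˢ G) ×ˢ G).card := by
      apply card_le_card_of_injOn (fun x => (x.1, x.2.1))
      · intro x hx
        rw [mem_coe, mem_filter, mem_product] at hx
        rw [mem_coe, mem_product]
        exact ⟨hx.1.1, (mem_product.1 hx.1.2).1⟩
      · intro x hx y hy hxy
        rw [mem_coe, mem_filter] at hx hy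
        rw [Prod.mk.injEq] at hxy
        have h3 := hx.2
        have h4 := hy.2
        have h5 : x.2.2 = y.2.2 := by
          rw [hxy.1, hxy.2, h4] at h3
          exact (add_left_cancel h3).symm
        exact Prod.ext hxy.1 (Prod.ext hxy.2 h5)
    refine h2.trans (le_of_eq ?_)
    rw [card_product, card_product]
    ring
  exact_mod_cast h1

/-- the energy is positive -/
theorem addEnergy_pos' {V : Type*} [AddCommGroup V] [DecidableEq V] {G : Finset V}
    (hG : G.Nonempty) : 0 < (G.addEnergy G : ℝ) := by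
  exact_mod_cast Finset.addEnergy_pos hG hG

/-- The volume inequality for all families. -/
theorem volume_energy (hd : 0 < d) :
    ∃ A : ℝ, 1 ≤ A ∧ ∀ (K : ℕ) (ε : ℝ), 0 < ε → ε ≤ 1 → ∃ C : ℝ, 1 ≤ C ∧
      ∀ N : ℝ, 1 ≤ N → ∀ (ι : Type) [Fintype ι] (θ : ι → Cap d) (c : ι → Sp d),
      (∀ z : Fin d → ℤ, ∀ s : Finset ι, (∀ i ∈ s, cell N (θ i) = z) → s.card ≤ K) →
      ∀ lam : ℝ, 0 < lam → lam ≤ 1 →
      ∀ Y : ι → Set (Sp d), (∀ i, MeasurableSet (Y i) ∧ Y i ⊆ tube N (θ i) (c i) ∧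
            ENNReal.ofReal lam * volume (tube N (θ i) (c i)) ≤ volume (Y i)) →
          ∑ i, volume (tube N (θ i) (c i)) ≤
            ENNReal.ofReal (C * N ^ ε *
              (2 * ((labels N θ c).card : ℝ) ^ 3 / (labels N θ c).addEnergy (labels N θ c)) ^
                (A / ε * Real.log (2 / (ε * lam)))) * volume (⋃ i, Y i) := by
  classical
  obtain ⟨A, hA, h⟩ := additive_energy (d := d) hd
  refine ⟨A + 1, by linarith, ?_⟩
  intro K ε hε hε1
  obtain ⟨C, hC, h⟩ := h K ε hε hε1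
  refine ⟨C + 1, by linarith, ?_⟩
  intro N hN ι _ θ c hK lam hlam hlam1 Y hY
  have hN0 : 0 < N := by linarith
  have hNε : 0 < N ^ ε := by positivity
  rcases isEmpty_or_nonempty ι with hι | ⟨⟨i0⟩⟩
  · rw [Finset.univ_eq_empty, Finset.sum_empty]
    exact zero_le
  obtain ⟨G, hG⟩ : ∃ G, G = labels N θ c := ⟨_, rfl⟩
  have hGne : G.Nonempty := by rw [hG]; exact labels_nonempty i0
  have hE0 := addEnergy_pos' hGne
  have hE1 := addEnergy_le_cube G
  obtain ⟨L, hL⟩ : ∃ L : ℝ, L = (G.card : ℝ) ^ 3 / G.addEnergy G := ⟨_, rfl⟩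
  have hL1 : 1 ≤ L := by rw [hL, le_div_iff₀ hE0]; linarith
  have hMQ : ManyQuadruples L (labels N θ c) := by
    unfold ManyQuadruples
    rw [← hG, hL]
    apply le_of_eq
    field_simp
  obtain ⟨S, J, h1, -⟩ := h lam hlam hlam1 N hN ι θ c hK L hL1 hMQ
  rw [← hG]
  have e1 : 2 * (G.card : ℝ) ^ 3 / G.addEnergy G = 2 * L := by rw [hL]; ring
  rw [e1]
  have hel : 0 < ε * lam := by positivity
  have hel1 : ε * lam ≤ 1 := mul_le_one₀ hε1 hlam.le hlam1
  have hlog : 0 ≤ Real.log (2 / (ε * lam)) := by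
    apply Real.log_nonneg
    rw [le_div_iff₀ hel]
    linarith
  have hpow : (2 * L) ^ (A / ε * Real.log (2 / (ε * lam))) ≤
      (2 * L) ^ ((A + 1) / ε * Real.log (2 / (ε * lam))) := by
    apply Real.rpow_le_rpow_of_exponent_le (by linarith)
    gcongr
    linarith
  have hpos : 0 < (2 * L) ^ (A / ε * Real.log (2 / (ε * lam))) :=
    Real.rpow_pos_of_pos (by linarith) _
  refine (h1 Y hY).trans (mul_le_mul' (ENNReal.ofReal_le_ofReal ?_) (measure_mono ?_))
  · gcongr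
    linarith
  · intro x hx
    rw [Set.mem_iUnion₂] at hx
    obtain ⟨i, -, hi⟩ := hx
    exact Set.mem_iUnion.2 ⟨i, hi⟩

/-- the volume of a nonempty finite family is positive and finite -/
theorem volume_union_pos {ι : Type} [Fintype ι] {N : ℝ} (hN : 1 ≤ N) (θ : ι → Cap d) (c : ι → Sp d)
    (i0 : ι) : volume (⋃ i, tube N (θ i) (c i)) ≠ 0 ∧ volume (⋃ i, tube N (θ i) (c i)) ≠ ⊤ := by
  have hN0 : 0 < N := by linarith
  constructor
  · intro h0
    have h1 : volume (tube N (θ i0) (c i0)) ≤ volume (⋃ i, tube N (θ i) (c i)) :=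
      measure_mono (Set.subset_iUnion (fun i => tube N (θ i) (c i)) i0)
    rw [h0, volume_tube hN0.le] at h1
    have h2 : 0 < ENNReal.ofReal (N ^ (d + 2)) := ENNReal.ofReal_pos.2 (by positivity)
    exact absurd h1 (not_le.2 h2)
  · have h1 : volume (⋃ i, tube N (θ i) (c i)) ≤ ∑ i, volume (tube N (θ i) (c i)) :=
      measure_iUnion_fintype_le _ _
    refine ne_top_of_le_ne_top ?_ h1
    rw [ENNReal.sum_ne_top]
    intro i _
    rw [volume_tube hN0.le]
    exact ENNReal.ofReal_ne_top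

/-- A family which violates the volume form by a power of `N` has small additive energy. -/
theorem energy_small (hd : 0 < d) :
    ∃ A : ℝ, 1 ≤ A ∧ ∀ (K : ℕ) (ε : ℝ), 0 < ε → ε ≤ 1 → ∃ C : ℝ, 1 ≤ C ∧
      ∀ N : ℝ, 1 ≤ N → ∀ (ι : Type) [Fintype ι] (θ : ι → Cap d) (c : ι → Sp d),
      (∀ z : Fin d → ℤ, ∀ s : Finset ι, (∀ i ∈ s, cell N (θ i) = z) → s.card ≤ K) →
      volume (⋃ i, tube N (θ i) (c i)) ≤
        ENNReal.ofReal (N ^ (-ε)) * ∑ i, volume (tube N (θ i) (c i)) →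
      ((labels N θ c).addEnergy (labels N θ c) : ℝ) ≤
        C * N ^ (-(ε ^ 2 / (A * Real.log (2 / ε)))) * ((labels N θ c).card : ℝ) ^ 3 := by
  classical
  obtain ⟨A, hA, h⟩ := volume_energy (d := d) hd
  refine ⟨8 * A, by linarith, ?_⟩
  intro K ε hε hε1
  obtain ⟨C, hC, h⟩ := h K (ε / 2) (by positivity) (by linarith)
  refine ⟨2 * C, by linarith, ?_⟩
  intro N hN ι _ θ c hK hvol
  have hN0 : 0 < N := by linarith
  rcases isEmpty_or_nonempty ι with hι | ⟨⟨i0⟩⟩
  · have h0 : labels N θ c = ∅ := by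
      unfold labels
      rw [Finset.image_eq_empty]
      exact Finset.univ_eq_empty
    rw [h0]
    simp
  obtain ⟨G, hG⟩ : ∃ G, G = labels N θ c := ⟨_, rfl⟩
  have hGne : G.Nonempty := by rw [hG]; exact labels_nonempty i0
  rw [← hG]
  obtain ⟨E, hE⟩ : ∃ E : ℝ, E = (G.addEnergy G : ℝ) := ⟨_, rfl⟩
  obtain ⟨g, hg⟩ : ∃ g : ℝ, g = (G.card : ℝ) ^ 3 := ⟨_, rfl⟩
  have hE0 : 0 < E := by rw [hE]; exact addEnergy_pos' hGne
  have hEg : E ≤ g := by rw [hE, hg]; exact addEnergy_le_cube G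
  have hg0 : 0 < g := by linarith
  rw [← hE, ← hg]
  -- the inequality between real numbers
  obtain ⟨Λ, hΛ⟩ : ∃ Λ : ℝ, Λ = Real.log (2 / ε) := ⟨_, rfl⟩
  have hΛ2 : Real.log 2 ≤ Λ := by
    rw [hΛ]
    apply Real.log_le_log (by norm_num)
    rw [le_div_iff₀ hε]
    linarith
  have hlog2 := Real.log_two_gt_d9
  have hΛ0 : 0 < Λ := by linarith
  obtain ⟨x, hx⟩ : ∃ x : ℝ, x = A / (ε / 2) * Real.log (2 / (ε / 2 * 1)) := ⟨_, rfl⟩
  have hx1 : x ≤ 4 * A * Λ / ε := by
    have e1 : 2 / (ε / 2 * 1) = 2 * (2 / ε) := by field_simp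
    rw [hx, e1, Real.log_mul (by norm_num) (by positivity), ← hΛ]
    calc A / (ε / 2) * (Real.log 2 + Λ) ≤ A / (ε / 2) * (Λ + Λ) := by gcongr
      _ = 4 * A * Λ / ε := by field_simp; ring
  have hx0 : 0 < x := by
    have e1 : 2 / (ε / 2 * 1) = 2 * (2 / ε) := by field_simp
    rw [hx, e1, Real.log_mul (by norm_num) (by positivity), ← hΛ]
    have : 0 < Real.log 2 := by linarith
    positivity
  have hreal : N ^ ε ≤ C * N ^ (ε / 2) * (2 * g / E) ^ x := by
    obtain ⟨hv0, hvt⟩ := volume_union_pos hN θ c i0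
    have h1 := h N hN ι θ c hK 1 one_pos le_rfl (fun i => tube N (θ i) (c i)) (fun i => by
      refine ⟨measurableSet_tube _ _ _, subset_rfl, ?_⟩
      rw [ENNReal.ofReal_one, one_mul])
    rw [← hG, ← hE, ← hg, ← hx] at h1
    have h2 : volume (⋃ i, tube N (θ i) (c i)) ≤
        ENNReal.ofReal (N ^ (-ε) * (C * N ^ (ε / 2) * (2 * g / E) ^ x)) *
          volume (⋃ i, tube N (θ i) (c i)) := by
      refine hvol.trans ?_
      rw [ENNReal.ofReal_mul (by positivity), mul_assoc]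
      gcongr
    have h3 : 1 ≤ N ^ (-ε) * (C * N ^ (ε / 2) * (2 * g / E) ^ x) := by
      by_contra hcon
      push Not at hcon
      have h4 : ENNReal.ofReal (N ^ (-ε) * (C * N ^ (ε / 2) * (2 * g / E) ^ x)) < 1 := by
        rw [← ENNReal.ofReal_one]
        exact (ENNReal.ofReal_lt_ofReal_iff one_pos).2 hcon
      have h5 : ENNReal.ofReal (N ^ (-ε) * (C * N ^ (ε / 2) * (2 * g / E) ^ x)) *
          volume (⋃ i, tube N (θ i) (c i)) < 1 * volume (⋃ i, tube N (θ i) (c i)) :=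
        (ENNReal.mul_lt_mul_iff_left hv0 hvt).2 h4
      rw [one_mul] at h5
      exact absurd h2 (not_le.2 h5)
    calc N ^ ε = N ^ ε * 1 := (mul_one _).symm
      _ ≤ N ^ ε * (N ^ (-ε) * (C * N ^ (ε / 2) * (2 * g / E) ^ x)) := by gcongr
      _ = C * N ^ (ε / 2) * (2 * g / E) ^ x := by
          rw [← mul_assoc, ← Real.rpow_add hN0, add_neg_cancel, Real.rpow_zero, one_mul]
  have hreal2 : N ^ (ε / 2) / C ≤ (2 * g / E) ^ x := by
    have h1 : N ^ ε = N ^ (ε / 2) * N ^ (ε / 2) := by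
      rw [← Real.rpow_add hN0]; congr 1; ring
    rw [h1] at hreal
    have h2 : 0 < N ^ (ε / 2) := by positivity
    rw [div_le_iff₀ (by linarith)]
    have h3 : N ^ (ε / 2) * N ^ (ε / 2) ≤ (2 * g / E) ^ x * C * N ^ (ε / 2) := by linarith
    exact le_of_mul_le_mul_right h3 h2
  -- the conclusion
  obtain ⟨y, hy⟩ : ∃ y : ℝ, y = ε / (4 * A * Λ) := ⟨_, rfl⟩
  have hA4 : 0 < 4 * A * Λ := by positivity
  have hy0 : 0 < y := by rw [hy]; positivity
  have hy1 : y ≤ 1 := by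
    rw [hy, div_le_one hA4]
    nlinarith
  have hxy : y * x ≤ 1 := by
    calc y * x ≤ y * (4 * A * Λ / ε) := by gcongr
      _ = 1 := by rw [hy]; field_simp
  have e3 : ε ^ 2 / (8 * A * Λ) = ε / 2 * y := by
    rw [hy]
    field_simp
    ring
  rw [← hΛ, e3]
  have hNy : N ^ (-(ε / 2 * y)) = 1 / (N ^ (ε / 2)) ^ y := by
    rw [← Real.rpow_mul hN0.le, Real.rpow_neg hN0.le, one_div]
  rw [hNy]
  have hden : 0 < (N ^ (ε / 2)) ^ y := by positivity
  have hkey : (N ^ (ε / 2)) ^ y ≤ C * (2 * g / E) := by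
    have h2 : 1 ≤ 2 * g / E := by rw [le_div_iff₀ hE0]; linarith
    have h3 : (N ^ (ε / 2)) ^ y = C ^ y * (N ^ (ε / 2) / C) ^ y := by
      rw [← Real.mul_rpow (by linarith) (by positivity)]
      congr 1
      field_simp
    rw [h3]
    have h4 : C ^ y ≤ C := by
      calc C ^ y ≤ C ^ (1:ℝ) := Real.rpow_le_rpow_of_exponent_le hC hy1
        _ = C := Real.rpow_one C
    have h5 : (N ^ (ε / 2) / C) ^ y ≤ 2 * g / E := by
      calc (N ^ (ε / 2) / C) ^ y ≤ ((2 * g / E) ^ x) ^ y := by gcongr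
        _ = (2 * g / E) ^ (y * x) := by
            rw [← Real.rpow_mul (by linarith)]
            congr 1
            ring
        _ ≤ (2 * g / E) ^ (1:ℝ) := Real.rpow_le_rpow_of_exponent_le h2 hxy
        _ = _ := Real.rpow_one _
    exact mul_le_mul h4 h5 (by positivity) (by linarith)
  have h6 : E * (N ^ (ε / 2)) ^ y ≤ 2 * C * g := by
    calc E * (N ^ (ε / 2)) ^ y ≤ E * (C * (2 * g / E)) := by gcongr
      _ = 2 * C * g := by field_simp
  calc E = E * (N ^ (ε / 2)) ^ y * (1 / (N ^ (ε / 2)) ^ y) := by field_simp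
    _ ≤ 2 * C * g * (1 / (N ^ (ε / 2)) ^ y) := by gcongr
    _ = _ := by ring

end Pool.Agent.MPac5134.AE
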