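import Pool.Agent.Lib.MP_ac5134_an.AE.Sharp

/-!
The measure of the bad heights, with all constants explicit.
-/

namespace Pool.Agent.MPac5134.AE

open Finset MeasureTheory
open scoped Pointwise ENNReal

variable {σ κ : Type*} [Fintype σ] [DecidableEq σ] [Fintype κ] [DecidableEq κ]

theorem volume_bad_q {K : ℕ} {S : ℕ} (hS : 1 ≤ S) {c : ℝ} (hc : 1 ≤ c) {A0 ε : ℝ}
    (hA : 1 ≤ A0) {e : ℕ} {m : ℕ} (hm : 1 ≤ m)
    (hmε : (e : ℝ) ≤ ε * m) {q : ℕ} (hq : 1 ≤ q) {t : ℕ} (ht : 2 * S * q < 2 ^ t)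
    {om yy : (σ → ℤ) →+ (κ → ℤ)} (hκ : Fintype.card κ = e)
    {N : ℝ} (hN : 1 ≤ N) {G : Finset (σ → ℤ)} (hG : G.Nonempty)
    (hK : ∀ z, (G.filter fun g => om g = z).card ≤ K) (hGc : (G.card : ℝ) ≤ A0 * N ^ e)
    {L : ℝ} (hL : ((G + G).card : ℝ) ≤ L * G.card) :
    volume {s : ℝ | s ∈ Set.Icc (-(S : ℝ)) S ∧
      K * A0 * (13 * c * m) ^ e * N ^ ε * (2 * L) ^ ((28 + 5 * e) * (m * t)) <
        (KK G om yy c s).card} ≤ ENNReal.ofReal (m / q) := by
  classical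
  have hq0 : (0:ℝ) < q := by exact_mod_cast hq
  have hq1 : (1:ℝ) ≤ q := by exact_mod_cast hq
  have hm1 : (1:ℝ) ≤ m := by exact_mod_cast hm
  have hN0 : 0 < N := by linarith
  have hL1 : 1 ≤ L := one_le_doubling hG hL
  have hL0 : 0 < L := by linarith
  have ht1 : 1 ≤ t := by
    rcases Nat.eq_zero_or_pos t with h | h
    · rw [h, pow_zero] at ht
      have h1 : 1 ≤ 2 * S * q := Nat.mul_pos (by omega) (by omega)
      omega
    · exact h
  obtain ⟨B, hB⟩ : ∃ B : ℕ, B = ⌈2 * c * (q : ℝ) * m⌉₊ := ⟨_, rfl⟩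
  have hBle : 2 * c * (q : ℝ) * m ≤ B := by rw [hB]; exact Nat.le_ceil _
  have hcqm : 1 ≤ c * (q * m) :=
    one_le_mul_of_one_le_of_one_le hc (one_le_mul_of_one_le_of_one_le hq1 hm1)
  have hBub : 4 * (B:ℝ) + 1 ≤ 13 * c * m * q := by
    have h1 := (Nat.ceil_lt_add_one (by positivity : 0 ≤ 2 * c * (q : ℝ) * m)).le
    rw [← hB] at h1
    nlinarith
  have hqt : (q:ℝ) ≤ 2 ^ t := by
    have h1 : q ≤ 2 * S * q := Nat.le_mul_of_pos_left q (by omega)
    have h2 : q ≤ 2 ^ t := by omega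
    exact_mod_cast h2
  have hK1 : (1:ℝ) ≤ K := by
    obtain ⟨g, hg⟩ := hG
    have h1 := hK (om g)
    have h2 : 1 ≤ (G.filter fun g' => om g' = om g).card :=
      card_pos.2 ⟨g, mem_filter.2 ⟨hg, rfl⟩⟩
    exact_mod_cast h2.trans h1
  -- the value of the bound
  obtain ⟨X0, hX0⟩ : ∃ X0 : ℝ, X0 = (((9 ^ e * L ^ 17) ^ t) ^ m *
      ((4 * (B:ℝ) + 1) ^ e * (K * L ^ (8 * m + 1)))) * (L ^ 2 * (A0 * N ^ ε)) := ⟨_, rfl⟩
  have hX00 : 0 ≤ X0 := by rw [hX0]; positivity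
  have hle : X0 ≤ K * A0 * (13 * c * m) ^ e * N ^ ε * (2 * L) ^ ((28 + 5 * e) * (m * t)) := by
    have h2L : 1 ≤ 2 * L := by linarith
    have h1 : (((9:ℝ) ^ e * L ^ 17) ^ t) ^ m ≤ (2 * L) ^ ((17 + 4 * e) * (m * t)) := by
      rw [← pow_mul, mul_comm m t, pow_mul (2 * L)]
      apply pow_le_pow_left₀ (by positivity)
      calc (9:ℝ) ^ e * L ^ 17 ≤ (2 ^ 4) ^ e * L ^ 17 := by
            gcongr
            norm_num
        _ = 2 ^ (4 * e) * L ^ 17 := by rw [← pow_mul]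
        _ ≤ (2 * L) ^ (4 * e) * (2 * L) ^ 17 := by
            gcongr
            · linarith
            · linarith
        _ = (2 * L) ^ (17 + 4 * e) := by rw [← pow_add]; congr 1; ring
    have h2 : (4 * (B:ℝ) + 1) ^ e ≤ (13 * c * m) ^ e * (2 * L) ^ (t * e) := by
      calc (4 * (B:ℝ) + 1) ^ e ≤ (13 * c * m * 2 ^ t) ^ e := by
            gcongr
            exact hBub.trans (by gcongr)
        _ = (13 * c * m) ^ e * 2 ^ (t * e) := by rw [mul_pow, ← pow_mul]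
        _ ≤ _ := by
            gcongr
            linarith
    have h3 : L ^ (8 * m + 1) * L ^ 2 ≤ (2 * L) ^ (8 * m + 3) := by
      rw [← pow_add]
      have e1 : 8 * m + 1 + 2 = 8 * m + 3 := by ring
      rw [e1]
      gcongr
      linarith
    have hexp : (17 + 4 * e) * (m * t) + t * e + (8 * m + 3) ≤ (28 + 5 * e) * (m * t) := by
      have h4 : t * e ≤ e * (m * t) := by
        calc t * e = e * (1 * t) := by ring
          _ ≤ e * (m * t) := by gcongr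
      have h5 : 8 * m + 3 ≤ 11 * (m * t) := by
        calc 8 * m + 3 ≤ 8 * m + 3 * m := by omega
          _ = 11 * (m * 1) := by ring
          _ ≤ 11 * (m * t) := by gcongr
      nlinarith
    calc X0 = ((((9:ℝ) ^ e * L ^ 17) ^ t) ^ m * (4 * (B:ℝ) + 1) ^ e * (L ^ (8 * m + 1) * L ^ 2)) *
          (K * A0 * N ^ ε) := by rw [hX0]; ring
      _ ≤ ((2 * L) ^ ((17 + 4 * e) * (m * t)) * ((13 * c * m) ^ e * (2 * L) ^ (t * e)) *
          (2 * L) ^ (8 * m + 3)) * (K * A0 * N ^ ε) := by gcongr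
      _ = K * A0 * (13 * c * m) ^ e * N ^ ε *
          (2 * L) ^ ((17 + 4 * e) * (m * t) + t * e + (8 * m + 3)) := by
          rw [pow_add, pow_add]
          ring
      _ ≤ _ := by
          gcongr
  refine le_trans (measure_mono ?_) (volume_bad_le (G := G) (om := om) (yy := yy) (c := c) hq hS hm
    (le_refl (2 * S * q)) (X := X0) hX00 ?_)
  · intro s hs
    exact ⟨hs.1, lt_of_le_of_lt hle hs.2⟩
  · intro s0 a ha haM
    have h1 := prod_le_sharp (om := om) (yy := yy) (c := c) (s0 := s0) hG hL hK (by linarith) hq0 ht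
      (B := B) hBle ha haM
    rw [hκ] at h1
    refine h1.trans ?_
    obtain ⟨Z, hZ⟩ : ∃ Z : ℝ, Z = (((9 ^ e * L ^ 17) ^ t) ^ m *
      ((4 * (B:ℝ) + 1) ^ e * (K * L ^ (8 * m + 1)))) := ⟨_, rfl⟩
    have hZ0 : 0 ≤ Z := by rw [hZ]; positivity
    rw [hX0, ← hZ]
    calc Z ^ m * (L ^ (2 * m) * G.card) ≤ Z ^ m * (L ^ (2 * m) * (A0 ^ m * (N ^ ε) ^ m)) := by
          have h4 : N ^ e ≤ (N ^ ε) ^ m := by
            rw [← Real.rpow_natCast (N ^ ε) m, ← Real.rpow_mul hN0.le, ← Real.rpow_natCast N e]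
            exact Real.rpow_le_rpow_of_exponent_le hN hmε
          have h5 : A0 ≤ A0 ^ m := by
            calc A0 = A0 ^ 1 := (pow_one _).symm
              _ ≤ A0 ^ m := pow_le_pow_right₀ hA hm
          have h6 : (G.card : ℝ) ≤ A0 ^ m * (N ^ ε) ^ m :=
            hGc.trans (mul_le_mul h5 h4 (by positivity) (by positivity))
          gcongr
      _ = (Z * (L ^ 2 * (A0 * N ^ ε))) ^ m := by
          rw [mul_pow, mul_pow, mul_pow, ← pow_mul]

end Pool.Agent.MPac5134.AE
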