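import Pool.Agent.Lib.MP_ac5134_an.AE.Heights

/-!
The volume inequality for shaded tubes, the `L^p` inequality at good heights and the theorem for
families with large additive energy.
-/

namespace Pool.Agent.MPac5134.AE

open Finset MeasureTheory
open scoped Pointwise ENNReal

variable {d : ℕ}

/-- the points at good relative heights -/
def atHeights (d : ℕ) (N : ℝ) (J : Set ℝ) : Set (Sp d) :=
  {x | Int.fract (x (Fin.last d) / N ^ 2) ∈ J}

theorem measurableSet_atHeights (N : ℝ) {J : Set ℝ} (hJ : MeasurableSet J) :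
    MeasurableSet (atHeights d N J) := by
  have h1 : Measurable fun x : Sp d => Int.fract (x (Fin.last d) / N ^ 2) := by
    apply measurable_fract.comp
    fun_prop
  exact h1 hJ

/-- the part of a tube at bad heights -/
theorem bad_part_le {N : ℝ} (hN : 1 ≤ N) (θ : Cap d) (c : Sp d) {J : Set ℝ}
    (hJm : MeasurableSet J) {η : ℝ} (hη : 0 ≤ η)
    (hJ : volume (Set.Ico (0:ℝ) 1 \ J) ≤ ENNReal.ofReal η) :
    volume (tube N θ c ∩ (atHeights d N J)ᶜ) ≤
      ENNReal.ofReal ((2 * d + 7) * η * (3 * d) ^ d * N ^ (d + 2)) := by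
  classical
  have hN0 : 0 < N := by linarith
  set I : Finset ℤ := Finset.Icc (-((d:ℤ) + 3)) (d + 3) with hI
  have hIc : I.card = 2 * d + 7 := by
    rw [hI, Int.card_Icc]
    omega
  set E : Set ℝ := ⋃ j ∈ I, (fun v : ℝ => v + (-(j:ℝ))) ⁻¹' (Set.Ico (0:ℝ) 1 \ J) with hE
  have hEm : MeasurableSet E := by
    refine I.measurableSet_biUnion fun j _ => ?_
    exact (measurable_id.add_const _) (measurableSet_Ico.diff hJm)
  have hEv : volume E ≤ ENNReal.ofReal ((2 * d + 7) * η) := by
    refine (measure_biUnion_finset_le _ _).trans ?_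
    calc ∑ j ∈ I, volume ((fun v : ℝ => v + (-(j:ℝ))) ⁻¹' (Set.Ico (0:ℝ) 1 \ J)) ≤
          ∑ _j ∈ I, ENNReal.ofReal η := by
          apply sum_le_sum
          intro j _
          rw [measure_preimage_add_right]
          exact hJ
      _ = _ := by
          rw [sum_const, hIc, nsmul_eq_mul, ENNReal.ofReal_mul (by positivity)]
          congr 1
          rw [← ENNReal.ofReal_natCast]
          push_cast
          rfl
  have hsub : tube N θ c ∩ (atHeights d N J)ᶜ ⊆
      tube N θ c ∩ {x : Sp d | x (Fin.last d) / N ^ 2 - (height N c : ℝ) ∈ E} := by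
    rintro x ⟨hx1, hx2⟩
    refine ⟨hx1, ?_⟩
    have h1 := tube_height' hN θ c hx1
    set u : ℝ := x (Fin.last d) / N ^ 2 with hu
    have hx2' : Int.fract u ∉ J := hx2
    have h2 := Int.floor_le u
    have h3 := Int.lt_floor_add_one u
    rw [abs_le] at h1
    show u - (height N c : ℝ) ∈ E
    rw [hE, Set.mem_iUnion₂]
    refine ⟨⌊u⌋ - height N c, ?_, ?_⟩
    · rw [hI, Finset.mem_Icc]
      constructor
      · have h4 : ((-((d:ℤ) + 3) : ℤ) : ℝ) ≤ ((⌊u⌋ - height N c : ℤ) : ℝ) := by
          push_cast; linarith [h1.1]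
        exact_mod_cast h4
      · have h4 : ((⌊u⌋ - height N c : ℤ) : ℝ) ≤ (((d:ℤ) + 3 : ℤ) : ℝ) := by
          push_cast; linarith [h1.2]
        exact_mod_cast h4
    · rw [Set.mem_preimage]
      have e : u - (height N c : ℝ) + -((⌊u⌋ - height N c : ℤ) : ℝ) = Int.fract u := by
        have := Int.floor_add_fract u
        push_cast
        linarith
      rw [e]
      exact ⟨⟨Int.fract_nonneg u, Int.fract_lt_one u⟩, hx2'⟩
  refine (measure_mono hsub).trans ((volume_tube_inter_le hN θ c hEm _).trans ?_)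
  calc ENNReal.ofReal (N ^ 2) * volume E * ENNReal.ofReal (3 * d * N) ^ d ≤
        ENNReal.ofReal (N ^ 2) * ENNReal.ofReal ((2 * d + 7) * η) *
          ENNReal.ofReal (3 * d * N) ^ d := by gcongr
    _ = _ := by
        rw [← ENNReal.ofReal_pow (by positivity), ← ENNReal.ofReal_mul (by positivity),
          ← ENNReal.ofReal_mul (by positivity)]
        congr 1
        rw [mul_pow, pow_add]
        ring

/-- the volume inequality for shaded tubes -/
theorem shade_le {ι : Type*} [Fintype ι] {N Cm lam : ℝ} (hN : 1 ≤ N) (hlam : 0 < lam)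
    {θ : ι → Cap d} {c : ι → Sp d} {J : Set ℝ} (hJm : MeasurableSet J) {η : ℝ} (hη : 0 ≤ η)
    (hJ : volume (Set.Ico (0:ℝ) 1 \ J) ≤ ENNReal.ofReal η)
    (hη2 : (2 * d + 7) * η * (3 * d) ^ d ≤ lam / 2)
    (hm : ∀ x : Sp d, Int.fract (x (Fin.last d) / N ^ 2) ∈ J → mult N θ c x ≤ Cm)
    (Y : ι → Set (Sp d)) (hY : ∀ i, MeasurableSet (Y i) ∧ Y i ⊆ tube N (θ i) (c i) ∧
      ENNReal.ofReal lam * volume (tube N (θ i) (c i)) ≤ volume (Y i)) :
    ∑ i, volume (tube N (θ i) (c i)) ≤ ENNReal.ofReal (2 / lam * Cm) * volume (⋃ i, Y i) := by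
  classical
  have hN0 : 0 < N := by linarith
  have hNd : 0 < N ^ (d + 2) := by positivity
  set A := atHeights d N J with hA
  have hAm : MeasurableSet A := measurableSet_atHeights N hJm
  have h1 : ∀ i, ENNReal.ofReal (lam / 2) * volume (tube N (θ i) (c i)) ≤ volume (Y i ∩ A) := by
    intro i
    obtain ⟨hY1, hY2, hY3⟩ := hY i
    have h2 : volume (Y i) ≤ volume (Y i ∩ A) + volume (tube N (θ i) (c i) ∩ Aᶜ) := by
      calc volume (Y i) = volume (Y i ∩ A) + volume (Y i \ A) :=
            (measure_inter_add_diff _ hAm).symm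
        _ ≤ _ := by
            gcongr
            rintro x ⟨hx1, hx2⟩
            exact ⟨hY2 hx1, hx2⟩
    have h3 := bad_part_le hN (θ i) (c i) hJm hη hJ
    rw [volume_tube hN0.le] at hY3 ⊢
    have h4 : ENNReal.ofReal ((2 * d + 7) * η * (3 * d) ^ d * N ^ (d + 2)) ≤
        ENNReal.ofReal (lam / 2 * N ^ (d + 2)) := by
      apply ENNReal.ofReal_le_ofReal
      exact mul_le_mul_of_nonneg_right hη2 hNd.le
    have h5 : ENNReal.ofReal (lam / 2 * N ^ (d + 2)) + ENNReal.ofReal (lam / 2 * N ^ (d + 2)) ≤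
        volume (Y i ∩ A) + ENNReal.ofReal (lam / 2 * N ^ (d + 2)) := by
      calc _ = ENNReal.ofReal lam * ENNReal.ofReal (N ^ (d + 2)) := by
            rw [← ENNReal.ofReal_add (by positivity) (by positivity),
              ← ENNReal.ofReal_mul hlam.le]
            congr 1
            ring
        _ ≤ volume (Y i) := hY3
        _ ≤ volume (Y i ∩ A) + volume (tube N (θ i) (c i) ∩ Aᶜ) := h2
        _ ≤ _ := by
            gcongr
            exact h3.trans h4
    rw [← ENNReal.ofReal_mul (by positivity)]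
    exact (ENNReal.add_le_add_iff_right ENNReal.ofReal_ne_top).1 h5
  have h2 : ∑ i, volume (Y i ∩ A) ≤ ENNReal.ofReal Cm * volume (⋃ i, Y i) := by
    have h3 : ∑ i, volume (Y i ∩ A) =
        ∫⁻ x, ∑ i, (Y i ∩ A).indicator (fun _ => (1 : ℝ≥0∞)) x := by
      rw [lintegral_finsetSum _ fun i _ =>
        measurable_const.indicator ((hY i).1.inter hAm)]
      apply sum_congr rfl
      intro i _
      rw [lintegral_indicator_const ((hY i).1.inter hAm), one_mul]
    rw [h3]
    have hUm : MeasurableSet (⋃ i, Y i) := MeasurableSet.iUnion fun i => (hY i).1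
    have h4 : ∀ x, ∑ i, (Y i ∩ A).indicator (fun _ => (1 : ℝ≥0∞)) x ≤
        (⋃ i, Y i).indicator (fun _ => ENNReal.ofReal Cm) x := by
      intro x
      by_cases hx : x ∈ ⋃ i, Y i
      · rw [Set.indicator_of_mem hx]
        by_cases hxA : x ∈ A
        · have h5 : ∑ i, (Y i ∩ A).indicator (fun _ => (1 : ℝ≥0∞)) x ≤
              ∑ i, ENNReal.ofReal ((tube N (θ i) (c i)).indicator (fun _ => (1 : ℝ)) x) := by
            apply sum_le_sum
            intro i _
            by_cases hi : x ∈ Y i ∩ A
            · rw [Set.indicator_of_mem hi, Set.indicator_of_mem ((hY i).2.1 hi.1),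
                ENNReal.ofReal_one]
            · rw [Set.indicator_of_notMem hi]
              exact zero_le
          refine h5.trans ?_
          rw [← ENNReal.ofReal_sum_of_nonneg fun i _ =>
            Set.indicator_nonneg (fun _ _ => zero_le_one) _]
          exact ENNReal.ofReal_le_ofReal (hm x hxA)
        · have h5 : ∑ i, (Y i ∩ A).indicator (fun _ => (1 : ℝ≥0∞)) x = 0 := by
            apply sum_eq_zero
            intro i _
            rw [Set.indicator_of_notMem]
            exact fun h => hxA h.2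
          rw [h5]
          exact zero_le
      · rw [Set.indicator_of_notMem hx]
        apply le_of_eq
        apply sum_eq_zero
        intro i _
        rw [Set.indicator_of_notMem]
        exact fun h => hx (Set.mem_iUnion.2 ⟨i, h.1⟩)
    refine (lintegral_mono h4).trans ?_
    rw [lintegral_indicator_const hUm]
  have h3 : ∑ i, volume (tube N (θ i) (c i)) = ENNReal.ofReal (2 / lam) *
      ∑ i, ENNReal.ofReal (lam / 2) * volume (tube N (θ i) (c i)) := by
    rw [← mul_sum, ← mul_assoc, ← ENNReal.ofReal_mul (by positivity)]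
    have e : 2 / lam * (lam / 2) = 1 := by field_simp
    rw [e, ENNReal.ofReal_one, one_mul]
  rw [h3, ENNReal.ofReal_mul (by positivity), mul_assoc]
  gcongr
  exact (sum_le_sum fun i _ => h1 i).trans h2

end Pool.Agent.MPac5134.AE
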