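import Pool.Agent.Lib.MP_ac5134_an.AE.Explicit
import Pool.Agent.Lib.MP_ac5134_an.AddVol
import Pool.Agent.Lib.MP_ac5134_an.AddQ3

/-!
Tubes through one point: the labels of the tubes of one height differ by elements of a set of
differences which depends on the relative height of the point.
-/

namespace Pool.Agent.MPac5134.AE

open Finset MeasureTheory
open scoped Pointwise ENNReal

variable {d : ℕ}

/-- the direction part of a label -/
def om (d : ℕ) : (Fin d ⊕ Fin (d + 1) → ℤ) →+ (Fin d → ℤ) where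
  toFun g k := g (Sum.inl k)
  map_zero' := rfl
  map_add' _ _ := rfl

/-- the position part of a label -/
def yy (d : ℕ) : (Fin d ⊕ Fin (d + 1) → ℤ) →+ (Fin d → ℤ) where
  toFun g k := g (Sum.inr k.castSucc)
  map_zero' := rfl
  map_add' _ _ := rfl

theorem om_label (N : ℝ) (θ : Cap d) (c : Sp d) (k : Fin d) :
    om d (label N θ c) k = ⌊N * θ.foot k⌋ := rfl

theorem yy_label (N : ℝ) (θ : Cap d) (c : Sp d) (k : Fin d) :
    yy d (label N θ c) k = ⌊axisPt θ c (height N c * N ^ 2) k / N⌋ := by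
  show label N θ c (Sum.inr k.castSucc) = _
  unfold label
  rw [Sum.elim_inr, Fin.snoc_castSucc]

/-- the position of a point of a tube in terms of the label -/
theorem label_near {N : ℝ} (hN : 1 ≤ N) (θ : Cap d) (c : Sp d) {x : Sp d}
    (hx : x ∈ tube N θ c) (k : Fin d) :
    |x k.castSucc / N + 2 * (x (Fin.last d) / N ^ 2 - height N c) *
      ((om d (label N θ c) k : ℤ) : ℝ) - ((yy d (label N θ c) k : ℤ) : ℝ)| ≤
        3 * (d : ℝ) / 2 + 2 * (d + 2) + 1 := by
  have hN0 : 0 < N := by linarith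
  have hN2 : 0 < N ^ 2 := by positivity
  rw [om_label, yy_label]
  have h1 := tube_functional hN0.le θ c hx k
  have h2 := tube_height' hN θ c hx
  rw [PiLp.sub_apply, PiLp.sub_apply] at h1
  set s : ℝ := x (Fin.last d) / N ^ 2 - height N c with hs
  set f := θ.foot k with hf
  set b := axisPt θ c (height N c * N ^ 2) k with hb
  have hbb : b = c k.castSucc + 2 * f * (c (Fin.last d) - height N c * N ^ 2) := rfl
  have hxs : x (Fin.last d) = (s + height N c) * N ^ 2 := by rw [hs]; field_simp; ring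
  have h3 : |x k.castSucc / N + 2 * s * (N * f) - b / N| ≤ 3 * d / 2 := by
    have e1 : x k.castSucc / N + 2 * s * (N * f) - b / N =
        (x k.castSucc - c k.castSucc + 2 * f * (x (Fin.last d) - c (Fin.last d))) / N := by
      rw [hbb, hxs]; field_simp; ring
    rw [e1, abs_div, abs_of_pos hN0, div_le_iff₀ hN0]
    calc _ ≤ 3 * d * N / 2 := h1
      _ = _ := by ring
  have h4 := Int.floor_le (N * f)
  have h5 := (Int.lt_floor_add_one (N * f)).le
  have h6 := Int.floor_le (b / N)
  have h7 := (Int.lt_floor_add_one (b / N)).le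
  have h8 : |2 * s * (N * f - ⌊N * f⌋)| ≤ 2 * (d + 2) := by
    rw [abs_mul, abs_mul, abs_of_pos (by norm_num : (0:ℝ) < 2)]
    have h9 : |N * f - ⌊N * f⌋| ≤ 1 := by
      rw [abs_le]
      constructor <;> linarith
    calc 2 * |s| * |N * f - ⌊N * f⌋| ≤ 2 * (d + 2) * 1 := by gcongr
      _ = _ := by ring
  have e2 : x k.castSucc / N + 2 * s * ((⌊N * f⌋ : ℤ) : ℝ) - ((⌊b / N⌋ : ℤ) : ℝ) =
      (x k.castSucc / N + 2 * s * (N * f) - b / N) - 2 * s * (N * f - ⌊N * f⌋) +
        (b / N - ⌊b / N⌋) := by ring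
  rw [e2]
  rw [abs_le] at h3 h8 ⊢
  constructor <;> linarith [h3.1, h3.2, h8.1, h8.2]

/-- the constant -/
def c0 (d : ℕ) : ℝ := 7 * d + 10

theorem c0_nonneg (d : ℕ) : 0 ≤ c0 d := by unfold c0; positivity

/-- the difference of the labels of two tubes through one point -/
theorem diff_mem {ι : Type*} [Fintype ι] {N : ℝ} (hN : 1 ≤ N) {θ : ι → Cap d} {c : ι → Sp d}
    {G : Finset (Fin d ⊕ Fin (d + 1) → ℤ)} {x : Sp d} {i i' : ι}
    (hi : x ∈ tube N (θ i) (c i)) (hi' : x ∈ tube N (θ i') (c i'))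
    (hG : label N (θ i) (c i) ∈ G) (hG' : label N (θ i') (c i') ∈ G) {T : ℤ}
    (hT : height N (c i) = T) (hT' : height N (c i') = T) :
    label N (θ i) (c i) - label N (θ i') (c i') ∈
      KK G (om d) (yy d) (c0 d) (x (Fin.last d) / N ^ 2 - T) := by
  rw [mem_KK]
  constructor
  · rw [mem_DD, one_nsmul]
    exact ⟨_, hG, _, hG', rfl⟩
  · intro k
    have h1 := label_near hN (θ i) (c i) hi k
    have h2 := label_near hN (θ i') (c i') hi' k
    rw [hT] at h1
    rw [hT'] at h2
    rw [map_sub, map_sub, Pi.sub_apply, Pi.sub_apply]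
    push_cast
    unfold c0
    rw [abs_le] at h1 h2 ⊢
    constructor <;> linarith [h1.1, h1.2, h2.1, h2.2]

/-- the multiplicity in terms of the numbers of differences -/
theorem mult_le {ι : Type*} [Fintype ι] {K : ℕ} {N : ℝ} (hN : 1 ≤ N) {θ : ι → Cap d}
    {c : ι → Sp d}
    (hK : ∀ z : Fin d → ℤ, ∀ s : Finset ι, (∀ i ∈ s, cell N (θ i) = z) → s.card ≤ K)
    {G : Finset (Fin d ⊕ Fin (d + 1) → ℤ)} (hG : ∀ i, label N (θ i) (c i) ∈ G) {x : Sp d}
    {X : ℝ} (hX : 0 ≤ X) (h : ∀ T : ℤ, |x (Fin.last d) / N ^ 2 - T| ≤ d + 2 →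
      ((KK G (om d) (yy d) (c0 d) (x (Fin.last d) / N ^ 2 - T)).card : ℝ) ≤ X) :
    mult N θ c x ≤ (2 * d + 5) * (K * X) := by
  classical
  rw [mult_eq_through]
  set u : ℝ := x (Fin.last d) / N ^ 2 with hu
  set H : Finset ℤ := Finset.Icc ⌈u - (d + 2)⌉ ⌊u + (d + 2)⌋ with hH
  have hHc : (H.card : ℝ) ≤ 2 * d + 5 := by
    rw [hH, Int.card_Icc]
    have h1 : (⌊u + (d + 2)⌋ + 1 - ⌈u - (d + 2)⌉ : ℤ) ≤ 2 * (d:ℤ) + 5 := by
      have h2 := Int.floor_le (u + (d + 2))
      have h3 := Int.le_ceil (u - (d + 2))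
      have h4 : ((⌊u + (d + 2)⌋ + 1 - ⌈u - (d + 2)⌉ : ℤ) : ℝ) ≤ ((2 * (d:ℤ) + 5 : ℤ) : ℝ) := by
        push_cast; linarith
      exact_mod_cast h4
    have h5 : ((⌊u + (d + 2)⌋ + 1 - ⌈u - (d + 2)⌉).toNat : ℤ) ≤ 2 * (d:ℤ) + 5 := by omega
    exact_mod_cast h5
  have hthr : ∀ i ∈ through N θ c x, x ∈ tube N (θ i) (c i) := fun i hi =>
    (Finset.mem_filter.1 hi).2
  have hmaps : ∀ i ∈ through N θ c x, height N (c i) ∈ H := by
    intro i hi
    have h1 := tube_height' hN (θ i) (c i) (hthr i hi)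
    rw [← hu, abs_le] at h1
    rw [hH, Finset.mem_Icc, Int.ceil_le, Int.le_floor]
    constructor <;> linarith [h1.1, h1.2]
  have hpart : ∀ T ∈ H, (((through N θ c x).filter fun i => height N (c i) = T).card : ℝ) ≤
      K * X := by
    intro T hTH
    set P := (through N θ c x).filter fun i => height N (c i) = T with hP
    rcases P.eq_empty_or_nonempty with he | ⟨i0, hi0⟩
    · rw [he, card_empty]
      push_cast
      positivity
    · have hi0' := mem_filter.1 hi0
      have hTd : |u - T| ≤ d + 2 := by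
        have h1 := tube_height' hN (θ i0) (c i0) (hthr i0 hi0'.1)
        rw [hi0'.2, ← hu] at h1
        exact h1
      have h2 : P.card ≤ K * (P.image fun i =>
          label N (θ i) (c i) - label N (θ i0) (c i0)).card := by
        apply card_le_mul_card_image
        intro v _
        apply hK (fun k => om d (v + label N (θ i0) (c i0)) k)
        intro i hi
        have h3 := (mem_filter.1 hi).2
        funext k
        rw [← h3, sub_add_cancel]
        rfl
      have h3 : (P.image fun i => label N (θ i) (c i) - label N (θ i0) (c i0)) ⊆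
          KK G (om d) (yy d) (c0 d) (u - T) := by
        intro v hv
        rw [mem_image] at hv
        obtain ⟨i, hi, rfl⟩ := hv
        have hi' := mem_filter.1 hi
        exact diff_mem hN (hthr i hi'.1) (hthr i0 hi0'.1) (hG i) (hG i0) hi'.2 hi0'.2
      have h4 : (P.card : ℝ) ≤ K * (KK G (om d) (yy d) (c0 d) (u - T)).card := by
        exact_mod_cast h2.trans (Nat.mul_le_mul_left K (card_le_card h3))
      refine h4.trans ?_
      exact mul_le_mul_of_nonneg_left (h T hTd) (Nat.cast_nonneg K)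
  have h1 := card_eq_sum_card_fiberwise (f := fun i => height N (c i)) hmaps
  rw [h1]
  push_cast
  calc _ ≤ ∑ _T ∈ H, (K * X : ℝ) := sum_le_sum hpart
    _ = H.card * (K * X) := by rw [sum_const, nsmul_eq_mul]
    _ ≤ _ := mul_le_mul_of_nonneg_right hHc (by positivity)

end Pool.Agent.MPac5134.AE
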