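import Pool.Agent.Lib.MP_ac5134_an.AE.Geom

/-!
Most relative heights are good: no point at such a height is in many tubes.
-/

namespace Pool.Agent.MPac5134.AE

open Finset MeasureTheory
open scoped Pointwise ENNReal

variable {d : ℕ}

theorem card_filter_labels {ι : Type*} [Fintype ι] {K : ℕ} {N : ℝ} {θ : ι → Cap d} {c : ι → Sp d}
    (hK : ∀ z : Fin d → ℤ, ∀ s : Finset ι, (∀ i ∈ s, cell N (θ i) = z) → s.card ≤ K)
    (z : Fin d → ℤ) : ((labels N θ c).filter fun g => om d g = z).card ≤ K := by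
  classical
  have h1 : ((labels N θ c).filter fun g => om d g = z) ⊆
      (univ.filter fun i => cell N (θ i) = z).image fun i => label N (θ i) (c i) := by
    intro g hg
    rw [mem_filter] at hg
    obtain ⟨hg1, hg2⟩ := hg
    unfold labels at hg1
    rw [mem_image] at hg1
    obtain ⟨i, -, rfl⟩ := hg1
    rw [mem_image]
    refine ⟨i, ?_, rfl⟩
    rw [mem_filter]
    refine ⟨mem_univ _, ?_⟩
    rw [← hg2]
    rfl
  refine (card_le_card h1).trans (card_image_le.trans (hK z _ ?_))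
  intro i hi
  exact (mem_filter.1 hi).2

theorem card_labels_le {ι : Type*} [Fintype ι] {K : ℕ} {N : ℝ} (hN : 1 ≤ N) {θ : ι → Cap d}
    {c : ι → Sp d}
    (hK : ∀ z : Fin d → ℤ, ∀ s : Finset ι, (∀ i ∈ s, cell N (θ i) = z) → s.card ≤ K) :
    ((labels N θ c).card : ℝ) ≤ (K * 5 ^ d + 1) * N ^ d := by
  classical
  have hN0 : 0 < N := by linarith
  have hceil : N ≤ ⌈N⌉ := Int.le_ceil N
  have hmaps : ∀ g ∈ labels N θ c, om d g ∈
      Fintype.piFinset fun _ : Fin d => Icc (-⌈N⌉) ⌈N⌉ := by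
    intro g hg
    unfold labels at hg
    rw [mem_image] at hg
    obtain ⟨i, -, rfl⟩ := hg
    rw [Fintype.mem_piFinset]
    intro k
    rw [om_label, mem_Icc]
    have h1 := abs_le.1 (abs_foot_le (θ i) k)
    constructor
    · rw [Int.le_floor]
      push_cast
      nlinarith [h1.1]
    · have h2 := Int.floor_le (N * (θ i).foot k)
      have h3 : ((⌊N * (θ i).foot k⌋ : ℤ) : ℝ) ≤ ⌈N⌉ := by nlinarith [h1.2]
      exact_mod_cast h3
  have h1 := card_eq_sum_card_fiberwise (f := om d) hmaps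
  have h2 : (labels N θ c).card ≤ (Fintype.piFinset fun _ : Fin d => Icc (-⌈N⌉) ⌈N⌉).card * K := by
    rw [h1, ← smul_eq_mul]
    apply sum_le_card_nsmul
    intro z _
    exact card_filter_labels hK z
  rw [Fintype.card_piFinset] at h2
  simp only [Int.card_Icc, prod_const, card_univ, Fintype.card_fin] at h2
  have h3 : (((⌈N⌉ + 1 - -⌈N⌉).toNat : ℕ) : ℝ) ≤ 5 * N := by
    have h4 : 0 ≤ ⌈N⌉ := by
      have : (0:ℝ) < ⌈N⌉ := by linarith
      exact_mod_cast this.le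
    have h5 : (((⌈N⌉ + 1 - -⌈N⌉).toNat : ℕ) : ℤ) = 2 * ⌈N⌉ + 1 := by omega
    have h6 : (((⌈N⌉ + 1 - -⌈N⌉).toNat : ℕ) : ℝ) = 2 * (⌈N⌉ : ℝ) + 1 := by exact_mod_cast h5
    rw [h6]
    have h7 := (Int.ceil_lt_add_one N).le
    linarith
  calc ((labels N θ c).card : ℝ) ≤ (((⌈N⌉ + 1 - -⌈N⌉).toNat ^ d * K : ℕ) : ℝ) := by
        exact_mod_cast h2
    _ = (((⌈N⌉ + 1 - -⌈N⌉).toNat : ℕ) : ℝ) ^ d * K := by push_cast; ring
    _ ≤ (5 * N) ^ d * K := by gcongr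
    _ = (K * 5 ^ d) * N ^ d := by rw [mul_pow]; ring
    _ ≤ (K * 5 ^ d + 1) * N ^ d := by
        apply mul_le_mul_of_nonneg_right _ (by positivity)
        linarith

theorem labels_nonempty {ι : Type*} [Fintype ι] {N : ℝ} {θ : ι → Cap d} {c : ι → Sp d}
    (i : ι) : (labels N θ c).Nonempty := by
  classical
  unfold labels
  exact ⟨_, mem_image_of_mem _ (mem_univ i)⟩

/-- Good relative heights, in terms of the doubling constant. -/
theorem good_heights (d : ℕ) :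
    ∃ A : ℝ, 1 ≤ A ∧ ∀ (K : ℕ) (ε : ℝ), 0 < ε → ε ≤ 1 → ∃ C : ℝ, 1 ≤ C ∧
      ∀ η : ℝ, 0 < η → η ≤ 1 →
      ∀ N : ℝ, 1 ≤ N → ∀ (ι : Type) [Fintype ι] (θ : ι → Cap d) (c : ι → Sp d),
      (∀ z : Fin d → ℤ, ∀ s : Finset ι, (∀ i ∈ s, cell N (θ i) = z) → s.card ≤ K) →
      ∀ L : ℝ, 1 ≤ L →
      ((labels N θ c + labels N θ c).card : ℝ) ≤ L * (labels N θ c).card →
      ∃ J : Set ℝ, MeasurableSet J ∧ J ⊆ Set.Ico 0 1 ∧
        volume (Set.Ico (0:ℝ) 1 \ J) ≤ ENNReal.ofReal η ∧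
        ∀ x : Sp d, Int.fract (x (Fin.last d) / N ^ 2) ∈ J →
          mult N θ c x ≤ C * N ^ ε * (2 * L) ^ (A / ε * Real.log (2 / (ε * η))) := by
  classical
  have hd0 : (0:ℝ) ≤ d := Nat.cast_nonneg d
  obtain ⟨Q, hQ⟩ : ∃ Q : ℝ, Q = 2 * (d:ℝ) + 9 := ⟨_, rfl⟩
  have hQ0 : 0 < Q := by rw [hQ]; positivity
  have hD1 : 1 ≤ ((d:ℝ) + 2) ^ 2 * Q := by
    have h1 : (1:ℝ) ≤ ((d:ℝ) + 2) ^ 2 := by
      apply one_le_pow₀
      linarith
    have h2 : 1 ≤ Q := by rw [hQ]; linarith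
    exact one_le_mul_of_one_le_of_one_le h1 h2
  have hlogD : 0 ≤ Real.log (((d:ℝ) + 2) ^ 2 * Q) := Real.log_nonneg hD1
  obtain ⟨A, hA⟩ : ∃ A : ℝ, A = (28 + 5 * d) * (d + 2) *
      (4 + 4 * Real.log (((d:ℝ) + 2) ^ 2 * Q)) := ⟨_, rfl⟩
  have hA1 : 1 ≤ A := by
    rw [hA]
    have h1 : (1:ℝ) ≤ (28 + 5 * d) * (d + 2) := by nlinarith
    have h2 : 1 ≤ 4 + 4 * Real.log (((d:ℝ) + 2) ^ 2 * Q) := by linarith
    exact one_le_mul_of_one_le_of_one_le h1 h2
  refine ⟨A, hA1, ?_⟩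
  intro K ε hε hε1
  obtain ⟨m, hm⟩ : ∃ m : ℕ, m = ⌈(d:ℝ) / ε⌉₊ + 1 := ⟨_, rfl⟩
  have hmε : (d : ℝ) ≤ ε * m := by
    have h1 := Nat.le_ceil ((d:ℝ) / ε)
    rw [div_le_iff₀ hε] at h1
    rw [hm]
    push_cast
    nlinarith
  have hm1 : 1 ≤ m := by omega
  have hm1' : (1:ℝ) ≤ m := by exact_mod_cast hm1
  have hm2 : (m:ℝ) ≤ (d + 2) / ε := by
    have h1 := (Nat.ceil_lt_add_one (by positivity : 0 ≤ (d:ℝ) / ε)).le
    have h2 : 1 ≤ 1 / ε := by rw [le_div_iff₀ hε]; linarith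
    rw [hm]
    push_cast
    calc (⌈(d:ℝ) / ε⌉₊ : ℝ) + 1 ≤ (d:ℝ) / ε + 2 * 1 := by linarith
      _ ≤ (d:ℝ) / ε + 2 * (1 / ε) := by linarith
      _ = (d + 2) / ε := by ring
  have hc1 : 1 ≤ c0 d := by unfold c0; linarith
  have hc0 : 0 < c0 d := by linarith
  have hA0 : (1:ℝ) ≤ K * 5 ^ d + 1 := by
    have : (0:ℝ) ≤ K * 5 ^ d := by positivity
    linarith
  obtain ⟨C, hC⟩ : ∃ C : ℝ, C = K * (K * 5 ^ d + 1) * (13 * c0 d * m) ^ d := ⟨_, rfl⟩
  have hC0 : 0 ≤ C := by rw [hC]; positivity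
  refine ⟨(2 * d + 5) * (K * C) + 1, by
    have : (0:ℝ) ≤ (2 * d + 5) * (K * C) := by positivity
    linarith, ?_⟩
  intro η hη hη1 N hN ι _ θ c hK L hL1 hGG
  obtain ⟨q, hq⟩ : ∃ q : ℕ, q = ⌈(2 * (d:ℝ) + 7) * m / η⌉₊ + 1 := ⟨_, rfl⟩
  have hq1 : 1 ≤ q := by omega
  have hq0 : (0:ℝ) < q := by exact_mod_cast hq1
  have hqη : (2 * (d:ℝ) + 7) * (m / q) ≤ η := by
    have h1 := Nat.le_ceil ((2 * (d:ℝ) + 7) * m / η)
    rw [div_le_iff₀ hη] at h1
    rw [mul_div_assoc', div_le_iff₀ hq0, hq]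
    push_cast
    nlinarith
  have hq2 : (q:ℝ) ≤ Q * m / η := by
    have h1 := (Nat.ceil_lt_add_one (by positivity : 0 ≤ (2 * (d:ℝ) + 7) * m / η)).le
    have h2 : 1 ≤ m / η := by rw [le_div_iff₀ hη]; linarith
    rw [hq]
    push_cast
    calc (⌈(2 * (d:ℝ) + 7) * m / η⌉₊ : ℝ) + 1 ≤ (2 * (d:ℝ) + 7) * m / η + 2 * 1 := by linarith
      _ ≤ (2 * (d:ℝ) + 7) * m / η + 2 * (m / η) := by linarith
      _ = Q * m / η := by rw [hQ]; ring
  obtain ⟨t, ht⟩ : ∃ t : ℕ, t = Nat.log 2 (2 * (d + 2) * q) + 1 := ⟨_, rfl⟩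
  have ht2 : 2 * (d + 2) * q < 2 ^ t := by
    rw [ht]
    exact Nat.lt_pow_succ_log_self (by norm_num) _
  obtain ⟨p, hp⟩ : ∃ p : ℕ, p = (28 + 5 * d) * (m * t) := ⟨_, rfl⟩
  have hpA : (p:ℝ) ≤ A / ε * Real.log (2 / (ε * η)) := by
    have hεη : 0 < ε * η := by positivity
    have hεη1 : ε * η ≤ 1 := mul_le_one₀ hε1 hη.le hη1
    have hΛ : 1 ≤ 2 * Real.log (2 / (ε * η)) := by
      have h1 : Real.log 2 ≤ Real.log (2 / (ε * η)) := by
        apply Real.log_le_log (by norm_num)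
        rw [le_div_iff₀ hεη]
        linarith
      have h2 := Real.log_two_gt_d9
      linarith
    have hX : (((2 * (d + 2) * q : ℕ) : ℕ) : ℝ) ≤ 2 / (ε * η) * (((d:ℝ) + 2) ^ 2 * Q) := by
      push_cast
      calc 2 * ((d:ℝ) + 2) * q ≤ 2 * ((d:ℝ) + 2) * (Q * ((d + 2) / ε) / η) := by
            gcongr
            exact hq2.trans (by gcongr)
        _ = _ := by field_simp
    have hlog : ((Nat.log 2 (2 * (d + 2) * q) : ℕ) : ℝ) ≤
        2 * (Real.log (2 / (ε * η)) + Real.log (((d:ℝ) + 2) ^ 2 * Q)) := by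
      have h0 : 0 < 2 * (d + 2) * q := by positivity
      have h1 : (2:ℝ) ^ (Nat.log 2 (2 * (d + 2) * q)) ≤ (((2 * (d + 2) * q : ℕ) : ℕ) : ℝ) := by
        exact_mod_cast Nat.pow_log_le_self 2 h0.ne'
      have h2 := Real.log_le_log (by positivity) (h1.trans hX)
      rw [Real.log_pow, Real.log_mul (by positivity) (by linarith)] at h2
      have h3 := Real.log_two_gt_d9
      have h4 : (0:ℝ) ≤ ((Nat.log 2 (2 * (d + 2) * q) : ℕ) : ℝ) := Nat.cast_nonneg _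
      nlinarith
    calc (p:ℝ) = (28 + 5 * d) * (m * (((Nat.log 2 (2 * (d + 2) * q) : ℕ) : ℝ) + 1)) := by
          rw [hp, ht]; push_cast; ring
      _ ≤ (28 + 5 * d) * (((d + 2) / ε) *
          (2 * (Real.log (2 / (ε * η)) + Real.log (((d:ℝ) + 2) ^ 2 * Q)) +
            2 * Real.log (2 / (ε * η)))) := by
          gcongr
      _ ≤ (28 + 5 * d) * (((d + 2) / ε) *
          ((4 + 4 * Real.log (((d:ℝ) + 2) ^ 2 * Q)) * Real.log (2 / (ε * η)))) := by
          gcongr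
          nlinarith
      _ = _ := by rw [hA]; ring
  have hN0 : 0 < N := by linarith
  have hL0 : 0 < L := by linarith
  have hNε : 0 < N ^ ε := by positivity
  have hLA : 0 < (2 * L) ^ (A / ε * Real.log (2 / (ε * η))) := by positivity
  rcases isEmpty_or_nonempty ι with hι | ⟨⟨i0⟩⟩
  · refine ⟨Set.Ico 0 1, measurableSet_Ico, subset_rfl, by simp, ?_⟩
    intro x _
    unfold mult
    rw [Finset.univ_eq_empty, Finset.sum_empty]
    positivity
  have hb := volume_bad_q (S := d + 2) (by omega) hc1 hA0 hm1 hmε hq1 ht2 (om := om d)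
    (yy := yy d) (Fintype.card_fin d) hN (labels_nonempty i0)
    (card_filter_labels hK) (card_labels_le hN hK) hGG
  rw [← hp, ← hC] at hb
  set Bad : Set ℝ := {s : ℝ | s ∈ Set.Icc (-((d + 2 : ℕ) : ℝ)) ((d + 2 : ℕ) : ℝ) ∧
    C * N ^ ε * (2 * L) ^ p < (KK (labels N θ c) (om d) (yy d) (c0 d) s).card} with hBad
  have hBadm : MeasurableSet Bad :=
    measurableSet_Icc.inter (measurableSet_lt measurable_const (measurable_card _ _ _ _))
  set I : Finset ℤ := Finset.Icc (-((d:ℤ) + 3)) (d + 3) with hI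
  have hIc : I.card = 2 * d + 7 := by
    rw [hI, Int.card_Icc]
    omega
  refine ⟨{h | h ∈ Set.Ico (0:ℝ) 1 ∧ ∀ j ∈ I, h + (j:ℝ) ∉ Bad}, ?_, fun h hh => hh.1, ?_, ?_⟩
  · have h1 : {h | h ∈ Set.Ico (0:ℝ) 1 ∧ ∀ j ∈ I, h + (j:ℝ) ∉ Bad} =
        Set.Ico (0:ℝ) 1 ∩ ⋂ j ∈ I, ((fun h : ℝ => h + (j:ℝ)) ⁻¹' Bad)ᶜ := by
      ext h
      simp
    rw [h1]
    refine measurableSet_Ico.inter (I.measurableSet_biInter fun j _ => ?_)
    exact ((measurable_id.add_const _) hBadm).compl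
  · have h1 : Set.Ico (0:ℝ) 1 \ {h | h ∈ Set.Ico (0:ℝ) 1 ∧ ∀ j ∈ I, h + (j:ℝ) ∉ Bad} ⊆
        ⋃ j ∈ I, (fun h : ℝ => h + (j:ℝ)) ⁻¹' Bad := by
      rintro h ⟨h1, h2⟩
      have h3 : ¬ ∀ j ∈ I, h + (j:ℝ) ∉ Bad := fun h4 => h2 ⟨h1, h4⟩
      push Not at h3
      obtain ⟨j, hj, hj2⟩ := h3
      rw [Set.mem_iUnion₂]
      exact ⟨j, hj, hj2⟩
    refine (measure_mono h1).trans ((measure_biUnion_finset_le _ _).trans ?_)
    calc ∑ j ∈ I, volume ((fun h : ℝ => h + (j:ℝ)) ⁻¹' Bad) ≤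
          ∑ _j ∈ I, ENNReal.ofReal (m / q) := by
          apply sum_le_sum
          intro j _
          rw [measure_preimage_add_right]
          exact hb
      _ = ENNReal.ofReal ((2 * (d:ℝ) + 7) * (m / q)) := by
          rw [sum_const, hIc, nsmul_eq_mul, ENNReal.ofReal_mul (by positivity)]
          congr 1
          rw [← ENNReal.ofReal_natCast]
          push_cast
          rfl
      _ ≤ _ := ENNReal.ofReal_le_ofReal hqη
  · intro x hx
    obtain ⟨hx1, hx2⟩ := hx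
    have h1 := mult_le hN hK (G := labels N θ c) (fun i => by
      unfold labels
      exact mem_image_of_mem _ (mem_univ i)) (x := x) (X := C * N ^ ε * (2 * L) ^ p)
      (by positivity) (by
      intro T hT
      set u : ℝ := x (Fin.last d) / N ^ 2 with hu
      have hj : ⌊u⌋ - T ∈ I := by
        rw [abs_le] at hT
        have h2 := Int.floor_le u
        have h3 := Int.lt_floor_add_one u
        rw [hI, Finset.mem_Icc]
        constructor
        · have h4 : ((-((d:ℤ) + 3) : ℤ) : ℝ) ≤ ((⌊u⌋ - T : ℤ) : ℝ) := by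
            push_cast; linarith [hT.1]
          exact_mod_cast h4
        · have h4 : ((⌊u⌋ - T : ℤ) : ℝ) ≤ (((d:ℤ) + 3 : ℤ) : ℝ) := by
            push_cast; linarith [hT.2]
          exact_mod_cast h4
      have h2 := hx2 _ hj
      have e : Int.fract u + ((⌊u⌋ - T : ℤ) : ℝ) = u - T := by
        have := Int.floor_add_fract u
        push_cast
        linarith
      rw [e] at h2
      by_contra hcon
      apply h2
      rw [hBad]
      refine ⟨?_, not_le.1 hcon⟩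
      rw [abs_le] at hT
      push_cast
      exact ⟨hT.1, hT.2⟩)
    refine h1.trans ?_
    have hLp : (2 * L) ^ p ≤ (2 * L) ^ (A / ε * Real.log (2 / (ε * η))) := by
      rw [← Real.rpow_natCast (2 * L) p]
      exact Real.rpow_le_rpow_of_exponent_le (by linarith) hpA
    calc (2 * (d:ℝ) + 5) * (K * (C * N ^ ε * (2 * L) ^ p)) ≤
          (2 * (d:ℝ) + 5) * (K * (C * N ^ ε * (2 * L) ^ (A / ε * Real.log (2 / (ε * η))))) := by
          gcongr
      _ = (2 * d + 5) * (K * C) * (N ^ ε * (2 * L) ^ (A / ε * Real.log (2 / (ε * η)))) := by ring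
      _ ≤ ((2 * d + 5) * (K * C) + 1) *
          (N ^ ε * (2 * L) ^ (A / ε * Real.log (2 / (ε * η)))) := by
        apply mul_le_mul_of_nonneg_right _ (by positivity)
        linarith
      _ = _ := by ring

end Pool.Agent.MPac5134.AE
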