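import Pool.Agent.Lib.MP_ac5134_an.AE.Energy

/-!
The hereditary form: in a family which violates the volume form by a power of `N`, every dense part
of the labels has small additive energy.
-/

namespace Pool.Agent.MPac5134.AE

open Finset MeasureTheory
open scoped Pointwise ENNReal

variable {d : ℕ}

/-- at most `K` tubes per label -/
theorem card_le_labels {ι : Type*} [Fintype ι] {K : ℕ} {N : ℝ} {θ : ι → Cap d} {c : ι → Sp d}
    (hK : ∀ z : Fin d → ℤ, ∀ s : Finset ι, (∀ i ∈ s, cell N (θ i) = z) → s.card ≤ K) :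
    Fintype.card ι ≤ K * (labels N θ c).card := by
  classical
  have hmaps : ∀ i ∈ (univ : Finset ι), label N (θ i) (c i) ∈ labels N θ c := by
    intro i _
    unfold labels
    exact mem_image_of_mem _ (mem_univ i)
  have h1 := card_eq_sum_card_fiberwise (f := fun i => label N (θ i) (c i)) hmaps
  rw [card_univ] at h1
  rw [h1, mul_comm, ← smul_eq_mul]
  apply sum_le_card_nsmul
  intro g _
  apply hK (om d g)
  intro i hi
  rw [mem_filter] at hi
  rw [← hi.2]
  rfl

/-- In a family which violates the volume form by a power of `N`, every dense part of the labels has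
small additive energy. -/
theorem energy_hered (hd : 0 < d) :
    ∃ A : ℝ, 1 ≤ A ∧ ∀ (K : ℕ) (ε : ℝ), 0 < ε → ε ≤ 1 → ∃ C : ℝ, 1 ≤ C ∧
      ∀ N : ℝ, 1 ≤ N → ∀ (ι : Type) [Fintype ι] (θ : ι → Cap d) (c : ι → Sp d),
      (∀ z : Fin d → ℤ, ∀ s : Finset ι, (∀ i ∈ s, cell N (θ i) = z) → s.card ≤ K) →
      volume (⋃ i, tube N (θ i) (c i)) ≤
        ENNReal.ofReal (N ^ (-ε)) * ∑ i, volume (tube N (θ i) (c i)) →
      ∀ H ⊆ labels N θ c, N ^ (-(ε / 2)) * ((labels N θ c).card : ℝ) ≤ H.card →
      (H.addEnergy H : ℝ) ≤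
        C * N ^ (-(ε ^ 2 / (A * Real.log (2 / ε)))) * (H.card : ℝ) ^ 3 := by
  classical
  obtain ⟨A, hA, h⟩ := energy_small (d := d) hd
  refine ⟨48 * A, by linarith, ?_⟩
  intro K ε hε hε1
  obtain ⟨C, hC, h⟩ := h K (ε / 4) (by positivity) (by linarith)
  have hK0 : (0:ℝ) ≤ K := Nat.cast_nonneg K
  refine ⟨C + K, by linarith, ?_⟩
  intro N hN ι _ θ c hK hvol H hH hcard
  have hN0 : 0 < N := by linarith
  have hlog2 := Real.log_two_gt_d9
  obtain ⟨Λ, hΛ⟩ : ∃ Λ : ℝ, Λ = Real.log (2 / ε) := ⟨_, rfl⟩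
  have hΛ2 : Real.log 2 ≤ Λ := by
    rw [hΛ]
    apply Real.log_le_log (by norm_num)
    rw [le_div_iff₀ hε]
    linarith
  have hΛ0 : 0 < Λ := by linarith
  rw [← hΛ]
  obtain ⟨a, ha⟩ : ∃ a : ℝ, a = ε ^ 2 / (48 * A * Λ) := ⟨_, rfl⟩
  have ha0 : 0 < a := by rw [ha]; positivity
  rw [← ha]
  have hH3 : (0:ℝ) ≤ (H.card : ℝ) ^ 3 := by positivity
  have hNa : 0 < N ^ (-a) := by positivity
  rcases lt_or_ge (N ^ (ε / 4)) K with hsmall | hlarge
  · -- small `N`
    have h1 : (H.addEnergy H : ℝ) ≤ (H.card : ℝ) ^ 3 := addEnergy_le_cube H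
    have h2 : a ≤ ε / 4 := by
      have hAΛ : 1 * (1 / 2) ≤ A * Λ := by
        apply mul_le_mul hA (by linarith) (by norm_num) (by linarith)
      have hεε : ε * ε ≤ ε * 1 := by gcongr
      rw [ha, div_le_div_iff₀ (by positivity) (by norm_num)]
      calc ε ^ 2 * 4 = 4 * (ε * ε) := by ring
        _ ≤ 4 * (ε * 1) := by gcongr
        _ = ε * (8 * (1 * (1 / 2))) := by ring
        _ ≤ ε * (8 * (A * Λ)) := by gcongr
        _ ≤ ε * (48 * A * Λ) := by
            apply mul_le_mul_of_nonneg_left _ hε.le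
            have : 0 ≤ A * Λ := by positivity
            linarith
    have h3 : N ^ a ≤ K :=
      (Real.rpow_le_rpow_of_exponent_le hN h2).trans hsmall.le
    have h4 : 1 ≤ (C + K) * N ^ (-a) := by
      rw [Real.rpow_neg hN0.le, ← div_eq_mul_inv, le_div_iff₀ (by positivity), one_mul]
      linarith
    calc (H.addEnergy H : ℝ) ≤ 1 * (H.card : ℝ) ^ 3 := by rw [one_mul]; exact h1
      _ ≤ _ := by gcongr
  · -- large `N`
    obtain ⟨S, hS⟩ : ∃ S : Finset ι, S = univ.filter fun i => label N (θ i) (c i) ∈ H := ⟨_, rfl⟩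
    have hSm : ∀ i, i ∈ S ↔ label N (θ i) (c i) ∈ H := by
      intro i
      rw [hS, mem_filter]
      exact ⟨fun h => h.2, fun h => ⟨mem_univ _, h⟩⟩
    have hlab : labels N (fun i : {i // i ∈ S} => θ i) (fun i : {i // i ∈ S} => c i) = H :=
      labels_sub hH hSm
    have hK' : ∀ z : Fin d → ℤ, ∀ s : Finset {i // i ∈ S},
        (∀ i ∈ s, cell N (θ i) = z) → s.card ≤ K := by
      intro z s hs
      have h1 := hK z (s.map (Function.Embedding.subtype _)) (by
        intro i hi
        rw [mem_map] at hi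
        obtain ⟨j, hj, rfl⟩ := hi
        exact hs j hj)
      rwa [card_map] at h1
    have hHS : H.card ≤ Fintype.card {i // i ∈ S} := by
      rw [← hlab]
      unfold labels
      exact card_image_le
    -- the volume of the part
    have hvol' : volume (⋃ i : {i // i ∈ S}, tube N (θ i) (c i)) ≤
        ENNReal.ofReal (N ^ (-(ε / 4))) * ∑ i : {i // i ∈ S}, volume (tube N (θ i) (c i)) := by
      have h1 : volume (⋃ i : {i // i ∈ S}, tube N (θ i) (c i)) ≤
          volume (⋃ i, tube N (θ i) (c i)) := by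
        apply measure_mono
        intro x hx
        rw [Set.mem_iUnion] at hx ⊢
        obtain ⟨i, hi⟩ := hx
        exact ⟨i, hi⟩
      refine h1.trans (hvol.trans ?_)
      simp only [volume_tube hN0.le, sum_const, card_univ, nsmul_eq_mul]
      rw [← mul_assoc, ← mul_assoc]
      apply mul_le_mul' _ le_rfl
      have e1 : ((Fintype.card ι : ℕ) : ℝ≥0∞) = ENNReal.ofReal (Fintype.card ι : ℝ) := by
        rw [ENNReal.ofReal_natCast]
      have e2 : ((Fintype.card {i // i ∈ S} : ℕ) : ℝ≥0∞) =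
          ENNReal.ofReal (Fintype.card {i // i ∈ S} : ℝ) := by
        rw [ENNReal.ofReal_natCast]
      rw [e1, e2, ← ENNReal.ofReal_mul (by positivity), ← ENNReal.ofReal_mul (by positivity)]
      apply ENNReal.ofReal_le_ofReal
      have h2 : (Fintype.card ι : ℝ) ≤ K * ((labels N θ c).card : ℝ) := by
        exact_mod_cast card_le_labels (c := c) hK
      have h3 : (H.card : ℝ) ≤ (Fintype.card {i // i ∈ S} : ℝ) := by exact_mod_cast hHS
      have h4 : ((labels N θ c).card : ℝ) ≤ N ^ (ε / 2) * H.card := by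
        rw [Real.rpow_neg hN0.le] at hcard
        rwa [inv_mul_le_iff₀ (by positivity)] at hcard
      have h5 : (K : ℝ) ≤ N ^ (ε / 4) := hlarge
      have h6 : N ^ (-ε) * (N ^ (ε / 4) * N ^ (ε / 2)) = N ^ (-(ε / 4)) := by
        rw [← Real.rpow_add hN0, ← Real.rpow_add hN0]
        congr 1
        ring
      calc N ^ (-ε) * (Fintype.card ι : ℝ) ≤ N ^ (-ε) * (K * ((labels N θ c).card : ℝ)) := by
            gcongr
        _ ≤ N ^ (-ε) * (N ^ (ε / 4) * (N ^ (ε / 2) * H.card)) := by gcongr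
        _ = N ^ (-(ε / 4)) * H.card := by rw [← h6]; ring
        _ ≤ N ^ (-(ε / 4)) * (Fintype.card {i // i ∈ S} : ℝ) := by gcongr
    have h1 := h N hN {i // i ∈ S} (fun i => θ i) (fun i => c i) hK' hvol'
    rw [hlab] at h1
    refine h1.trans ?_
    have h8 : Real.log (2 / (ε / 4)) ≤ 3 * Λ := by
      have e1 : 3 * Λ = Real.log ((2 / ε) ^ 3) := by
        rw [Real.log_pow, hΛ]
        norm_num
      rw [e1]
      apply Real.log_le_log (by positivity)
      have e2 : 2 / (ε / 4) = 8 / ε := by field_simp; norm_num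
      have e3 : (2 / ε) ^ 3 = 8 / ε ^ 3 := by rw [div_pow]; norm_num
      rw [e2, e3]
      apply div_le_div_of_nonneg_left (by norm_num) (by positivity)
      calc ε ^ 3 = ε * ε ^ 2 := by ring
        _ ≤ ε * 1 := by
            gcongr
            exact pow_le_one₀ hε.le hε1
        _ = ε := mul_one ε
    have h80 : 0 < Real.log (2 / (ε / 4)) := by
      apply Real.log_pos
      rw [lt_div_iff₀ (by positivity)]
      linarith
    have h9 : a ≤ (ε / 4) ^ 2 / (A * Real.log (2 / (ε / 4))) := by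
      have e1 : a = (ε / 4) ^ 2 / (A * (3 * Λ)) := by
        rw [ha]
        field_simp
        norm_num
      rw [e1]
      apply div_le_div_of_nonneg_left (by positivity) (by positivity)
      gcongr
    have h10 : N ^ (-((ε / 4) ^ 2 / (A * Real.log (2 / (ε / 4))))) ≤ N ^ (-a) :=
      Real.rpow_le_rpow_of_exponent_le hN (neg_le_neg h9)
    have h11 : C ≤ C + K := by linarith
    have h12 : 0 < N ^ (-((ε / 4) ^ 2 / (A * Real.log (2 / (ε / 4))))) := by positivity
    gcongr

end Pool.Agent.MPac5134.AE
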