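import Pool.Agent.Lib.MP_ac5134_an.AE.Const

/-!
The measure of the bad heights, with a sharper exponent: the sets of differences at one height are
approximate groups, and a relation `∑ δ i = v` between `k + 1` heights gives the relation
`∑ (a i - a k) δ i = v'` between `k` of them.
-/

namespace Pool.Agent.MPac5134.AE

open Finset MeasureTheory
open scoped Pointwise ENNReal

/-- a real bound for the fibres gives a bound for the number of elements -/
theorem card_le_real {α β : Type*} [DecidableEq β] {S : Finset α} (f : α → β) {n : ℝ}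
    (h : ∀ b ∈ S.image f, (((S.filter fun a => f a = b).card : ℕ) : ℝ) ≤ n) :
    (S.card : ℝ) ≤ n * (S.image f).card := by
  rw [card_eq_sum_card_image f S]
  push_cast
  calc _ ≤ ∑ _b ∈ S.image f, n := sum_le_sum h
    _ = _ := by rw [sum_const, nsmul_eq_mul, mul_comm]

/-- representatives of the classes of a function -/
theorem exists_reps {α β : Type*} [DecidableEq α] [DecidableEq β] (A : Finset α) (f : α → β) :
    ∃ Y ⊆ A, Y.card ≤ (A.image f).card ∧ ∀ a ∈ A, ∃ y ∈ Y, f y = f a := by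
  have h : ∀ b : {b // b ∈ A.image f}, ∃ a ∈ A, f a = b := fun b => mem_image.1 b.2
  choose g hg1 hg2 using h
  refine ⟨(A.image f).attach.image g, ?_, ?_, ?_⟩
  · intro y hy
    rw [mem_image] at hy
    obtain ⟨b, -, rfl⟩ := hy
    exact hg1 b
  · exact card_image_le.trans (by rw [card_attach])
  · intro a ha
    exact ⟨g ⟨f a, mem_image_of_mem f ha⟩, mem_image_of_mem _ (mem_attach _ _), hg2 _⟩

/-- `n G - n G` is covered by few translates of `G - G` -/
theorem cover_DD {V : Type*} [AddCommGroup V] [DecidableEq V] {G : Finset V} (hG : G.Nonempty)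
    {L : ℝ} (hL : ((G + G).card : ℝ) ≤ L * G.card) (n : ℕ) :
    ((DD G n + G).card : ℝ) ≤ L ^ (2 * n + 1) * G.card ∧
    ∃ Y : Finset V, (Y.card : ℝ) ≤ L ^ (2 * n + 1) ∧ DD G n ⊆ Y + DD G 1 := by
  have h1 : ((DD G n + G).card : ℝ) ≤ L ^ (2 * n + 1) * G.card := by
    have h2 : DD G n + G = (n + 1) • G - n • G := by
      unfold DD
      rw [sub_eq_add_neg, add_right_comm, ← sub_eq_add_neg, ← succ_nsmul]
    rw [h2]
    have h3 := card_DD_le hG hL (n + 1) n
    have e : n + 1 + n = 2 * n + 1 := by ring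
    rw [e] at h3
    exact h3
  refine ⟨h1, ?_⟩
  obtain ⟨Y, -, hY, hcov⟩ := ruzsa_covering_add hG h1
  refine ⟨Y, hY, hcov.trans ?_⟩
  unfold DD
  rw [one_nsmul]

variable {σ κ : Type*} [Fintype σ] [DecidableEq σ] [Fintype κ] [DecidableEq κ]

/-- the elements `v` of `n G - n G` with `|y - 2 s ω| ≤ r` -/
noncomputable def AA (G : Finset (σ → ℤ)) (om yy : (σ → ℤ) →+ (κ → ℤ)) (n : ℕ) (r s : ℝ) :
    Finset (σ → ℤ) :=
  open Classical in
  (DD G n).filter fun g => ∀ k, |((yy g k : ℤ) : ℝ) - 2 * s * ((om g k : ℤ) : ℝ)| ≤ r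

section AA

variable {G : Finset (σ → ℤ)} {om yy : (σ → ℤ) →+ (κ → ℤ)} {s : ℝ}

omit [DecidableEq σ] in
theorem mem_AA {n : ℕ} {r : ℝ} {g : σ → ℤ} :
    g ∈ AA G om yy n r s ↔ g ∈ DD G n ∧
      ∀ k, |((yy g k : ℤ) : ℝ) - 2 * s * ((om g k : ℤ) : ℝ)| ≤ r := by
  unfold AA
  exact mem_filter

theorem AA_add {n n' : ℕ} {r r' : ℝ} {a b : σ → ℤ} (ha : a ∈ AA G om yy n r s)
    (hb : b ∈ AA G om yy n' r' s) : a + b ∈ AA G om yy (n + n') (r + r') s := by
  rw [mem_AA] at *
  refine ⟨DD_add ha.1 hb.1, fun k => ?_⟩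
  have h1 := ha.2 k
  have h2 := hb.2 k
  rw [map_add, map_add, Pi.add_apply, Pi.add_apply]
  push_cast
  rw [abs_le] at *
  constructor <;> linarith [h1.1, h1.2, h2.1, h2.2]

theorem AA_neg {n : ℕ} {r : ℝ} {a : σ → ℤ} (ha : a ∈ AA G om yy n r s) :
    -a ∈ AA G om yy n r s := by
  rw [mem_AA] at *
  refine ⟨DD_neg ha.1, fun k => ?_⟩
  have h1 := ha.2 k
  rw [map_neg, map_neg, Pi.neg_apply, Pi.neg_apply]
  push_cast
  rw [abs_le] at *
  constructor <;> linarith [h1.1, h1.2]

theorem AA_sub {n n' : ℕ} {r r' : ℝ} {a b : σ → ℤ} (ha : a ∈ AA G om yy n r s)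
    (hb : b ∈ AA G om yy n' r' s) : a - b ∈ AA G om yy (n + n') (r + r') s := by
  rw [sub_eq_add_neg]
  exact AA_add ha (AA_neg hb)

theorem AA_zero (hG : G.Nonempty) {n : ℕ} {r : ℝ} (hr : 0 ≤ r) :
    (0 : σ → ℤ) ∈ AA G om yy n r s := by
  rw [mem_AA]
  refine ⟨DD_mono hG (Nat.zero_le n) DD_zero, fun k => ?_⟩
  rw [map_zero, map_zero]
  simpa using hr

theorem AA_mono (hG : G.Nonempty) {n n' : ℕ} {r r' : ℝ} (hn : n ≤ n') (hr : r ≤ r') :
    AA G om yy n r s ⊆ AA G om yy n' r' s := by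
  intro a ha
  rw [mem_AA] at *
  exact ⟨DD_mono hG hn ha.1, fun k => (ha.2 k).trans hr⟩

/-- the approximate group at one height -/
theorem cover_AA (hG : G.Nonempty) {L : ℝ} (hL : ((G + G).card : ℝ) ≤ L * G.card) {c : ℝ}
    (hc : 0 < c) :
    ∃ Y : Finset (σ → ℤ), (Y.card : ℝ) ≤ 9 ^ Fintype.card κ * L ^ 17 ∧
      AA G om yy 8 (8 * c) s ⊆ Y + AA G om yy 2 (2 * c) s := by
  classical
  obtain ⟨-, Z, hZ, hZcov⟩ := cover_DD hG hL 8
  -- the decomposition
  have hdec : ∀ v : σ → ℤ, ∃ z : σ → ℤ, v ∈ AA G om yy 8 (8 * c) s → z ∈ Z ∧ v - z ∈ DD G 1 := by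
    intro v
    by_cases hv : v ∈ AA G om yy 8 (8 * c) s
    · have h1 := hZcov (mem_AA.1 hv).1
      rw [mem_add] at h1
      obtain ⟨z, hz, g, hg, rfl⟩ := h1
      exact ⟨z, fun _ => ⟨hz, by rwa [add_sub_cancel_left]⟩⟩
    · exact ⟨0, fun h => absurd h hv⟩
  choose z hz using hdec
  set cel : (σ → ℤ) → κ → ℤ := fun v k =>
    ⌊(((yy v k : ℤ) : ℝ) - 2 * s * ((om v k : ℤ) : ℝ)) / (2 * c)⌋ with hcel
  obtain ⟨Y, hYA, hYc, hY⟩ := exists_reps (AA G om yy 8 (8 * c) s) fun v => (z v, cel v)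
  have hsub : ((AA G om yy 8 (8 * c) s).image fun v => (z v, cel v)) ⊆
      Z ×ˢ Fintype.piFinset fun _ : κ => Icc (-4 : ℤ) 4 := by
    intro p hp
    rw [mem_image] at hp
    obtain ⟨v, hv, rfl⟩ := hp
    rw [mem_product, Fintype.mem_piFinset]
    refine ⟨(hz v hv).1, fun k => ?_⟩
    have h1 := (mem_AA.1 hv).2 k
    rw [abs_le] at h1
    rw [mem_Icc]
    have hc2 : 0 < 2 * c := by linarith
    constructor
    · rw [Int.le_floor, le_div_iff₀ hc2]
      push_cast
      linarith [h1.1]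
    · have h2 : (((yy v k : ℤ) : ℝ) - 2 * s * ((om v k : ℤ) : ℝ)) / (2 * c) ≤ 4 := by
        rw [div_le_iff₀ hc2]
        linarith [h1.2]
      have h3 := Int.floor_le ((((yy v k : ℤ) : ℝ) - 2 * s * ((om v k : ℤ) : ℝ)) / (2 * c))
      have h4 : ((⌊(((yy v k : ℤ) : ℝ) - 2 * s * ((om v k : ℤ) : ℝ)) / (2 * c)⌋ : ℤ) : ℝ) ≤ 4 :=
        h3.trans h2
      exact_mod_cast h4
  refine ⟨Y, ?_, ?_⟩
  · have h1 : Y.card ≤ Z.card * 9 ^ Fintype.card κ := by
      refine hYc.trans ((card_le_card hsub).trans ?_)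
      have h9 : (Icc (-4 : ℤ) 4).card = 9 := by decide
      rw [card_product, Fintype.card_piFinset, prod_const, card_univ, h9]
    have h2 : (Y.card : ℝ) ≤ Z.card * 9 ^ Fintype.card κ := by exact_mod_cast h1
    refine h2.trans ?_
    rw [mul_comm]
    gcongr
  · intro v hv
    obtain ⟨y, hy, hyv⟩ := hY v hv
    rw [Prod.mk.injEq] at hyv
    rw [mem_add]
    refine ⟨y, hy, v - y, ?_, by abel⟩
    have hyA := hYA hy
    rw [mem_AA]
    constructor
    · have h1 := (hz v hv).2
      have h2 := (hz y hyA).2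
      rw [hyv.1] at h2
      have h3 := DD_sub h1 h2
      have e : v - z v - (y - z v) = v - y := by abel
      rw [e] at h3
      exact h3
    · intro k
      have h1 := congrFun hyv.2 k
      simp only [hcel] at h1
      have h2 := Int.abs_sub_lt_one_of_floor_eq_floor h1
      rw [← sub_div, abs_div, abs_of_pos (by linarith : 0 < 2 * c), div_lt_one (by linarith)] at h2
      rw [map_sub, map_sub, Pi.sub_apply, Pi.sub_apply]
      push_cast
      rw [abs_le]
      rw [abs_lt] at h2
      constructor <;> linarith [h2.1, h2.2]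

/-- dilates of the approximate group at one height -/
theorem dil_AA (hG : G.Nonempty) {L : ℝ} (hL : ((G + G).card : ℝ) ≤ L * G.card) {c : ℝ}
    (hc : 0 < c) (t : ℕ) : ∀ b : ℕ, b < 2 ^ t →
    ∃ X : Finset (σ → ℤ), (X.card : ℝ) ≤ (9 ^ Fintype.card κ * L ^ 17) ^ t ∧
      ∀ w ∈ AA G om yy 4 (4 * c) s, b • w ∈ X + AA G om yy 2 (2 * c) s := by
  classical
  obtain ⟨Y, hY, hYcov⟩ := cover_AA (om := om) (yy := yy) (s := s) hG hL hc
  have hL1 : 1 ≤ L := one_le_doubling hG hL
  induction t with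
  | zero =>
    intro b hb
    refine ⟨{0}, by simp, ?_⟩
    intro w _
    rw [pow_zero] at hb
    have h1 : b = 0 := by omega
    rw [h1, zero_smul, mem_add]
    exact ⟨0, mem_singleton_self _, 0, AA_zero hG (by linarith), add_zero _⟩
  | succ t ih =>
    intro b hb
    obtain ⟨X, hX, hXm⟩ := ih (b / 2) (by rw [pow_succ] at hb; omega)
    refine ⟨X.image (fun x => 2 • x) + Y, ?_, ?_⟩
    · have h1 : ((X.image (fun x => 2 • x) + Y).card : ℝ) ≤ X.card * Y.card := by
        have h2 : (X.image (fun x => 2 • x) + Y).card ≤ X.card * Y.card :=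
          card_add_le.trans (Nat.mul_le_mul_right _ card_image_le)
        exact_mod_cast h2
      rw [pow_succ]
      refine h1.trans ?_
      gcongr
    · intro w hw
      have h1 := hXm w hw
      rw [mem_add] at h1
      obtain ⟨x, hx, g, hg, hxg⟩ := h1
      have h2 : b • w = 2 • x + (2 • g + (b % 2) • w) := by
        have e : b • w = 2 • ((b / 2) • w) + (b % 2) • w := by
          rw [smul_smul, ← add_smul]
          congr 1
          omega
        rw [e, ← hxg, smul_add]
        abel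
      have h3 : 2 • g + (b % 2) • w ∈ AA G om yy 8 (8 * c) s := by
        have h4 : 2 • g ∈ AA G om yy 4 (4 * c) s := by
          rw [two_nsmul]
          have h5 := AA_add hg hg
          have e : 2 * c + 2 * c = 4 * c := by ring
          rw [e] at h5
          exact h5
        have h5 : (b % 2) • w ∈ AA G om yy 4 (4 * c) s := by
          have h6 : b % 2 = 0 ∨ b % 2 = 1 := by omega
          rcases h6 with h6 | h6
          · rw [h6, zero_smul]
            exact AA_zero hG (by linarith)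
          · rw [h6, one_smul]
            exact hw
        have h6 := AA_add h4 h5
        have e : 4 * c + 4 * c = 8 * c := by ring
        rw [e] at h6
        exact h6
      have h8 := hYcov h3
      rw [mem_add] at h8
      obtain ⟨y, hy, g', hg', hyg⟩ := h8
      rw [h2, ← hyg, ← add_assoc, mem_add]
      exact ⟨2 • x + y, add_mem_add (mem_image_of_mem _ hx) hy, g', hg', rfl⟩

/-- the elements of `n G - n G` whose first part is near a given vector -/
theorem near_le (hG : G.Nonempty) {L : ℝ} (hL : ((G + G).card : ℝ) ≤ L * G.card) {K : ℕ}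
    (hK : ∀ z, (G.filter fun g => om g = z).card ≤ K) (n B : ℕ) (u : κ → ℤ) :
    ((((DD G n).filter fun f => ∀ k, |om f k + u k| ≤ (B : ℤ)).card : ℕ) : ℝ) ≤
      (4 * B + 1) ^ Fintype.card κ * (K * L ^ (4 * n + 1)) := by
  classical
  have hL1 : 1 ≤ L := one_le_doubling hG hL
  set F := (DD G n).filter fun f => ∀ k, |om f k + u k| ≤ (B : ℤ) with hF
  rcases F.eq_empty_or_nonempty with h0 | ⟨f0, hf0⟩
  · rw [h0, card_empty, Nat.cast_zero]
    positivity
  have h1 : F.card ≤ ((DD G (2 * n)).filter fun f => ∀ k, |om f k| ≤ ((2 * B : ℕ) : ℤ)).card := by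
    apply card_le_card_of_injOn (fun f => f - f0)
    · intro f hf
      rw [mem_coe, hF, mem_filter] at hf
      rw [hF, mem_filter] at hf0
      rw [mem_coe, mem_filter]
      constructor
      · rw [two_mul]
        exact DD_sub hf.1 hf0.1
      · intro k
        have h2 := hf.2 k
        have h3 := hf0.2 k
        rw [map_sub, Pi.sub_apply]
        push_cast
        rw [abs_le] at *
        constructor <;> linarith [h2.1, h2.2, h3.1, h3.2]
    · intro f _ f' _ h
      exact sub_left_injective h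
  have h2 := fibre_le hG (cover_DD hG hL (2 * n)).1 om hK (2 * B)
  have h3 : (F.card : ℝ) ≤
      (((DD G (2 * n)).filter fun f => ∀ k, |om f k| ≤ ((2 * B : ℕ) : ℤ)).card : ℝ) := by
    exact_mod_cast h1
  refine h3.trans (h2.trans (le_of_eq ?_))
  push_cast
  congr 2
  · ring
  · congr 2
    ring

end AA

section Induction

variable {G : Finset (σ → ℤ)} {om yy : (σ → ℤ) →+ (κ → ℤ)}

/-- the tuples of differences at the heights `s0 + a i / q` with sum `v` -/
noncomputable def FF (G : Finset (σ → ℤ)) (om yy : (σ → ℤ) →+ (κ → ℤ)) (c s0 q : ℝ) {k : ℕ}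
    (a : Fin k → ℕ) (v : σ → ℤ) : Finset (Fin k → σ → ℤ) :=
  (Fintype.piFinset fun i => AA G om yy 2 (2 * c) (s0 + a i / q)).filter fun δ => ∑ i, δ i = v

theorem mem_FF {c s0 q : ℝ} {k : ℕ} {a : Fin k → ℕ} {v : σ → ℤ} {δ : Fin k → σ → ℤ} :
    δ ∈ FF G om yy c s0 q a v ↔
      (∀ i, δ i ∈ AA G om yy 2 (2 * c) (s0 + a i / q)) ∧ ∑ i, δ i = v := by
  unfold FF
  rw [mem_filter, Fintype.mem_piFinset]

/-- tuples whose sum has first part near a given vector -/
theorem QQ_le (hG : G.Nonempty) {L : ℝ} (hL : ((G + G).card : ℝ) ≤ L * G.card) {K : ℕ}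
    (hK : ∀ z, (G.filter fun g => om g = z).card ≤ K) {c s0 q : ℝ} {k m : ℕ} (hk : k ≤ m)
    {a : Fin k → ℕ} {T : ℝ} (hT0 : 0 ≤ T) (hT : ∀ v, ((FF G om yy c s0 q a v).card : ℝ) ≤ T)
    (B : ℕ) (u : κ → ℤ) :
    ((((Fintype.piFinset fun i => AA G om yy 2 (2 * c) (s0 + a i / q)).filter fun d =>
      ∀ j, |om (∑ i, d i) j + u j| ≤ (B : ℤ)).card : ℕ) : ℝ) ≤
      T * ((4 * B + 1) ^ Fintype.card κ * (K * L ^ (8 * m + 1))) := by
  classical
  have hL1 : 1 ≤ L := one_le_doubling hG hL
  set Q := (Fintype.piFinset fun i => AA G om yy 2 (2 * c) (s0 + a i / q)).filter fun d =>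
      ∀ j, |om (∑ i, d i) j + u j| ≤ (B : ℤ) with hQ
  have h1 := card_le_real (S := Q) (fun d : Fin k → σ → ℤ => ∑ i, d i) (n := T) (by
    intro v _
    refine le_trans ?_ (hT v)
    have h2 : (Q.filter fun d => ∑ i, d i = v).card ≤ (FF G om yy c s0 q a v).card := by
      apply card_le_card
      intro d hd
      rw [mem_filter, hQ, mem_filter, Fintype.mem_piFinset] at hd
      rw [mem_FF]
      exact ⟨hd.1.1, hd.2⟩
    exact_mod_cast h2)
  refine h1.trans (mul_le_mul_of_nonneg_left ?_ hT0)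
  have h2 : (Q.image fun d : Fin k → σ → ℤ => ∑ i, d i) ⊆
      (DD G (2 * m)).filter fun f => ∀ j, |om f j + u j| ≤ (B : ℤ) := by
    intro v hv
    rw [mem_image] at hv
    obtain ⟨d, hd, rfl⟩ := hv
    rw [hQ, mem_filter, Fintype.mem_piFinset] at hd
    rw [mem_filter]
    refine ⟨?_, hd.2⟩
    have h3 : ∑ i, d i ∈ DD G (∑ _i : Fin k, 2) := DD_sum _ _ _ fun i _ => (mem_AA.1 (hd.1 i)).1
    rw [sum_const, card_univ, Fintype.card_fin, smul_eq_mul] at h3
    exact DD_mono hG (by omega) h3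
  have h3 : ((Q.image fun d : Fin k → σ → ℤ => ∑ i, d i).card : ℝ) ≤
      (((DD G (2 * m)).filter fun f => ∀ j, |om f j + u j| ≤ (B : ℤ)).card : ℝ) := by
    exact_mod_cast card_le_card h2
  refine h3.trans ((near_le hG hL hK (2 * m) B u).trans (le_of_eq ?_))
  have e : 4 * (2 * m) + 1 = 8 * m + 1 := by ring
  rw [e]

/-- the number of tuples with a given sum -/
theorem FF_le (hG : G.Nonempty) {L : ℝ} (hL : ((G + G).card : ℝ) ≤ L * G.card) {K : ℕ}
    (hK : ∀ z, (G.filter fun g => om g = z).card ≤ K) {c s0 q : ℝ} (hc : 0 < c) (hq : 0 < q)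
    {m M t B : ℕ} (hM : M < 2 ^ t) (hB : 2 * c * q * m ≤ B) : ∀ k ≤ m, ∀ a : Fin k → ℕ,
    Function.Injective a → (∀ i, a i ≤ M) → ∀ v, ((FF G om yy c s0 q a v).card : ℝ) ≤
      (((9 ^ Fintype.card κ * L ^ 17) ^ t) ^ m *
        ((4 * B + 1) ^ Fintype.card κ * (K * L ^ (8 * m + 1)))) ^ k := by
  classical
  have hL1 : 1 ≤ L := one_le_doubling hG hL
  set Ξ : ℝ := (9 ^ Fintype.card κ * L ^ 17) ^ t with hΞ
  have hΞ1 : 1 ≤ Ξ := by
    apply one_le_pow₀
    exact one_le_mul_of_one_le_of_one_le (one_le_pow₀ (by norm_num)) (one_le_pow₀ hL1)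
  set Φ : ℝ := (4 * B + 1) ^ Fintype.card κ * (K * L ^ (8 * m + 1)) with hΦ
  have hΦ0 : 0 ≤ Φ := by positivity
  intro k
  induction k with
  | zero =>
    intro _ a _ _ v
    rw [pow_zero]
    have h1 : (FF G om yy c s0 q a v).card ≤ 1 :=
      card_le_one.2 fun x _ y _ => Subsingleton.elim x y
    exact_mod_cast h1
  | succ k ih =>
    intro hk a ha haM v
    rcases (FF G om yy c s0 q a v).eq_empty_or_nonempty with h0 | ⟨δ0, hδ0⟩
    · rw [h0, card_empty, Nat.cast_zero]
      positivity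
    have hT := ih (by omega) (fun i => a i.castSucc)
      (ha.comp (Fin.castSucc_injective k)) (fun i => haM _)
    set T : ℝ := (Ξ ^ m * Φ) ^ k with hTdef
    have hT0 : 0 ≤ T := by positivity
    -- the coefficients
    obtain ⟨β, hβ⟩ : ∃ β : Fin k → ℤ, ∀ i, β i = (a i.castSucc : ℤ) - a (Fin.last k) :=
      ⟨fun i => (a i.castSucc : ℤ) - a (Fin.last k), fun _ => rfl⟩
    have hβ0 : ∀ i, β i ≠ 0 := by
      intro i h
      rw [hβ] at h
      have h1 : a i.castSucc = a (Fin.last k) := by omega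
      have h2 := ha h1
      exact absurd h2 (Fin.castSucc_lt_last i).ne
    have hβt : ∀ i, (β i).natAbs < 2 ^ t := by
      intro i
      have h1 := haM i.castSucc
      have h2 := haM (Fin.last k)
      have h3 := hβ i
      have h4 : (β i).natAbs ≤ M := by omega
      omega
    choose X hX hXm using fun i : Fin k =>
      dil_AA (om := om) (yy := yy) (s := s0 + a i.castSucc / q) hG hL hc t _ (hβt i)
    have hXm' : ∀ (i : Fin k), ∀ w ∈ AA G om yy 4 (4 * c) (s0 + a i.castSucc / q),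
        β i • w ∈ X i + AA G om yy 2 (2 * c) (s0 + a i.castSucc / q) := by
      intro i w hw
      rcases le_or_gt 0 (β i) with h | h
      · have h1 := hXm i w hw
        have e : β i • w = (β i).natAbs • w := by
          rw [← natCast_zsmul, Int.natCast_natAbs, abs_of_nonneg h]
        rw [e]
        exact h1
      · have h1 := hXm i (-w) (AA_neg hw)
        have e : β i • w = (β i).natAbs • (-w) := by
          rw [← natCast_zsmul, Int.natCast_natAbs, abs_of_neg h, smul_neg, neg_smul, neg_neg]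
        rw [e]
        exact h1
    -- the decomposition
    have hdec : ∀ δ : Fin (k + 1) → σ → ℤ, ∃ x d : Fin k → σ → ℤ, δ ∈ FF G om yy c s0 q a v →
        (∀ i, x i ∈ X i) ∧ (∀ i, d i ∈ AA G om yy 2 (2 * c) (s0 + a i.castSucc / q)) ∧
        ∀ i, x i + d i = β i • (δ i.castSucc - δ0 i.castSucc) := by
      intro δ
      by_cases hδ : δ ∈ FF G om yy c s0 q a v
      · have h1 : ∀ i : Fin k, ∃ x d : σ → ℤ, x ∈ X i ∧
            d ∈ AA G om yy 2 (2 * c) (s0 + a i.castSucc / q) ∧
            x + d = β i • (δ i.castSucc - δ0 i.castSucc) := by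
          intro i
          have h2 := AA_sub ((mem_FF.1 hδ).1 i.castSucc) ((mem_FF.1 hδ0).1 i.castSucc)
          have e : 2 * c + 2 * c = 4 * c := by ring
          rw [e] at h2
          have h3 := hXm' i _ h2
          rw [mem_add] at h3
          obtain ⟨x, hx, d, hd, hxd⟩ := h3
          exact ⟨x, d, hx, hd, hxd⟩
        choose x d hx hd hxd using h1
        exact ⟨x, d, fun _ => ⟨hx, hd, hxd⟩⟩
      · exact ⟨fun _ => 0, fun _ => 0, fun h => absurd h hδ⟩
    choose x d hxd using hdec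
    set P := ((Fintype.piFinset X) ×ˢ
      (Fintype.piFinset fun i : Fin k => AA G om yy 2 (2 * c) (s0 + a i.castSucc / q))).filter
        fun p => ∀ j, |om (∑ i, p.2 i) j + om (∑ i, p.1 i) j| ≤ (B : ℤ) with hP
    have hFP : (FF G om yy c s0 q a v).card ≤ P.card := by
      apply card_le_card_of_injOn (fun δ => (x δ, d δ))
      · intro δ hδ
        rw [mem_coe] at hδ
        obtain ⟨h1, h2, h3⟩ := hxd δ hδ
        rw [mem_coe, hP, mem_filter, mem_product, Fintype.mem_piFinset, Fintype.mem_piFinset]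
        refine ⟨⟨h1, h2⟩, fun j => ?_⟩
        -- the first part
        set w : Fin (k + 1) → σ → ℤ := fun i => δ i - δ0 i with hw
        have hw0 : ∑ i, w i = 0 := by
          rw [hw, sum_sub_distrib, (mem_FF.1 hδ).2, (mem_FF.1 hδ0).2, sub_self]
        have hwA : ∀ i, w i ∈ AA G om yy 4 (4 * c) (s0 + a i / q) := by
          intro i
          have h4 := AA_sub ((mem_FF.1 hδ).1 i) ((mem_FF.1 hδ0).1 i)
          have e : 2 * c + 2 * c = 4 * c := by ring
          rw [e] at h4
          exact h4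
        have e1 : om (∑ i, d δ i) j + om (∑ i, x δ i) j =
            ∑ i : Fin k, β i * om (w i.castSucc) j := by
          rw [map_sum, map_sum, Finset.sum_apply, Finset.sum_apply, ← sum_add_distrib]
          apply sum_congr rfl
          intro i _
          have h4 := congrArg (fun z => om z j) (h3 i)
          simp only [map_add, Pi.add_apply, map_zsmul, Pi.smul_apply, smul_eq_mul] at h4
          rw [add_comm]
          exact h4
        have e2 : ∑ i : Fin (k + 1), ((a i : ℤ) - a (Fin.last k)) * om (w i) j =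
            ∑ i : Fin k, β i * om (w i.castSucc) j := by
          rw [Fin.sum_univ_castSucc, sub_self, zero_mul, add_zero]
          apply sum_congr rfl
          intro i _
          rw [hβ]
        have e3 : ∑ i : Fin (k + 1), om (w i) j = 0 := by
          have h4 := congrArg (fun z => om z j) hw0
          simp only [map_sum, Finset.sum_apply, map_zero, Pi.zero_apply] at h4
          exact h4
        have e4 : ∑ i : Fin (k + 1), yy (w i) j = 0 := by
          have h4 := congrArg (fun z => yy z j) hw0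
          simp only [map_sum, Finset.sum_apply, map_zero, Pi.zero_apply] at h4
          exact h4
        have e3' : ∑ i : Fin (k + 1), ((om (w i) j : ℤ) : ℝ) = 0 := by exact_mod_cast e3
        have e4' : ∑ i : Fin (k + 1), ((yy (w i) j : ℤ) : ℝ) = 0 := by exact_mod_cast e4
        have e5 : ∑ i : Fin (k + 1), (((yy (w i) j : ℤ) : ℝ) -
            2 * (s0 + a i / q) * ((om (w i) j : ℤ) : ℝ)) =
            -(2 / q) * ∑ i : Fin (k + 1), (((a i : ℝ) - a (Fin.last k)) *
              ((om (w i) j : ℤ) : ℝ)) := by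
          have e6 : ∀ i : Fin (k + 1), (((yy (w i) j : ℤ) : ℝ) -
              2 * (s0 + a i / q) * ((om (w i) j : ℤ) : ℝ)) =
              ((yy (w i) j : ℤ) : ℝ) - (2 * s0 + 2 / q * a (Fin.last k)) *
                ((om (w i) j : ℤ) : ℝ) -
              (2 / q) * (((a i : ℝ) - a (Fin.last k)) * ((om (w i) j : ℤ) : ℝ)) := by
            intro i
            ring
          rw [sum_congr rfl fun i _ => e6 i, sum_sub_distrib, sum_sub_distrib, ← mul_sum,
            ← mul_sum, e3', e4']
          ring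
        have h5 : |∑ i : Fin (k + 1), (((yy (w i) j : ℤ) : ℝ) -
            2 * (s0 + a i / q) * ((om (w i) j : ℤ) : ℝ))| ≤ m * (4 * c) := by
          refine (abs_sum_le_sum_abs _ _).trans ?_
          calc _ ≤ ∑ _i : Fin (k + 1), 4 * c := sum_le_sum fun i _ => (mem_AA.1 (hwA i)).2 j
            _ = ((k + 1 : ℕ) : ℝ) * (4 * c) := by
                rw [sum_const, card_univ, Fintype.card_fin, nsmul_eq_mul]
            _ ≤ m * (4 * c) := by
                apply mul_le_mul_of_nonneg_right _ (by linarith)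
                exact_mod_cast hk
        rw [e5, abs_mul, abs_neg, abs_of_pos (by positivity : 0 < 2 / q)] at h5
        have e7 : ∑ i : Fin (k + 1), (((a i : ℝ) - a (Fin.last k)) * ((om (w i) j : ℤ) : ℝ)) =
            ((∑ i : Fin k, β i * om (w i.castSucc) j : ℤ) : ℝ) := by
          rw [← e2]
          push_cast
          rfl
        rw [e7] at h5
        have h6 : |((∑ i : Fin k, β i * om (w i.castSucc) j : ℤ) : ℝ)| ≤ B := by
          refine le_trans ?_ hB
          have e8 : |((∑ i : Fin k, β i * om (w i.castSucc) j : ℤ) : ℝ)| =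
              q / 2 * (2 / q * |((∑ i : Fin k, β i * om (w i.castSucc) j : ℤ) : ℝ)|) := by
            field_simp
          rw [e8]
          calc _ ≤ q / 2 * (m * (4 * c)) := mul_le_mul_of_nonneg_left h5 (by positivity)
            _ = 2 * c * q * m := by ring
        show |om (∑ i, d δ i) j + om (∑ i, x δ i) j| ≤ (B : ℤ)
        rw [e1]
        exact_mod_cast h6
      · intro δ hδ δ' hδ' h
        rw [mem_coe] at hδ hδ'
        obtain ⟨-, -, h3⟩ := hxd δ hδ
        obtain ⟨-, -, h3'⟩ := hxd δ' hδ'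
        rw [Prod.mk.injEq] at h
        have h4 : ∀ i : Fin k, δ i.castSucc = δ' i.castSucc := by
          intro i
          have h5 : β i • (δ i.castSucc - δ0 i.castSucc) = β i • (δ' i.castSucc - δ0 i.castSucc) := by
            rw [← h3, ← h3', h.1, h.2]
          have h6 := smul_right_injective (σ → ℤ) (hβ0 i) h5
          exact sub_left_injective h6
        have h5 : δ (Fin.last k) = δ' (Fin.last k) := by
          have h6 := (mem_FF.1 hδ).2
          have h7 := (mem_FF.1 hδ').2
          rw [Fin.sum_univ_castSucc] at h6 h7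
          rw [sum_congr rfl fun i _ => h4 i] at h6
          exact add_left_cancel (h6.trans h7.symm)
        funext i
        refine Fin.lastCases h5 (fun i => h4 i) i
    -- the number of pairs
    have hP1 := card_le_real (S := P) (Prod.fst : ((Fin k → σ → ℤ) × (Fin k → σ → ℤ)) → _)
      (n := T * Φ) (by
      intro z _
      refine le_trans ?_ (QQ_le hG hL hK (c := c) (s0 := s0) (q := q) (m := m) (by omega)
        hT0 hT B (fun j => om (∑ i, z i) j))
      have h2 : (P.filter fun p => p.1 = z).card ≤ ((Fintype.piFinset fun i : Fin k =>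
          AA G om yy 2 (2 * c) (s0 + a i.castSucc / q)).filter fun d =>
          ∀ j, |om (∑ i, d i) j + om (∑ i, z i) j| ≤ (B : ℤ)).card := by
        apply card_le_card_of_injOn Prod.snd
        · intro p hp
          rw [mem_coe, mem_filter, hP, mem_filter, mem_product] at hp
          rw [mem_coe, mem_filter]
          refine ⟨hp.1.1.2, ?_⟩
          rw [← hp.2]
          exact hp.1.2
        · intro p hp p' hp' h
          rw [mem_coe, mem_filter] at hp hp'
          exact Prod.ext (hp.2.trans hp'.2.symm) h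
      exact_mod_cast h2)
    have hP2 : ((P.image Prod.fst).card : ℝ) ≤ Ξ ^ m := by
      have h2 : P.image Prod.fst ⊆ Fintype.piFinset X := by
        intro z hz
        rw [mem_image] at hz
        obtain ⟨p, hp, rfl⟩ := hz
        rw [hP, mem_filter, mem_product] at hp
        exact hp.1.1
      have h3 : ((P.image Prod.fst).card : ℝ) ≤ ((Fintype.piFinset X).card : ℝ) := by
        exact_mod_cast card_le_card h2
      refine h3.trans ?_
      rw [Fintype.card_piFinset]
      push_cast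
      calc ∏ i, ((X i).card : ℝ) ≤ ∏ _i : Fin k, Ξ :=
            prod_le_prod (fun i _ => Nat.cast_nonneg _) fun i _ => hX i
        _ = Ξ ^ k := by rw [prod_const, card_univ, Fintype.card_fin]
        _ ≤ Ξ ^ m := pow_le_pow_right₀ hΞ1 (by omega)
    calc ((FF G om yy c s0 q a v).card : ℝ) ≤ P.card := by exact_mod_cast hFP
      _ ≤ T * Φ * (P.image Prod.fst).card := hP1
      _ ≤ T * Φ * Ξ ^ m := mul_le_mul_of_nonneg_left hP2 (by positivity)
      _ = (Ξ ^ m * Φ) ^ (k + 1) := by rw [hTdef, pow_succ]; ring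

/-- the product at commensurable heights -/
theorem prod_le_sharp (hG : G.Nonempty) {L : ℝ} (hL : ((G + G).card : ℝ) ≤ L * G.card) {K : ℕ}
    (hK : ∀ z, (G.filter fun g => om g = z).card ≤ K) {c s0 q : ℝ} (hc : 0 < c) (hq : 0 < q)
    {m M t B : ℕ} (hM : M < 2 ^ t) (hB : 2 * c * q * m ≤ B) {a : Fin m → ℕ}
    (ha : Function.Injective a) (haM : ∀ i, a i ≤ M) :
    ∏ i, ((KK G om yy c (s0 + a i / q)).card : ℝ) ≤
      (((9 ^ Fintype.card κ * L ^ 17) ^ t) ^ m *
        ((4 * B + 1) ^ Fintype.card κ * (K * L ^ (8 * m + 1)))) ^ m * (L ^ (2 * m) * G.card) := by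
  classical
  have hL1 : 1 ≤ L := one_le_doubling hG hL
  set S := Fintype.piFinset fun i => KK G om yy c (s0 + a i / q) with hS
  have h0 : ∏ i, ((KK G om yy c (s0 + a i / q)).card : ℝ) = (S.card : ℝ) := by
    rw [hS, Fintype.card_piFinset]
    push_cast
    rfl
  rw [h0]
  set R : ℝ := (((9 ^ Fintype.card κ * L ^ 17) ^ t) ^ m *
        ((4 * B + 1) ^ Fintype.card κ * (K * L ^ (8 * m + 1)))) ^ m with hR
  have hR0 : 0 ≤ R := by positivity
  have hKA : ∀ s : ℝ, KK G om yy c s = AA G om yy 1 c s := fun s => rfl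
  have h1 := card_le_real (S := S) (fun z : Fin m → σ → ℤ => ∑ i, z i) (n := R) (by
    intro v hv
    rw [mem_image] at hv
    obtain ⟨z0, hz0, hz0v⟩ := hv
    refine le_trans ?_ (FF_le (om := om) (yy := yy) (c := c) (s0 := s0) (q := q) hG hL hK hc hq hM hB
      m le_rfl a ha haM 0)
    have h2 : (S.filter fun z => ∑ i, z i = v).card ≤ (FF G om yy c s0 q a 0).card := by
      apply card_le_card_of_injOn (fun z => z - z0)
      · intro z hz
        rw [mem_coe, mem_filter, hS, Fintype.mem_piFinset] at hz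
        rw [hS, Fintype.mem_piFinset] at hz0
        rw [mem_coe, mem_FF]
        constructor
        · intro i
          have h3 := hz.1 i
          have h4 := hz0 i
          rw [hKA] at h3 h4
          have h5 := AA_sub h3 h4
          have e : c + c = 2 * c := by ring
          rw [e] at h5
          exact h5
        · simp only [Pi.sub_apply]
          rw [sum_sub_distrib, hz.2, hz0v, sub_self]
      · intro z _ z' _ h
        exact sub_left_injective h
    exact_mod_cast h2)
  refine h1.trans (mul_le_mul_of_nonneg_left ?_ hR0)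
  have h2 : (S.image fun z : Fin m → σ → ℤ => ∑ i, z i) ⊆ DD G m := by
    intro v hv
    rw [mem_image] at hv
    obtain ⟨z, hz, rfl⟩ := hv
    rw [hS, Fintype.mem_piFinset] at hz
    have h3 : ∑ i, z i ∈ DD G (∑ _i : Fin m, 1) := DD_sum _ _ _ fun i _ => (mem_KK.1 (hz i)).1
    simpa using h3
  have h3 : ((S.image fun z : Fin m → σ → ℤ => ∑ i, z i).card : ℝ) ≤ (DD G m).card := by
    exact_mod_cast card_le_card h2
  refine h3.trans ?_
  have h4 := card_DD_le hG hL m m
  rw [two_mul]
  exact h4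

end Induction

/-- the measure of the bad heights, with an exponent of the order `m log (2 S q)` -/
theorem volume_bad_sharp (K : ℕ) {S : ℕ} (hS : 1 ≤ S) (c0 : ℝ) {A0 ε : ℝ}
    (hA : 1 ≤ A0) (e : ℕ) {m : ℕ} (hm : 1 ≤ m)
    (hmε : (e : ℝ) ≤ ε * m) {q : ℕ} (hq : 1 ≤ q) :
    ∃ C : ℝ, 1 ≤ C ∧ ∀ (om yy : (σ → ℤ) →+ (κ → ℤ)), Fintype.card κ = e →
      ∀ N : ℝ, 1 ≤ N → ∀ G : Finset (σ → ℤ), G.Nonempty →
      (∀ z, (G.filter fun g => om g = z).card ≤ K) → (G.card : ℝ) ≤ A0 * N ^ e →
      ∀ L : ℝ, ((G + G).card : ℝ) ≤ L * G.card →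
      volume {s : ℝ | s ∈ Set.Icc (-(S : ℝ)) S ∧
        C * N ^ ε * L ^ (28 * m * (Nat.log 2 (2 * S * q) + 1)) < (KK G om yy c0 s).card} ≤
        ENNReal.ofReal (m / q) := by
  classical
  have hq0 : (0:ℝ) < q := by exact_mod_cast hq
  obtain ⟨c, hc⟩ : ∃ c : ℝ, c = max c0 1 := ⟨_, rfl⟩
  have hcpos : 0 < c := by rw [hc]; exact lt_max_of_lt_right one_pos
  have hcc : c0 ≤ c := by rw [hc]; exact le_max_left _ _
  obtain ⟨M, hM⟩ : ∃ M : ℕ, M = 2 * S * q := ⟨_, rfl⟩
  obtain ⟨t, ht⟩ : ∃ t : ℕ, t = Nat.log 2 M + 1 := ⟨_, rfl⟩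
  have hMt : M < 2 ^ t := by rw [ht]; exact Nat.lt_pow_succ_log_self (by norm_num) M
  have ht1 : 1 ≤ t := by omega
  obtain ⟨B, hB⟩ : ∃ B : ℕ, B = ⌈2 * c * (q : ℝ) * m⌉₊ := ⟨_, rfl⟩
  obtain ⟨p, hp⟩ : ∃ p : ℕ, p = 17 * t * m + (8 * m + 1) := ⟨_, rfl⟩
  set C1 : ℝ := (((9 : ℝ) ^ e) ^ (t * m) * ((4 * B + 1 : ℝ) ^ e * K)) ^ m * A0 with hC1
  have hC10 : 0 ≤ C1 := by positivity
  refine ⟨C1 + 1, by linarith, ?_⟩
  intro om yy hκ N hN G hG hK hGc L hL
  have hN0 : 0 < N := by linarith
  have hL1 : 1 ≤ L := one_le_doubling hG hL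
  have hL0 : 0 < L := by linarith
  rw [← hM, ← ht]
  have hmono : ∀ s, (KK G om yy c0 s).card ≤ (KK G om yy c s).card := by
    intro s
    apply card_le_card
    intro v hv
    rw [mem_KK] at hv ⊢
    exact ⟨hv.1, fun j => (hv.2 j).trans hcc⟩
  refine le_trans (measure_mono ?_) (volume_bad_le (G := G) (om := om) (yy := yy) (c := c) hq hS hm
    hM.ge (X := (C1 + 1) * N ^ ε * L ^ (28 * m * t)) (by positivity) ?_)
  · intro s hs
    refine ⟨hs.1, lt_of_lt_of_le hs.2 ?_⟩
    exact_mod_cast hmono s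
  · intro s0 a ha haM
    have h1 := prod_le_sharp (om := om) (yy := yy) (c := c) (s0 := s0) hG hL hK hcpos hq0 hMt
      (B := B) (by rw [hB]; exact Nat.le_ceil _) ha haM
    rw [hκ] at h1
    refine h1.trans ?_
    have hp2 : p + 2 ≤ 28 * m * t := by
      rw [hp]
      nlinarith [Nat.mul_le_mul hm ht1, Nat.mul_le_mul_left m ht1]
    calc ((((9 : ℝ) ^ e * L ^ 17) ^ t) ^ m * ((4 * (B:ℝ) + 1) ^ e * (K * L ^ (8 * m + 1)))) ^ m *
            (L ^ (2 * m) * G.card) ≤
          ((((9 : ℝ) ^ e * L ^ 17) ^ t) ^ m * ((4 * (B:ℝ) + 1) ^ e * (K * L ^ (8 * m + 1)))) ^ m *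
            (L ^ (2 * m) * (A0 * N ^ e)) := by
          gcongr
      _ = C1 * (L ^ (p + 2)) ^ m * N ^ e := by
          have e1 : (((9 : ℝ) ^ e * L ^ 17) ^ t) ^ m * ((4 * (B:ℝ) + 1) ^ e * (K * L ^ (8 * m + 1))) =
              (((9 : ℝ) ^ e) ^ (t * m) * ((4 * B + 1 : ℝ) ^ e * K)) * L ^ p := by
            rw [hp, ← pow_mul, mul_pow, ← pow_mul L 17, pow_add]
            ring_nf
          rw [e1, mul_pow, hC1, pow_add L p 2, mul_pow (L ^ p), ← pow_mul L 2 m]
          ring
      _ ≤ C1 * (L ^ (28 * m * t)) ^ m * N ^ e := by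
          have h5 : L ^ (p + 2) ≤ L ^ (28 * m * t) := pow_le_pow_right₀ hL1 hp2
          gcongr
      _ ≤ (C1 + 1) ^ m * (L ^ (28 * m * t)) ^ m * (N ^ ε) ^ m := by
          have h4 : N ^ e ≤ (N ^ ε) ^ m := by
            rw [← Real.rpow_natCast (N ^ ε) m, ← Real.rpow_mul hN0.le, ← Real.rpow_natCast N e]
            exact Real.rpow_le_rpow_of_exponent_le hN hmε
          have h5 : C1 ≤ (C1 + 1) ^ m := by
            calc C1 ≤ (C1 + 1) ^ 1 := by rw [pow_one]; linarith
              _ ≤ (C1 + 1) ^ m := pow_le_pow_right₀ (by linarith) hm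
          gcongr
      _ = ((C1 + 1) * N ^ ε * L ^ (28 * m * t)) ^ m := by
          rw [mul_pow, mul_pow]
          ring

end Pool.Agent.MPac5134.AE
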