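import Pool.Agent.Lib.MP_ac5134_an.AE.Final

/-!
Families of tubes with additive structure, polynomial range.
-/

namespace Pool.Agent.MPac5134.AE

open Finset MeasureTheory
open scoped Pointwise ENNReal

variable {d : ℕ}

/-- the `L^p` inequality at good heights -/
theorem lp_le {ι : Type*} [Fintype ι] {N Cm : ℝ} (hN : 1 ≤ N) (hCm : 1 ≤ Cm) {θ : ι → Cap d}
    {c : ι → Sp d} {J : Set ℝ} (hJm : MeasurableSet J)
    (hm : ∀ x : Sp d, Int.fract (x (Fin.last d) / N ^ 2) ∈ J → mult N θ c x ≤ Cm) (p : ℝ≥0∞)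
    (hp : 1 ≤ p) :
    eLpNorm ((atHeights d N J).indicator (mult N θ c)) p volume ≤
      ENNReal.ofReal Cm * eLpNorm (mult N θ (fun _ => 0)) p volume := by
  classical
  have hN0 : 0 < N := by linarith
  set A := atHeights d N J with hA
  have hAm : MeasurableSet A := measurableSet_atHeights N hJm
  have hF0 : ∀ x, 0 ≤ A.indicator (mult N θ c) x := fun x =>
    Set.indicator_nonneg (fun x _ => mult_nonneg N θ c x) x
  have hFC : ∀ x, A.indicator (mult N θ c) x ≤ Cm := by
    intro x
    by_cases hx : x ∈ A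
    · rw [Set.indicator_of_mem hx]; exact hm x hx
    · rw [Set.indicator_of_notMem hx]; linarith
  rcases isEmpty_or_nonempty ι with hι | hι
  · have h1 : A.indicator (mult N θ c) = 0 := by
      funext x
      by_cases hx : x ∈ A
      · rw [Set.indicator_of_mem hx]
        unfold mult
        rw [Finset.univ_eq_empty, Finset.sum_empty]
        rfl
      · rw [Set.indicator_of_notMem hx]; rfl
    rw [h1, eLpNorm_zero]
    exact zero_le
  obtain ⟨i0⟩ := hι
  by_cases hpt : p = ∞
  · subst hpt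
    have h1 : eLpNorm (A.indicator (mult N θ c)) ∞ volume ≤ ENNReal.ofReal Cm := by
      rw [eLpNorm_exponent_top]
      apply eLpNormEssSup_le_of_ae_bound
      filter_upwards with x
      rw [Real.norm_of_nonneg (hF0 x)]
      exact hFC x
    have h2 : (1 : ℝ≥0∞) ≤ eLpNorm (mult N θ (fun _ => 0)) ∞ volume := by
      rw [eLpNorm_exponent_top]
      by_contra hcon
      rw [not_le] at hcon
      have h3 := ae_lt_of_essSup_lt hcon
      have h4 : volume (tube N (θ i0) (0 : Sp d)) = 0 := by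
        refine measure_mono_null ?_ h3
        intro x hx
        simp only [Set.mem_compl_iff, Set.mem_setOf_eq, not_lt]
        have h5 : 1 ≤ mult N θ (fun _ => 0) x := by
          unfold mult
          have h6 : (tube N (θ i0) (0 : Sp d)).indicator (fun _ => (1 : ℝ)) x = 1 :=
            Set.indicator_of_mem hx _
          calc (1:ℝ) = (tube N (θ i0) (0 : Sp d)).indicator (fun _ => (1 : ℝ)) x := h6.symm
            _ ≤ _ := Finset.single_le_sum
              (f := fun i => (tube N (θ i) (0 : Sp d)).indicator (fun _ => (1 : ℝ)) x)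
              (fun i _ => Set.indicator_nonneg (fun _ _ => zero_le_one) _) (mem_univ i0)
        rw [← ofReal_norm_eq_enorm, Real.norm_of_nonneg (by linarith)]
        rw [← ENNReal.ofReal_one]
        exact ENNReal.ofReal_le_ofReal h5
      rw [volume_tube hN0.le] at h4
      have h7 : 0 < N ^ (d + 2) := by positivity
      rw [ENNReal.ofReal_eq_zero] at h4
      linarith
    calc _ ≤ ENNReal.ofReal Cm * 1 := by rw [mul_one]; exact h1
      _ ≤ _ := by gcongr
  · have hp0 : p ≠ 0 := by
      intro h0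
      rw [h0] at hp
      exact absurd hp (by simp)
    have hp1 : 1 ≤ p.toReal := by
      rw [← ENNReal.toReal_one]
      exact ENNReal.toReal_mono hpt hp
    have hp0' : 0 < p.toReal := by linarith
    have hmass : ∀ c' : ι → Sp d, ∫⁻ x, ENNReal.ofReal (mult N θ c' x) =
        ∑ _i : ι, ENNReal.ofReal (N ^ (d + 2)) := by
      intro c'
      have h1 : ∀ x, ENNReal.ofReal (mult N θ c' x) =
          ∑ i, (tube N (θ i) (c' i)).indicator (fun _ => (1 : ℝ≥0∞)) x := by
        intro x
        unfold mult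
        rw [ENNReal.ofReal_sum_of_nonneg fun i _ =>
          Set.indicator_nonneg (fun _ _ => zero_le_one) _]
        apply sum_congr rfl
        intro i _
        by_cases hi : x ∈ tube N (θ i) (c' i)
        · rw [Set.indicator_of_mem hi, Set.indicator_of_mem hi, ENNReal.ofReal_one]
        · rw [Set.indicator_of_notMem hi, Set.indicator_of_notMem hi, ENNReal.ofReal_zero]
      simp_rw [h1]
      rw [lintegral_finsetSum _ fun i _ => measurable_const.indicator (measurableSet_tube _ _ _)]
      apply sum_congr rfl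
      intro i _
      rw [lintegral_indicator_const (measurableSet_tube _ _ _), one_mul, volume_tube hN0.le]
    rw [eLpNorm_eq_lintegral_rpow_enorm_toReal hp0 hpt,
      eLpNorm_eq_lintegral_rpow_enorm_toReal hp0 hpt]
    have hup : ∫⁻ x, ‖A.indicator (mult N θ c) x‖ₑ ^ p.toReal ≤
        ENNReal.ofReal Cm ^ p.toReal * ∫⁻ x, ENNReal.ofReal (mult N θ c x) := by
      rw [← lintegral_const_mul _ (measurable_mult N θ c).ennreal_ofReal]
      apply lintegral_mono
      intro x
      show ‖A.indicator (mult N θ c) x‖ₑ ^ p.toReal ≤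
        ENNReal.ofReal Cm ^ p.toReal * ENNReal.ofReal (mult N θ c x)
      rw [← ofReal_norm_eq_enorm, Real.norm_of_nonneg (hF0 x),
        ENNReal.ofReal_rpow_of_nonneg (hF0 x) hp0'.le,
        ENNReal.ofReal_rpow_of_nonneg (by linarith) hp0'.le, ← ENNReal.ofReal_mul (by positivity)]
      apply ENNReal.ofReal_le_ofReal
      by_cases hx : x ∈ A
      · rw [Set.indicator_of_mem hx]
        have h1 := hm x hx
        have h2 := mult_nonneg N θ c x
        rcases h2.eq_or_lt with h3 | h3
        · rw [← h3, Real.zero_rpow hp0'.ne', mul_zero]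
        · have h4 := mult_ge_one h3
          calc mult N θ c x ^ p.toReal ≤ Cm ^ p.toReal := Real.rpow_le_rpow h2 h1 hp0'.le
            _ = Cm ^ p.toReal * 1 := (mul_one _).symm
            _ ≤ _ := by gcongr
      · rw [Set.indicator_of_notMem hx, Real.zero_rpow hp0'.ne']
        have h2 := mult_nonneg N θ c x
        positivity
    have hlow : ∫⁻ x, ENNReal.ofReal (mult N θ (fun _ => 0) x) ≤
        ∫⁻ x, ‖mult N θ (fun _ => 0) x‖ₑ ^ p.toReal := by
      apply lintegral_mono
      intro x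
      have h2 := mult_nonneg N θ (fun _ => 0) x
      show ENNReal.ofReal (mult N θ (fun _ => 0) x) ≤ ‖mult N θ (fun _ => 0) x‖ₑ ^ p.toReal
      rw [← ofReal_norm_eq_enorm, Real.norm_of_nonneg h2,
        ENNReal.ofReal_rpow_of_nonneg h2 hp0'.le]
      apply ENNReal.ofReal_le_ofReal
      rcases h2.eq_or_lt with h3 | h3
      · rw [← h3, Real.zero_rpow hp0'.ne']
      · have h4 := mult_ge_one h3
        calc mult N θ (fun _ => 0) x = mult N θ (fun _ => 0) x ^ (1:ℝ) := (Real.rpow_one _).symm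
          _ ≤ _ := Real.rpow_le_rpow_of_exponent_le h4 hp1
    have hall : ∫⁻ x, ‖A.indicator (mult N θ c) x‖ₑ ^ p.toReal ≤
        ENNReal.ofReal Cm ^ p.toReal * ∫⁻ x, ‖mult N θ (fun _ => 0) x‖ₑ ^ p.toReal := by
      refine hup.trans ?_
      rw [hmass c, ← hmass (fun _ => 0)]
      gcongr
    calc (∫⁻ x, ‖A.indicator (mult N θ c) x‖ₑ ^ p.toReal) ^ (1 / p.toReal) ≤
          (ENNReal.ofReal Cm ^ p.toReal * ∫⁻ x, ‖mult N θ (fun _ => 0) x‖ₑ ^ p.toReal) ^
            (1 / p.toReal) := ENNReal.rpow_le_rpow hall (by positivity)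
      _ = _ := by
          rw [ENNReal.mul_rpow_of_nonneg _ _ (by positivity), ← ENNReal.rpow_mul,
            mul_one_div_cancel hp0'.ne', ENNReal.rpow_one]

/-- the labels of a sub-family -/
theorem labels_sub {ι : Type*} [Fintype ι] {N : ℝ} {θ : ι → Cap d} {c : ι → Sp d}
    {G' : Finset (Fin d ⊕ Fin (d + 1) → ℤ)} (hG' : G' ⊆ labels N θ c) {S : Finset ι}
    (hS : ∀ i, i ∈ S ↔ label N (θ i) (c i) ∈ G') :
    labels N (fun i : {i // i ∈ S} => θ i) (fun i : {i // i ∈ S} => c i) = G' := by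
  classical
  ext g
  unfold labels
  rw [mem_image]
  constructor
  · rintro ⟨i, -, rfl⟩
    exact (hS i).1 i.2
  · intro hg
    have h1 := hG' hg
    unfold labels at h1
    rw [mem_image] at h1
    obtain ⟨i, -, hi⟩ := h1
    exact ⟨⟨i, (hS i).2 (by rw [hi]; exact hg)⟩, mem_univ _, hi⟩

/-- The theorem. -/
theorem additive_energy (hd : 0 < d) :
    ∃ A : ℝ, 0 < A ∧ ∀ (K : ℕ) (ε : ℝ), 0 < ε → ε ≤ 1 → ∃ C : ℝ, 0 < C ∧
      ∀ lam : ℝ, 0 < lam → lam ≤ 1 →
      ∀ N : ℝ, 1 ≤ N → ∀ (ι : Type) [Fintype ι] (θ : ι → Cap d) (c : ι → Sp d),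
      (∀ z : Fin d → ℤ, ∀ s : Finset ι, (∀ i ∈ s, cell N (θ i) = z) → s.card ≤ K) →
      ∀ L : ℝ, 1 ≤ L → ManyQuadruples L (labels N θ c) →
      ∃ (S : Finset ι) (J : Set ℝ),
        (∀ Y : ι → Set (Sp d), (∀ i, MeasurableSet (Y i) ∧ Y i ⊆ tube N (θ i) (c i) ∧
            ENNReal.ofReal lam * volume (tube N (θ i) (c i)) ≤ volume (Y i)) →
          ∑ i, volume (tube N (θ i) (c i)) ≤
            ENNReal.ofReal (C * N ^ ε * (2 * L) ^ (A / ε * Real.log (2 / (ε * lam)))) *
              volume (⋃ i ∈ S, Y i)) ∧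
        (((labels N θ c + labels N θ c).card : ℝ) ≤ L * (labels N θ c).card →
          S = Finset.univ) ∧
        (Fintype.card ι : ℝ) ≤ C * L ^ A * S.card ∧
        MeasurableSet J ∧ J ⊆ Set.Ico 0 1 ∧
        volume (Set.Ico (0:ℝ) 1 \ J) ≤ ENNReal.ofReal lam ∧
        (∀ x : Sp d, Int.fract (x (Fin.last d) / N ^ 2) ∈ J →
          multOn S N θ c x ≤ C * N ^ ε * (2 * L) ^ (A / ε * Real.log (2 / (ε * lam)))) ∧
        (∀ p : ℝ≥0∞, 1 ≤ p →
          eLpNorm ({x | Int.fract (x (Fin.last d) / N ^ 2) ∈ J}.indicator (multOn S N θ c)) p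
            volume ≤
            ENNReal.ofReal (C * N ^ ε * (2 * L) ^ (A / ε * Real.log (2 / (ε * lam)))) *
              eLpNorm (mult N θ (fun _ => 0)) p volume) := by
  classical
  have hd' : (0:ℝ) < d := by exact_mod_cast hd
  obtain ⟨Z, hZ⟩ : ∃ Z : ℝ, Z = 2 * ((2 * d + 7) * (3 * d) ^ d) := ⟨_, rfl⟩
  have hZ1 : 1 ≤ Z := by
    have h1 : 1 ≤ (2 * (d:ℝ) + 7) * (3 * d) ^ d := by
      apply one_le_mul_of_one_le_of_one_le (by linarith)
      apply one_le_pow₀
      have : (1:ℝ) ≤ d := by exact_mod_cast hd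
      linarith
    rw [hZ]; linarith
  have hlogZ : 0 ≤ Real.log Z := Real.log_nonneg hZ1
  obtain ⟨A0, hA0, hgood'⟩ := good_heights d
  obtain ⟨A1, hA1⟩ : ∃ A1 : ℝ, A1 = A0 * (1 + 2 * Real.log Z) := ⟨_, rfl⟩
  have hA10 : 0 ≤ A1 := by rw [hA1]; positivity
  refine ⟨132 * A1 + 74, by linarith, ?_⟩
  intro K ε hε hε1
  obtain ⟨C1, hC1, hgood⟩ := hgood' K ε hε hε1
  have hK0 : (0:ℝ) ≤ K := Nat.cast_nonneg K
  obtain ⟨b, hb⟩ : ∃ b : ℝ, b = K * 2 ^ 131 + 1 := ⟨_, rfl⟩
  have hb1 : 1 ≤ b := by
    have : 0 ≤ (K:ℝ) * 2 ^ 131 := by positivity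
    rw [hb]; linarith
  refine ⟨b * C1 + C1 + b, by positivity, ?_⟩
  intro lam hlam hlam1 N hN ι _ θ c hK L hL1 hE
  obtain ⟨η, hη⟩ : ∃ η : ℝ, η = lam / Z := ⟨_, rfl⟩
  have hη0 : 0 < η := by rw [hη]; positivity
  have hη2 : (2 * d + 7) * η * (3 * d) ^ d ≤ lam / 2 := by
    rw [hη, hZ]
    apply le_of_eq
    field_simp
  have hηlam : η ≤ lam := by
    rw [hη, div_le_iff₀ (by linarith)]
    nlinarith
  have hη1 : η ≤ 1 := hηlam.trans hlam1
  have hN0 : 0 < N := by linarith
  have hL0 : 0 < L := by linarith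
  have h2L : 1 ≤ 2 * L := by linarith
  have hNε1 : 1 ≤ N ^ ε := Real.one_le_rpow hN hε.le
  have hNε : 0 < N ^ ε := by positivity
  have hL36 : (1:ℝ) ≤ L ^ 36 := one_le_pow₀ hL1
  -- the logarithm
  obtain ⟨Λ, hΛd⟩ : ∃ Λ : ℝ, Λ = Real.log (2 / (ε * lam)) := ⟨_, rfl⟩
  have hel : 0 < ε * lam := by positivity
  have hel1 : ε * lam ≤ 1 := mul_le_one₀ hε1 hlam.le hlam1
  have hlog2 := Real.log_two_gt_d9
  have hΛ2 : Real.log 2 ≤ Λ := by
    rw [hΛd]
    apply Real.log_le_log (by norm_num)
    rw [le_div_iff₀ hel]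
    linarith
  have hΛ1 : 1 ≤ 2 * Λ := by linarith
  have hΛη : Real.log (2 / (ε * η)) ≤ (1 + 2 * Real.log Z) * Λ := by
    have e1 : 2 / (ε * η) = 2 / (ε * lam) * Z := by rw [hη]; field_simp
    rw [e1, Real.log_mul (by positivity) (by positivity), ← hΛd]
    nlinarith
  rw [← hΛd]
  have hinv : 1 ≤ 1 / ε := by rw [le_div_iff₀ hε]; linarith
  have hΛε : 1 ≤ 2 * (1 / ε * Λ) := by nlinarith
  -- the two powers
  obtain ⟨P, hP⟩ : ∃ P : ℝ, P = (2 * L) ^ ((132 * A1 + 74) / ε * Λ) := ⟨_, rfl⟩
  have hΛ0 : 0 ≤ Λ := by linarith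
  have hP1 : 1 ≤ P := by rw [hP]; exact Real.one_le_rpow h2L (by positivity)
  rw [← hP]
  obtain ⟨R, hR⟩ : ∃ R : ℝ, R = (2 * L) ^ (132 * A1 / ε * Λ) := ⟨_, rfl⟩
  have hR1 : 1 ≤ R := by rw [hR]; exact Real.one_le_rpow h2L (by positivity)
  have hexp1 : R ≤ P := by
    rw [hR, hP]
    apply Real.rpow_le_rpow_of_exponent_le h2L
    gcongr
    linarith
  have hlamP : 2 / lam ≤ (2 * L) ^ (2 * Λ) := by
    have h1 : 2 / lam ≤ Real.exp Λ := by
      rw [hΛd, Real.exp_log (by positivity)]
      apply div_le_div_of_nonneg_left (by norm_num) hel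
      nlinarith
    refine h1.trans ?_
    rw [Real.rpow_def_of_pos (by positivity)]
    apply Real.exp_le_exp.2
    have h2 : Real.log 2 ≤ Real.log (2 * L) := Real.log_le_log (by norm_num) (by linarith)
    nlinarith
  have hexp2 : L ^ 36 * (2 / lam * R) ≤ P := by
    have h1 : L ^ 36 ≤ (2 * L) ^ (72 / ε * Λ) := by
      calc L ^ 36 ≤ (2 * L) ^ 36 := by gcongr; linarith
        _ = (2 * L) ^ ((36:ℕ):ℝ) := (Real.rpow_natCast _ _).symm
        _ ≤ _ := by
            apply Real.rpow_le_rpow_of_exponent_le h2L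
            push_cast
            have e1 : 72 / ε * Λ = 36 * (2 * (1 / ε * Λ)) := by ring
            rw [e1]
            linarith
    have h2 : (2 * L) ^ (2 * Λ) ≤ (2 * L) ^ (2 / ε * Λ) := by
      apply Real.rpow_le_rpow_of_exponent_le h2L
      have e1 : 2 / ε * Λ = 2 * (1 / ε * Λ) := by ring
      rw [e1]
      nlinarith
    calc L ^ 36 * (2 / lam * R) ≤
          (2 * L) ^ (72 / ε * Λ) * ((2 * L) ^ (2 / ε * Λ) * (2 * L) ^ (132 * A1 / ε * Λ)) := by
          rw [hR]
          gcongr
          exact hlamP.trans h2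
      _ = P := by
          rw [← Real.rpow_add (by positivity), ← Real.rpow_add (by positivity), hP]
          congr 1
          ring
  have hexp3 : L ^ 36 ≤ L ^ (132 * A1 + 74) := by
    rw [← Real.rpow_natCast L 36]
    apply Real.rpow_le_rpow_of_exponent_le hL1
    push_cast
    linarith
  -- the sub-family
  obtain ⟨S, hS1, hS2, hS3⟩ : ∃ S : Finset ι,
      (((labels N θ c + labels N θ c).card : ℝ) ≤ L * (labels N θ c).card →
          S = Finset.univ) ∧
      (Fintype.card ι : ℝ) ≤ b * L ^ 36 * S.card ∧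
      ((labels N (fun i : {i // i ∈ S} => θ i) (fun i : {i // i ∈ S} => c i) +
        labels N (fun i : {i // i ∈ S} => θ i) (fun i : {i // i ∈ S} => c i)).card : ℝ) ≤
        2 ^ 131 * L ^ 36 *
        (labels N (fun i : {i // i ∈ S} => θ i) (fun i : {i // i ∈ S} => c i)).card := by
    by_cases hdoub : ((labels N θ c + labels N θ c).card : ℝ) ≤ L * (labels N θ c).card
    · refine ⟨univ, fun _ => rfl, ?_, ?_⟩
      · rw [card_univ]
        have h1 : (0:ℝ) ≤ Fintype.card ι := Nat.cast_nonneg _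
        have h2 : 1 ≤ b * L ^ 36 := one_le_mul_of_one_le_of_one_le hb1 hL36
        nlinarith
      · have h1 := labels_sub (N := N) (θ := θ) (c := c) (G' := labels N θ c) subset_rfl
          (S := univ) (fun i => by
            simp only [mem_univ, true_iff]
            unfold labels
            exact mem_image_of_mem _ (mem_univ i))
        rw [h1]
        refine hdoub.trans ?_
        apply mul_le_mul_of_nonneg_right _ (Nat.cast_nonneg _)
        have h1 : L ^ 1 ≤ L ^ 36 := pow_le_pow_right₀ hL1 (by norm_num)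
        rw [pow_one] at h1
        linarith
    · rcases isEmpty_or_nonempty ι with hι | ⟨⟨i0⟩⟩
      · refine ⟨univ, fun _ => rfl, ?_, ?_⟩
        · rw [Fintype.card_eq_zero]
          push_cast
          positivity
        · have h1 : labels N (fun i : {i // i ∈ (univ : Finset ι)} => θ i)
              (fun i : {i // i ∈ (univ : Finset ι)} => c i) = ∅ := by
            unfold labels
            rw [Finset.image_eq_empty]
            exact Finset.univ_eq_empty
          rw [h1]
          simp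
      obtain ⟨G, hG⟩ : ∃ G, G = labels N θ c := ⟨_, rfl⟩
      have hE' : (G.card : ℝ) ^ 3 ≤ L * G.addEnergy G := by
        rw [hG]; exact hE
      have hGne : G.Nonempty := by rw [hG]; exact labels_nonempty i0
      obtain ⟨D, hD⟩ : ∃ D : ℕ, D = ⌈L⌉₊ := ⟨_, rfl⟩
      have hD1 : 1 ≤ D := by rw [hD]; exact Nat.one_le_ceil_iff.mpr (by linarith)
      have hND : L ≤ D := by rw [hD]; exact Nat.le_ceil _
      have hD2 : (D:ℝ) ≤ 2 * L := by
        rw [hD]
        have := (Nat.ceil_lt_add_one hL0.le).le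
        linarith
      have hED : G.card ^ 3 ≤ D * G.addEnergy G := by
        have h1 : (G.card : ℝ) ^ 3 ≤ D * G.addEnergy G := by
          refine hE'.trans ?_
          gcongr
        exact_mod_cast h1
      obtain ⟨G', hG', hcard, hdoub'⟩ := BSG.bsg_explicit D G hGne hED
      have hbn : ((bsgNat D : ℕ) : ℝ) ≤ 2 ^ 131 * L ^ 36 := by
        calc ((bsgNat D : ℕ) : ℝ) ≤ 2 ^ 95 * (D:ℝ) ^ 36 := bsgNat_le hD1
          _ ≤ 2 ^ 95 * (2 * L) ^ 36 := by gcongr
          _ = 2 ^ 131 * L ^ 36 := by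
              rw [mul_pow]
              ring
      have hcard' : (G.card : ℝ) ≤ bsgNat D * G'.card := by
        unfold bsgNat
        exact_mod_cast hcard
      have hdoub2 : ((G' + G').card : ℝ) ≤ bsgNat D * G'.card := by
        unfold bsgNat
        exact_mod_cast hdoub'
      obtain ⟨S, hS⟩ : ∃ S : Finset ι,
        S = univ.filter fun i => label N (θ i) (c i) ∈ G' := ⟨_, rfl⟩
      have hSmem : ∀ i, i ∈ S ↔ label N (θ i) (c i) ∈ G' := by
        intro i
        rw [hS, mem_filter]
        simp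
      refine ⟨S, fun h => absurd h hdoub, ?_, ?_⟩
      · have h2 : Fintype.card ι ≤ K * G.card := by
          rw [hG, ← Finset.card_univ]
          unfold labels
          apply Finset.card_le_mul_card_image
          intro g _
          apply hK (fun m => g (Sum.inl m))
          intro i hi
          have h3 := (Finset.mem_filter.1 hi).2
          funext m
          rw [← h3]; rfl
        have h3 : G'.card ≤ S.card := by
          have h4 : G' ⊆ S.image (fun i => label N (θ i) (c i)) := by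
            intro g hg
            have h5 := hG' hg
            rw [hG] at h5
            unfold labels at h5
            rw [mem_image] at h5
            obtain ⟨i, -, hi⟩ := h5
            rw [Finset.mem_image]
            exact ⟨i, (hSmem i).2 (by rw [hi]; exact hg), hi⟩
          exact (card_le_card h4).trans card_image_le
        calc (Fintype.card ι : ℝ) ≤ K * G.card := by exact_mod_cast h2
          _ ≤ K * (bsgNat D * G'.card) := by gcongr
          _ ≤ K * ((2 ^ 131 * L ^ 36) * S.card) := by gcongr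
          _ = (K * 2 ^ 131) * L ^ 36 * S.card := by ring
          _ ≤ b * L ^ 36 * S.card := by
              have : (K:ℝ) * 2 ^ 131 ≤ b := by rw [hb]; linarith
              gcongr
      · rw [labels_sub (by rw [← hG]; exact hG') hSmem]
        refine hdoub2.trans ?_
        exact mul_le_mul_of_nonneg_right hbn (Nat.cast_nonneg _)
  obtain ⟨J, hJm, hJ1, hJv, hJx'⟩ := hgood η hη0 hη1 N hN {i // i ∈ S} (fun i => θ i)
    (fun i => c i) (by
    intro z s hs
    have h3 := hK z (s.map (Function.Embedding.subtype _)) (by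
      intro i hi
      rw [Finset.mem_map] at hi
      obtain ⟨j, hj, rfl⟩ := hi
      exact hs j hj)
    rwa [Finset.card_map] at h3) (2 ^ 131 * L ^ 36) (by linarith) hS3
  have hpow : (2 * (2 ^ 131 * L ^ 36)) ^ (A0 / ε * Real.log (2 / (ε * η))) ≤ R := by
    have h1 : 2 * (2 ^ 131 * L ^ 36) ≤ (2 * L) ^ 132 := by
      calc 2 * (2 ^ 131 * L ^ 36) = 2 ^ 132 * L ^ 36 := by ring
        _ ≤ 2 ^ 132 * L ^ 132 := by
            gcongr
            norm_num
        _ = (2 * L) ^ 132 := by rw [mul_pow]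
    have h0 : 1 ≤ 2 * (2 ^ 131 * L ^ 36) := by linarith
    have hηlog : 0 ≤ Real.log (2 / (ε * η)) := by
      apply Real.log_nonneg
      have h3 : ε * η ≤ 1 := mul_le_one₀ hε1 hη0.le hη1
      rw [le_div_iff₀ (by positivity)]
      linarith
    calc (2 * (2 ^ 131 * L ^ 36)) ^ (A0 / ε * Real.log (2 / (ε * η))) ≤
          ((2 * L) ^ 132) ^ (A0 / ε * Real.log (2 / (ε * η))) := by gcongr
      _ = (2 * L) ^ (132 * (A0 / ε * Real.log (2 / (ε * η)))) := by
          rw [← Real.rpow_natCast (2 * L) 132, ← Real.rpow_mul (by positivity)]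
          norm_num
      _ ≤ (2 * L) ^ (132 * A1 / ε * Λ) := by
          apply Real.rpow_le_rpow_of_exponent_le h2L
          calc 132 * (A0 / ε * Real.log (2 / (ε * η))) ≤
                132 * (A0 / ε * ((1 + 2 * Real.log Z) * Λ)) := by gcongr
            _ = 132 * A1 / ε * Λ := by rw [hA1]; ring
      _ = R := hR.symm
  have hJx : ∀ x : Sp d, Int.fract (x (Fin.last d) / N ^ 2) ∈ J →
      mult N (fun i : {i // i ∈ S} => θ i) (fun i : {i // i ∈ S} => c i) x ≤
        C1 * N ^ ε * R := fun x hx => (hJx' x hx).trans (by gcongr)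
  have hCC : C1 * N ^ ε * R ≤ (b * C1 + C1 + b) * N ^ ε * P := by
    have h1 : 0 ≤ b * C1 := by positivity
    calc C1 * N ^ ε * R ≤ C1 * N ^ ε * P := by gcongr
      _ ≤ _ := by
        apply mul_le_mul_of_nonneg_right _ (by linarith)
        apply mul_le_mul_of_nonneg_right _ hNε.le
        linarith
  have hx' : ∀ x : Sp d, Int.fract (x (Fin.last d) / N ^ 2) ∈ J →
      mult N (fun i : {i // i ∈ S} => θ i) (fun i : {i // i ∈ S} => c i) x ≤
        (b * C1 + C1 + b) * N ^ ε * P := fun x hx => (hJx x hx).trans hCC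
  refine ⟨S, J, ?_, hS1, ?_, hJm, hJ1, hJv.trans (ENNReal.ofReal_le_ofReal hηlam), ?_, ?_⟩
  · intro Y hY
    have h1 := shade_le hN hlam hJm hη0.le hJv hη2 hJx (fun i : {i // i ∈ S} => Y i)
      (fun i => hY i)
    have hVι : ∑ i, volume (tube N (θ i) (c i)) =
        ENNReal.ofReal (Fintype.card ι * N ^ (d + 2)) := by
      rw [sum_congr rfl fun i _ => volume_tube hN0.le (θ i) (c i), sum_const, card_univ,
        nsmul_eq_mul, ENNReal.ofReal_mul (Nat.cast_nonneg _), ENNReal.ofReal_natCast]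
    have hVS : ∑ i : {i // i ∈ S}, volume (tube N (θ i) (c i)) =
        ENNReal.ofReal (S.card * N ^ (d + 2)) := by
      rw [sum_congr rfl fun (i : {i // i ∈ S}) _ => volume_tube hN0.le (θ i) (c i), sum_const,
        card_univ, Fintype.card_coe, nsmul_eq_mul, ENNReal.ofReal_mul (Nat.cast_nonneg _),
        ENNReal.ofReal_natCast]
    have hsubU : volume (⋃ i : {i // i ∈ S}, Y i) ≤ volume (⋃ i ∈ S, Y i) := by
      apply measure_mono
      intro x hx
      rw [Set.mem_iUnion] at hx
      obtain ⟨i, hi⟩ := hx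
      rw [Set.mem_iUnion₂]
      exact ⟨i, i.2, hi⟩
    calc ∑ i, volume (tube N (θ i) (c i)) =
          ENNReal.ofReal (Fintype.card ι * N ^ (d + 2)) := hVι
      _ ≤ ENNReal.ofReal ((b * L ^ 36) * (S.card * N ^ (d + 2))) := by
          apply ENNReal.ofReal_le_ofReal
          rw [← mul_assoc]
          apply mul_le_mul_of_nonneg_right hS2 (by positivity)
      _ = ENNReal.ofReal (b * L ^ 36) *
          ∑ i : {i // i ∈ S}, volume (tube N (θ i) (c i)) := by
          rw [hVS, ← ENNReal.ofReal_mul (by positivity)]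
      _ ≤ ENNReal.ofReal (b * L ^ 36) *
          (ENNReal.ofReal (2 / lam * (C1 * N ^ ε * R)) * volume (⋃ i ∈ S, Y i)) := by
          gcongr
          exact h1.trans (by gcongr)
      _ = ENNReal.ofReal ((b * C1) * N ^ ε * (L ^ 36 * (2 / lam * R))) *
            volume (⋃ i ∈ S, Y i) := by
          rw [← mul_assoc, ← ENNReal.ofReal_mul (by positivity)]
          congr 2
          ring
      _ ≤ _ := by
          gcongr
          have : 0 ≤ C1 + b := by linarith
          linarith
  · refine hS2.trans ?_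
    apply mul_le_mul_of_nonneg_right _ (Nat.cast_nonneg _)
    have h1 : 0 ≤ b * C1 := by positivity
    have h2 : 0 ≤ L ^ (132 * A1 + 74) := by positivity
    calc b * L ^ 36 ≤ b * L ^ (132 * A1 + 74) := by gcongr
      _ ≤ _ := by
        apply mul_le_mul_of_nonneg_right _ h2
        linarith
  · intro x hx
    rw [multOn_eq]
    exact hx' x hx
  · intro p hp
    rw [multOn_eq]
    refine (lp_le hN ?_ hJm hx' p hp).trans ?_
    · refine le_trans ?_ hCC
      exact one_le_mul_of_one_le_of_one_le (one_le_mul_of_one_le_of_one_le hC1 hNε1) hR1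
    · gcongr
      apply eLpNorm_mono
      intro x
      rw [Real.norm_of_nonneg (mult_nonneg N _ _ x), Real.norm_of_nonneg (mult_nonneg N θ _ x)]
      have h1 := multOn_le S N θ (fun _ => 0) x
      rw [multOn_eq] at h1
      exact h1

end Pool.Agent.MPac5134.AE
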